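import Mathlib

/-!
Definitions for the lower shadow problem: `t`-covering families of `s`-subsets of
`Fin n`, their lower `r`-shadow, and the minimum `f n r s t`.
-/

namespace Pool.Agent.Lib.MP_455133_co

open Finset

/-- The lower `r`-shadow of a family of subsets of `{0, ..., n-1}`: all `r`-sets contained in a
member of the family. -/
def lowerShadow {n : ℕ} (r : ℕ) (𝒜 : Finset (Finset (Fin n))) : Finset (Finset (Fin n)) :=
  (powersetCard r (univ : Finset (Fin n))).filter fun B => ∃ A ∈ 𝒜, B ⊆ A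

/-- The family `𝒜` consists of `s`-sets and every `t`-set contains a member of `𝒜`. -/
def IsCovering {n : ℕ} (s t : ℕ) (𝒜 : Finset (Finset (Fin n))) : Prop :=
  (∀ A ∈ 𝒜, A.card = s) ∧ ∀ C : Finset (Fin n), C.card = t → ∃ A ∈ 𝒜, A ⊆ C

/-- `f n r s t`: the least size of the lower `r`-shadow of a `t`-covering family of `s`-subsets
of an `n`-set. -/
noncomputable def f (n r s t : ℕ) : ℕ :=
  sInf {m : ℕ | ∃ 𝒜 : Finset (Finset (Fin n)), IsCovering s t 𝒜 ∧ m = (lowerShadow r 𝒜).card}

/-- The set in the definition of `f` is nonempty. -/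
theorem f_set_nonempty {n r s t : ℕ} (hst : s ≤ t) :
    {m : ℕ | ∃ 𝒜 : Finset (Finset (Fin n)),
      IsCovering s t 𝒜 ∧ m = (lowerShadow r 𝒜).card}.Nonempty := by
  refine ⟨_, powersetCard s univ, ⟨?_, ?_⟩, rfl⟩
  · intro A hA; exact (mem_powersetCard.mp hA).2
  · intro C hC
    obtain ⟨A, hAC, hA⟩ := Finset.exists_subset_card_eq (s := C) (n := s) (by omega)
    exact ⟨A, mem_powersetCard.mpr ⟨subset_univ _, hA⟩, hAC⟩

/-- The minimum in the definition of `f` is attained. -/
theorem f_spec {n r s t : ℕ} (hst : s ≤ t) :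
    ∃ 𝒜 : Finset (Finset (Fin n)), IsCovering s t 𝒜 ∧ f n r s t = (lowerShadow r 𝒜).card :=
  Nat.sInf_mem (f_set_nonempty hst)

/-- Every covering family gives an upper bound for `f`. -/
theorem f_le {n r s t : ℕ} {𝒜 : Finset (Finset (Fin n))} (h : IsCovering s t 𝒜) :
    f n r s t ≤ (lowerShadow r 𝒜).card := Nat.sInf_le ⟨𝒜, h, rfl⟩

end Pool.Agent.Lib.MP_455133_co
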