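import Mathlib
import Pool.Agent.Lib.MP_455133_co.Defs

/-!
Upper bounds for `f` by disjoint blocks.
-/

namespace Pool.Agent.Lib.MP_455133_co

open Finset

theorem f_le_blocks {n r s t l : ℕ} (b : Fin l → ℕ) (hb : ∑ i, b i ≤ n)
    (hc : n + l * (s - 1) < t + ∑ i, b i) (hs : 1 ≤ s) :
    f n r s t ≤ ∑ i, (b i).choose r := by
  classical
  -- embed the blocks
  have hcard : Fintype.card (Σ i : Fin l, Fin (b i)) ≤ Fintype.card (Fin n) := by
    simpa using hb
  obtain ⟨e⟩ := Function.Embedding.nonempty_of_card_le hcard
  let B : Fin l → Finset (Fin n) := fun i => univ.map ((Function.Embedding.sigmaMk i).trans e)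
  have hBcard : ∀ i, (B i).card = b i := by
    intro i; simp [B]
  have hBdisj : ∀ i j, i ≠ j → Disjoint (B i) (B j) := by
    intro i j hij
    rw [disjoint_left]
    intro x hx hx'
    simp only [B, mem_map, mem_univ, true_and, Function.Embedding.trans_apply,
      Function.Embedding.sigmaMk_apply] at hx hx'
    obtain ⟨y, hy⟩ := hx
    obtain ⟨y', hy'⟩ := hx'
    have := e.injective (hy.trans hy'.symm)
    exact hij (by simpa using congrArg Sigma.fst this)
  let 𝒜 : Finset (Finset (Fin n)) := univ.biUnion fun i => powersetCard s (B i)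
  have h𝒜 : IsCovering s t 𝒜 := by
    refine ⟨?_, ?_⟩
    · intro A hA
      simp only [𝒜, mem_biUnion, mem_univ, true_and, mem_powersetCard] at hA
      obtain ⟨i, -, h⟩ := hA
      exact h
    · intro C hC
      by_contra hcon
      push Not at hcon
      have hsmall : ∀ i, (C ∩ B i).card ≤ s - 1 := by
        intro i
        by_contra hlt
        push Not at hlt
        obtain ⟨A, hA, hAc⟩ := exists_subset_card_eq (s := C ∩ B i) (n := s) (by omega)
        refine hcon A ?_ (hA.trans inter_subset_left)
        simp only [𝒜, mem_biUnion, mem_univ, true_and, mem_powersetCard]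
        exact ⟨i, hA.trans inter_subset_right, hAc⟩
      have hsub : C ⊆ (univ \ univ.biUnion B) ∪ univ.biUnion (fun i => C ∩ B i) := by
        intro x hx
        by_cases h : x ∈ univ.biUnion B
        · rw [mem_biUnion] at h
          obtain ⟨i, -, hi⟩ := h
          rw [mem_union]; right
          rw [mem_biUnion]
          exact ⟨i, mem_univ _, mem_inter.mpr ⟨hx, hi⟩⟩
        · rw [mem_union]; left
          exact mem_sdiff.mpr ⟨mem_univ _, h⟩
      have h1 : (univ.biUnion B).card = ∑ i, b i := by
        rw [card_biUnion (fun i _ j _ hij => hBdisj i j hij)]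
        exact sum_congr rfl fun i _ => hBcard i
      have h2 : (univ \ univ.biUnion B).card = n - ∑ i, b i := by
        rw [card_sdiff_of_subset (subset_univ _), h1]; simp
      have h3 : (univ.biUnion (fun i => C ∩ B i)).card ≤ l * (s - 1) := by
        refine card_biUnion_le.trans ?_
        refine (sum_le_sum fun i _ => hsmall i).trans ?_
        simp
      have h4 := card_le_card hsub
      have h5 := card_union_le (univ \ univ.biUnion B) (univ.biUnion (fun i => C ∩ B i))
      omega
  refine (f_le h𝒜).trans ?_
  have hsub : lowerShadow r 𝒜 ⊆ univ.biUnion fun i => powersetCard r (B i) := by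
    intro R hR
    simp only [lowerShadow, 𝒜, mem_filter, mem_powersetCard, mem_biUnion, mem_univ, true_and]
      at hR ⊢
    obtain ⟨⟨-, hc⟩, A, ⟨i, hA, -⟩, hRA⟩ := hR
    exact ⟨i, hRA.trans hA, hc⟩
  refine (card_le_card hsub).trans (card_biUnion_le.trans ?_)
  apply sum_le_sum
  intro i _
  rw [card_powersetCard, hBcard]

end Pool.Agent.Lib.MP_455133_co
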