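import Mathlib

/-!
A lower bound for the shadow of a uniform family with large covering number, by deleting a
vertex in many closures.
-/

namespace Pool.Agent.Lib.MP_455133_co

open Finset

variable {V : Type*} [Fintype V] [DecidableEq V]

/-- The `r`-sets contained in a member of the family. -/
def shad (r : ℕ) (𝒜 : Finset (Finset V)) : Finset (Finset V) :=
  (powersetCard r univ).filter fun B => ∃ A ∈ 𝒜, B ⊆ A

/-- The intersection of the members of the family which contain `R`. -/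
def clo (𝒜 : Finset (Finset V)) (R : Finset V) : Finset V :=
  univ.filter fun x => ∀ A ∈ 𝒜, R ⊆ A → x ∈ A

theorem mem_shad {r : ℕ} {𝒜 : Finset (Finset V)} {B : Finset V} :
    B ∈ shad r 𝒜 ↔ B.card = r ∧ ∃ A ∈ 𝒜, B ⊆ A := by
  simp [shad, mem_powersetCard]

theorem mem_clo {𝒜 : Finset (Finset V)} {R : Finset V} {x : V} :
    x ∈ clo 𝒜 R ↔ ∀ A ∈ 𝒜, R ⊆ A → x ∈ A := by
  simp [clo]

theorem subset_clo {𝒜 : Finset (Finset V)} {R : Finset V} : R ⊆ clo 𝒜 R := by
  intro x hx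
  rw [mem_clo]
  intro A _ hRA
  exact hRA hx

theorem clo_subset {𝒜 : Finset (Finset V)} {R A : Finset V} (hA : A ∈ 𝒜) (hRA : R ⊆ A) :
    clo 𝒜 R ⊆ A := by
  intro x hx
  exact mem_clo.mp hx A hA hRA

section Local

variable {r s : ℕ} {𝒜 : Finset (Finset V)} {v : V} {A : Finset V}

/-- sets of the shadow through `v` not inside `A` -/
def outS (r : ℕ) (𝒜 : Finset (Finset V)) (v : V) (A : Finset V) : Finset (Finset V) :=
  (shad r 𝒜).filter fun R => v ∈ R ∧ ¬ R ⊆ A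

/-- `r`-subsets of `A` through `v` whose closure is not `A` -/
def badS (r : ℕ) (𝒜 : Finset (Finset V)) (v : V) (A : Finset V) : Finset (Finset V) :=
  (powersetCard r A).filter fun R => v ∈ R ∧ clo 𝒜 R ≠ A

/-- `(r-1)`-subsets of `A` through `v` inside bad sets -/
def qS (r : ℕ) (𝒜 : Finset (Finset V)) (v : V) (A : Finset V) : Finset (Finset V) :=
  (powersetCard (r-1) A).filter fun Q => v ∈ Q ∧ ∃ R ∈ badS r 𝒜 v A, Q ⊆ R

theorem qS_card_le (h𝒜 : ∀ A ∈ 𝒜, A.card = s) (hA : A ∈ 𝒜) (hr : 2 ≤ r) :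
    (qS r 𝒜 v A).card ≤ (outS r 𝒜 v A).card := by
  have hsub : qS r 𝒜 v A ⊆ (outS r 𝒜 v A).image (fun R => R ∩ A) := by
    intro Q hQ
    simp only [qS, mem_filter, mem_powersetCard] at hQ
    obtain ⟨⟨hQA, hQc⟩, hvQ, R, hR, hQR⟩ := hQ
    simp only [badS, mem_filter, mem_powersetCard] at hR
    obtain ⟨⟨hRA, hRc⟩, hvR, hcl⟩ := hR
    -- a member containing R different from A
    have : ∃ B ∈ 𝒜, R ⊆ B ∧ ¬ A ⊆ B := by
      by_contra hcon
      push Not at hcon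
      apply hcl
      apply Subset.antisymm (clo_subset hA hRA)
      intro x hx
      rw [mem_clo]
      intro B hB hRB
      exact hcon B hB hRB hx
    obtain ⟨B, hB, hRB, hAB⟩ := this
    have hBA : ¬ B ⊆ A := by
      intro h
      apply hAB
      rw [Finset.eq_of_subset_of_card_le h (by rw [h𝒜 A hA, h𝒜 B hB])]
    obtain ⟨y, hyB, hyA⟩ := not_subset.mp hBA
    rw [mem_image]
    refine ⟨insert y Q, ?_, ?_⟩
    · simp only [outS, mem_filter, mem_shad]
      have hyQ : y ∉ Q := fun h => hyA (hQA h)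
      refine ⟨⟨?_, B, hB, ?_⟩, mem_insert_of_mem hvQ, ?_⟩
      · rw [card_insert_of_notMem hyQ, hQc]; omega
      · exact insert_subset hyB (hQR.trans hRB)
      · intro h; exact hyA (h (mem_insert_self _ _))
    · rw [insert_inter_of_notMem hyA, inter_eq_left.mpr hQA]
  exact (card_le_card hsub).trans card_image_le

theorem double_count (hAc : A.card = s) (hr : 2 ≤ r) (hrs : r ≤ s) :
    (badS r 𝒜 v A).card * (r - 1) ≤ (qS r 𝒜 v A).card * (s - r + 1) := by
  apply Finset.card_mul_le_card_mul (fun R Q => Q ⊆ R)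
  · intro R hR
    have hR' := hR
    simp only [badS, mem_filter, mem_powersetCard] at hR'
    obtain ⟨⟨hRA, hRc⟩, hvR, hcl⟩ := hR'
    have himg : (R.erase v).image (fun z => R.erase z) ⊆
        (qS r 𝒜 v A).bipartiteAbove (fun R Q => Q ⊆ R) R := by
      intro Q hQ
      rw [mem_image] at hQ
      obtain ⟨z, hz, rfl⟩ := hQ
      rw [mem_erase] at hz
      rw [mem_bipartiteAbove]
      refine ⟨?_, erase_subset _ _⟩
      simp only [qS, mem_filter, mem_powersetCard]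
      refine ⟨⟨(erase_subset _ _).trans hRA, ?_⟩, ?_, R, hR, erase_subset _ _⟩
      · rw [card_erase_of_mem hz.2, hRc]
      · exact mem_erase.mpr ⟨hz.1.symm, hvR⟩
    have hcard : ((R.erase v).image (fun z => R.erase z)).card = r - 1 := by
      rw [card_image_of_injOn, card_erase_of_mem hvR, hRc]
      intro z hz z' hz' h
      simp only [coe_erase, Set.mem_sdiff, mem_coe, Set.mem_singleton_iff] at hz hz'
      by_contra hne
      have : z ∈ R.erase z' := mem_erase.mpr ⟨hne, hz.1⟩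
      have h' : R.erase z = R.erase z' := h
      rw [← h'] at this
      exact absurd this (notMem_erase _ _)
    rw [← hcard]
    exact card_le_card himg
  · intro Q hQ
    simp only [qS, mem_filter, mem_powersetCard] at hQ
    obtain ⟨⟨hQA, hQc⟩, hvQ, -⟩ := hQ
    have himg : (badS r 𝒜 v A).bipartiteBelow (fun R Q => Q ⊆ R) Q ⊆
        (A \ Q).image (fun x => insert x Q) := by
      intro R hR
      rw [mem_bipartiteBelow] at hR
      obtain ⟨hR, hQR⟩ := hR
      simp only [badS, mem_filter, mem_powersetCard] at hR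
      obtain ⟨⟨hRA, hRc⟩, -, -⟩ := hR
      have h1 : (R \ Q).card = 1 := by
        rw [card_sdiff_of_subset hQR, hRc, hQc]; omega
      obtain ⟨x, hx⟩ := card_eq_one.mp h1
      rw [mem_image]
      refine ⟨x, ?_, ?_⟩
      · have : x ∈ R \ Q := by rw [hx]; exact mem_singleton_self x
        rw [mem_sdiff] at this ⊢
        exact ⟨hRA this.1, this.2⟩
      · rw [← sdiff_union_of_subset hQR, hx]
        ext y; simp
    refine (card_le_card himg).trans (card_image_le.trans ?_)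
    rw [card_sdiff_of_subset hQA, hAc, hQc]
    omega

/-- The local inequality: with `W` the number of outside sets. -/
theorem local_sum (h𝒜 : ∀ A ∈ 𝒜, A.card = s) (hA : A ∈ 𝒜) (hv : v ∈ A) (hr : 2 ≤ r)
    (hrs : r ≤ s) :
    s * (s-1).choose (r-1) + r * (outS r 𝒜 v A).card ≤
      (∑ R ∈ (shad r 𝒜).filter (fun R => v ∈ R), (clo 𝒜 R).card) +
        (s - r) * (badS r 𝒜 v A).card := by
  have hAc := h𝒜 A hA
  -- split the sum
  have hsplit : (shad r 𝒜).filter (fun R => v ∈ R) =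
      (powersetCard r A).filter (fun R => v ∈ R) ∪ outS r 𝒜 v A := by
    ext R
    simp only [outS, mem_filter, mem_union, mem_shad, mem_powersetCard]
    constructor
    · rintro ⟨⟨hc, B, hB, hRB⟩, hvR⟩
      by_cases h : R ⊆ A
      · left; exact ⟨⟨h, hc⟩, hvR⟩
      · right; exact ⟨⟨hc, B, hB, hRB⟩, hvR, h⟩
    · rintro (⟨⟨h, hc⟩, hvR⟩ | ⟨⟨hc, B, hB, hRB⟩, hvR, h⟩)
      · exact ⟨⟨hc, A, hA, h⟩, hvR⟩
      · exact ⟨⟨hc, B, hB, hRB⟩, hvR⟩
  have hdisj : Disjoint ((powersetCard r A).filter (fun R => v ∈ R)) (outS r 𝒜 v A) := by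
    rw [disjoint_left]
    intro R hR hR'
    simp only [outS, mem_filter, mem_powersetCard] at hR hR'
    exact hR'.2.2 hR.1.1
  rw [hsplit, sum_union hdisj]
  have hcardin : ((powersetCard r A).filter (fun R => v ∈ R)).card = (s-1).choose (r-1) := by
    have : (powersetCard r A).filter (fun R => v ∈ R) =
        (powersetCard (r-1) (A.erase v)).image (fun Q => insert v Q) := by
      ext R
      simp only [mem_filter, mem_powersetCard, mem_image]
      constructor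
      · rintro ⟨⟨h1, h2⟩, h3⟩
        refine ⟨R.erase v, ⟨erase_subset_erase _ h1, ?_⟩, insert_erase h3⟩
        rw [card_erase_of_mem h3, h2]
      · rintro ⟨Q, ⟨h1, h2⟩, rfl⟩
        have hvQ : v ∉ Q := fun h => absurd (h1 h) (notMem_erase _ _)
        refine ⟨⟨insert_subset hv (h1.trans (erase_subset _ _)), ?_⟩, mem_insert_self _ _⟩
        rw [card_insert_of_notMem hvQ, h2]; omega
    rw [this, card_image_of_injOn, card_powersetCard, card_erase_of_mem hv, hAc]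
    intro Q hQ Q' hQ' h
    rw [mem_coe, mem_powersetCard] at hQ hQ'
    have h1 : v ∉ Q := fun h => absurd (hQ.1 h) (notMem_erase _ _)
    have h2 : v ∉ Q' := fun h => absurd (hQ'.1 h) (notMem_erase _ _)
    have h' : insert v Q = insert v Q' := h
    rw [← erase_insert h1, ← erase_insert h2, h']
  have hin : s * (s-1).choose (r-1) ≤
      (∑ R ∈ (powersetCard r A).filter (fun R => v ∈ R), (clo 𝒜 R).card) +
        (s - r) * (badS r 𝒜 v A).card := by
    have hbad : badS r 𝒜 v A =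
        ((powersetCard r A).filter (fun R => v ∈ R)).filter (fun R => clo 𝒜 R ≠ A) := by
      ext R; simp only [badS, mem_filter, mem_powersetCard]; tauto
    rw [hbad, card_filter, mul_sum, ← sum_add_distrib, ← hcardin, mul_comm, ← smul_eq_mul,
      ← Finset.sum_const]
    apply sum_le_sum
    intro R hR
    simp only [mem_filter, mem_powersetCard] at hR
    by_cases h : clo 𝒜 R = A
    · rw [h, hAc]; simp
    · have h1 : r ≤ (clo 𝒜 R).card := by
        rw [← hR.1.2]; exact card_le_card subset_clo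
      simp only [ne_eq, h, not_false_eq_true, if_true, mul_one]
      omega
  have hout : r * (outS r 𝒜 v A).card ≤ ∑ R ∈ outS r 𝒜 v A, (clo 𝒜 R).card := by
    rw [mul_comm, ← smul_eq_mul, ← Finset.sum_const]
    apply sum_le_sum
    intro R hR
    simp only [outS, mem_filter, mem_shad] at hR
    rw [← hR.1.1]; exact card_le_card subset_clo
  linarith

/-- Local inequality, final form. -/
theorem local_ineq (h𝒜 : ∀ A ∈ 𝒜, A.card = s) (hA : A ∈ 𝒜) (hv : v ∈ A) (hr : 2 ≤ r)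
    (hrs : r ≤ s) (h2 : s + 1 ≤ 2 * r) :
    s * (s-1).choose (r-1) ≤
      ∑ R ∈ (shad r 𝒜).filter (fun R => v ∈ R), (clo 𝒜 R).card := by
  have h1 := local_sum h𝒜 hA hv hr hrs
  have h3 := qS_card_le (v := v) h𝒜 hA hr
  have h4 := double_count (𝒜 := 𝒜) (v := v) (h𝒜 A hA) hr hrs
  have h5 : (s - r) * (badS r 𝒜 v A).card ≤ r * (outS r 𝒜 v A).card := by
    set b := (badS r 𝒜 v A).card
    set q := (qS r 𝒜 v A).card
    set w := (outS r 𝒜 v A).card
    obtain ⟨e, he⟩ : ∃ e, s - r = e := ⟨_, rfl⟩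
    obtain ⟨ρ, rfl⟩ : ∃ ρ, r = ρ + 1 := ⟨r - 1, by omega⟩
    have heρ : e ≤ ρ := by omega
    rw [he] at h4 ⊢
    simp only [Nat.add_sub_cancel] at h4
    have h6 : b * ρ ≤ w * (e + 1) := h4.trans (Nat.mul_le_mul_right _ h3)
    -- e * b ≤ (ρ+1) * w
    rcases Nat.eq_zero_or_pos e with h0 | h0
    · simp [h0]
    have h7 : (b * e) * (e + 1) ≤ ((ρ + 1) * w) * (e + 1) := by
      calc (b * e) * (e + 1) ≤ (b * ρ) * (ρ + 1) := by
            apply Nat.mul_le_mul (Nat.mul_le_mul_left _ heρ) (by omega)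
        _ ≤ (w * (e + 1)) * (ρ + 1) := Nat.mul_le_mul_right _ h6
        _ = ((ρ + 1) * w) * (e + 1) := by ring
    have := Nat.le_of_mul_le_mul_right h7 (by omega)
    linarith [mul_comm b e]
  omega

/-- Strict form if `v` lies in two members. -/
theorem local_ineq_strict (h𝒜 : ∀ A ∈ 𝒜, A.card = s) (hA : A ∈ 𝒜) (hv : v ∈ A)
    {B : Finset V} (hB : B ∈ 𝒜) (hvB : v ∈ B) (hAB : A ≠ B) (hr : 2 ≤ r)
    (hrs : r ≤ s) (h2 : s + 1 < 2 * r) :
    s * (s-1).choose (r-1) <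
      ∑ R ∈ (shad r 𝒜).filter (fun R => v ∈ R), (clo 𝒜 R).card := by
  have h1 := local_sum h𝒜 hA hv hr hrs
  have h3 := qS_card_le (v := v) h𝒜 hA hr
  have h4 := double_count (𝒜 := 𝒜) (v := v) (h𝒜 A hA) hr hrs
  have hw : 0 < (outS r 𝒜 v A).card := by
    have hBA : ¬ B ⊆ A := by
      intro h
      exact hAB (Finset.eq_of_subset_of_card_le h (by rw [h𝒜 A hA, h𝒜 B hB])).symm
    obtain ⟨y, hyB, hyA⟩ := not_subset.mp hBA
    have hyv : v ≠ y := fun h => hyA (h ▸ hv)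
    have h5 : ({v, y} : Finset V) ⊆ B := by
      intro x hx
      simp only [mem_insert, mem_singleton] at hx
      rcases hx with rfl | rfl
      · exact hvB
      · exact hyB
    obtain ⟨R, hR1, hR2, hR3⟩ := exists_subsuperset_card_eq h5 (n := r)
      (by rw [card_pair hyv]; exact hr) (by rw [h𝒜 B hB]; exact hrs)
    rw [card_pos]
    refine ⟨R, ?_⟩
    simp only [outS, mem_filter, mem_shad]
    refine ⟨⟨hR3, B, hB, hR2⟩, hR1 (by simp), fun h => hyA (h (hR1 (by simp)))⟩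
  have h5 : (s - r) * (badS r 𝒜 v A).card < r * (outS r 𝒜 v A).card := by
    set b := (badS r 𝒜 v A).card
    set q := (qS r 𝒜 v A).card
    set w := (outS r 𝒜 v A).card
    obtain ⟨e, he⟩ : ∃ e, s - r = e := ⟨_, rfl⟩
    obtain ⟨ρ, rfl⟩ : ∃ ρ, r = ρ + 1 := ⟨r - 1, by omega⟩
    have heρ : e < ρ := by omega
    rw [he] at h4 ⊢
    simp only [Nat.add_sub_cancel] at h4
    have h6 : b * ρ ≤ w * (e + 1) := h4.trans (Nat.mul_le_mul_right _ h3)
    have h7 : (b * e) * (e + 1) < ((ρ + 1) * w) * (e + 1) := by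
      calc (b * e) * (e + 1) ≤ (b * ρ) * (e + 1) := by
            apply Nat.mul_le_mul_right; exact Nat.mul_le_mul_left _ heρ.le
        _ ≤ (w * (e + 1)) * (e + 1) := Nat.mul_le_mul_right _ h6
        _ < (w * (e + 1)) * (ρ + 1) := by
            apply Nat.mul_lt_mul_of_pos_left (by omega); positivity
        _ = ((ρ + 1) * w) * (e + 1) := by ring
    have := lt_of_mul_lt_mul_right h7 (Nat.zero_le _)
    linarith [mul_comm b e]
  omega

end Local

/-- The vertices lying in a member of the family. -/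
def supp (𝒜 : Finset (Finset V)) : Finset V := univ.filter fun v => ∃ A ∈ 𝒜, v ∈ A

theorem mem_supp {𝒜 : Finset (Finset V)} {v : V} : v ∈ supp 𝒜 ↔ ∃ A ∈ 𝒜, v ∈ A := by
  simp [supp]

/-- number of shadow sets killed by deleting `v` -/
def dst (r : ℕ) (𝒜 : Finset (Finset V)) (v : V) : ℕ :=
  ((shad r 𝒜).filter fun R => v ∈ clo 𝒜 R).card

theorem shad_del (r : ℕ) (𝒜 : Finset (Finset V)) (v : V) :
    (shad r 𝒜).card = dst r 𝒜 v + (shad r (𝒜.filter fun A => v ∉ A)).card := by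
  have : shad r (𝒜.filter fun A => v ∉ A) = (shad r 𝒜).filter fun R => ¬ v ∈ clo 𝒜 R := by
    ext R
    simp only [mem_shad, mem_filter, mem_clo, not_forall]
    constructor
    · rintro ⟨hc, A, ⟨hA, hvA⟩, hRA⟩
      exact ⟨⟨hc, A, hA, hRA⟩, A, hA, hRA, hvA⟩
    · rintro ⟨⟨hc, -⟩, A, hA, hRA, hvA⟩
      exact ⟨hc, A, ⟨hA, hvA⟩, hRA⟩
  rw [this, dst, card_filter_add_card_filter_not]

theorem sum_dst (r : ℕ) (𝒜 : Finset (Finset V)) :
    ∑ v ∈ supp 𝒜, dst r 𝒜 v = ∑ R ∈ shad r 𝒜, (clo 𝒜 R).card := by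
  have h1 : ∑ v ∈ supp 𝒜, dst r 𝒜 v = ∑ v, dst r 𝒜 v := by
    apply sum_subset (subset_univ _)
    intro v _ hv
    rw [dst, card_eq_zero, filter_eq_empty_iff]
    intro R hR hvR
    rw [mem_shad] at hR
    obtain ⟨-, A, hA, hRA⟩ := hR
    exact hv (mem_supp.mpr ⟨A, hA, clo_subset hA hRA hvR⟩)
  rw [h1]
  simp only [dst, card_filter]
  rw [sum_comm]
  apply sum_congr rfl
  intro R _
  rw [← card_filter]
  congr 1
  ext x; simp

theorem sum_link (r : ℕ) (𝒜 : Finset (Finset V)) :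
    ∑ v ∈ supp 𝒜, ∑ R ∈ (shad r 𝒜).filter (fun R => v ∈ R), (clo 𝒜 R).card =
      r * ∑ R ∈ shad r 𝒜, (clo 𝒜 R).card := by
  have h1 : ∑ v ∈ supp 𝒜, ∑ R ∈ (shad r 𝒜).filter (fun R => v ∈ R), (clo 𝒜 R).card =
      ∑ v, ∑ R ∈ (shad r 𝒜).filter (fun R => v ∈ R), (clo 𝒜 R).card := by
    apply sum_subset (subset_univ _)
    intro v _ hv
    apply sum_eq_zero
    intro R hR
    rw [mem_filter, mem_shad] at hR
    obtain ⟨⟨-, A, hA, hRA⟩, hvR⟩ := hR
    exact absurd (mem_supp.mpr ⟨A, hA, hRA hvR⟩) hv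
  rw [h1, mul_sum]
  simp only [sum_filter]
  rw [sum_comm]
  apply sum_congr rfl
  intro R hR
  rw [mem_shad] at hR
  rw [← sum_filter, sum_const, smul_eq_mul, ← hR.1]
  congr 2
  ext x; simp

theorem choose_id {r s : ℕ} (hr : 1 ≤ r) (hs : 1 ≤ s) :
    s * (s-1).choose (r-1) = r * s.choose r := by
  obtain ⟨ρ, rfl⟩ : ∃ ρ, r = ρ + 1 := ⟨r - 1, by omega⟩
  obtain ⟨N, rfl⟩ : ∃ N, s = N + 1 := ⟨s - 1, by omega⟩
  simp only [Nat.add_sub_cancel]
  rw [Nat.add_one_mul_choose_eq]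
  ring

theorem exists_dst {r s : ℕ} {𝒜 : Finset (Finset V)} (h𝒜 : ∀ A ∈ 𝒜, A.card = s)
    (hne : 𝒜.Nonempty) (hr : 2 ≤ r) (hrs : r ≤ s) (h2 : s + 1 ≤ 2 * r) :
    ∃ v, s.choose r ≤ dst r 𝒜 v := by
  by_contra hcon
  push Not at hcon
  have hsne : (supp 𝒜).Nonempty := by
    obtain ⟨A, hA⟩ := hne
    have : A.Nonempty := by rw [← card_pos, h𝒜 A hA]; omega
    obtain ⟨v, hv⟩ := this
    exact ⟨v, mem_supp.mpr ⟨A, hA, hv⟩⟩
  have h1 : ∑ v ∈ supp 𝒜, dst r 𝒜 v < ∑ v ∈ supp 𝒜, s.choose r :=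
    sum_lt_sum_of_nonempty hsne fun v _ => hcon v
  rw [sum_dst] at h1
  have h3 : ∑ v ∈ supp 𝒜, r * s.choose r ≤
      ∑ v ∈ supp 𝒜, ∑ R ∈ (shad r 𝒜).filter (fun R => v ∈ R), (clo 𝒜 R).card := by
    apply sum_le_sum
    intro v hv
    obtain ⟨A, hA, hvA⟩ := mem_supp.mp hv
    rw [← choose_id (by omega) (by omega)]
    exact local_ineq h𝒜 hA hvA hr hrs h2
  rw [sum_link, ← mul_sum] at h3
  have := Nat.le_of_mul_le_mul_left h3 (by omega)
  omega

theorem exists_dst_strict {r s : ℕ} {𝒜 : Finset (Finset V)} (h𝒜 : ∀ A ∈ 𝒜, A.card = s)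
    {A B : Finset V} (hA : A ∈ 𝒜) (hB : B ∈ 𝒜) (hAB : A ≠ B) {v : V} (hvA : v ∈ A) (hvB : v ∈ B)
    (hr : 2 ≤ r) (hrs : r ≤ s) (h2 : s + 1 < 2 * r) :
    ∃ v, s.choose r < dst r 𝒜 v := by
  by_contra hcon
  push Not at hcon
  have h1 : ∑ v ∈ supp 𝒜, dst r 𝒜 v ≤ ∑ v ∈ supp 𝒜, s.choose r :=
    sum_le_sum fun v _ => hcon v
  rw [sum_dst] at h1
  have h3 : ∑ v ∈ supp 𝒜, r * s.choose r <
      ∑ v ∈ supp 𝒜, ∑ R ∈ (shad r 𝒜).filter (fun R => v ∈ R), (clo 𝒜 R).card := by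
    apply sum_lt_sum
    · intro u hu
      obtain ⟨A, hA, huA⟩ := mem_supp.mp hu
      rw [← choose_id (by omega) (by omega)]
      exact local_ineq h𝒜 hA huA hr hrs h2.le
    · refine ⟨v, mem_supp.mpr ⟨A, hA, hvA⟩, ?_⟩
      rw [← choose_id (by omega) (by omega)]
      exact local_ineq_strict h𝒜 hA hvA hB hvB hAB hr hrs h2
  rw [sum_link, ← mul_sum] at h3
  have := Nat.lt_of_mul_lt_mul_left h3
  omega

/-- A family of `s`-sets with no transversal of size `< c` has an `r`-shadow of size at least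
`c * C(s,r)` if `2r ≥ s+1`. -/
theorem shad_ge {r s : ℕ} (hr : 2 ≤ r) (hrs : r ≤ s) (h2 : s + 1 ≤ 2 * r) (c : ℕ) :
    ∀ 𝒜 : Finset (Finset V), (∀ A ∈ 𝒜, A.card = s) →
      (∀ X : Finset V, X.card < c → ∃ A ∈ 𝒜, Disjoint A X) → c * s.choose r ≤ (shad r 𝒜).card := by
  induction c with
  | zero => intro 𝒜 _ _; simp
  | succ c ih =>
    intro 𝒜 h𝒜 hτ
    have hne : 𝒜.Nonempty := by
      obtain ⟨A, hA, -⟩ := hτ ∅ (by simp)
      exact ⟨A, hA⟩
    obtain ⟨v, hv⟩ := exists_dst h𝒜 hne hr hrs h2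
    have h1 := ih (𝒜.filter fun A => v ∉ A) (fun A hA => h𝒜 A (mem_filter.mp hA).1) (by
      intro X hX
      obtain ⟨A, hA, hAX⟩ := hτ (insert v X) ((card_insert_le _ _).trans_lt (by omega))
      rw [disjoint_insert_right] at hAX
      exact ⟨A, mem_filter.mpr ⟨hA, hAX.1⟩, hAX.2⟩)
    rw [shad_del r 𝒜 v, Nat.succ_mul]
    omega

/-- If the bound is attained and `2r > s+1` then distinct members are disjoint. -/
theorem disjoint_of_shad_le {r s : ℕ} (hr : 2 ≤ r) (hrs : r ≤ s) (h2 : s + 1 < 2 * r) (c : ℕ)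
    (𝒜 : Finset (Finset V)) (h𝒜 : ∀ A ∈ 𝒜, A.card = s)
    (hτ : ∀ X : Finset V, X.card < c → ∃ A ∈ 𝒜, Disjoint A X)
    (hle : (shad r 𝒜).card ≤ c * s.choose r) :
    ∀ A ∈ 𝒜, ∀ B ∈ 𝒜, A ≠ B → Disjoint A B := by
  intro A hA B hB hAB
  by_contra hnd
  rw [not_disjoint_iff] at hnd
  obtain ⟨v, hvA, hvB⟩ := hnd
  obtain ⟨u, hu⟩ := exists_dst_strict h𝒜 hA hB hAB hvA hvB hr hrs h2
  rcases Nat.eq_zero_or_pos c with h0 | h0
  · subst h0
    have h3 : dst r 𝒜 u ≤ (shad r 𝒜).card := card_filter_le _ _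
    omega
  obtain ⟨c, rfl⟩ : ∃ d, c = d + 1 := ⟨c - 1, by omega⟩
  have h1 := shad_ge hr hrs h2.le c (𝒜.filter fun A => u ∉ A)
    (fun A hA => h𝒜 A (mem_filter.mp hA).1) (by
      intro X hX
      obtain ⟨A, hA, hAX⟩ := hτ (insert u X) ((card_insert_le _ _).trans_lt (by omega))
      rw [disjoint_insert_right] at hAX
      exact ⟨A, mem_filter.mpr ⟨hA, hAX.1⟩, hAX.2⟩)
  rw [shad_del r 𝒜 u, Nat.succ_mul] at hle
  omega

/-- Pairwise disjoint members and no transversal of size `< c` force at least `c s` points. -/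
theorem card_ge_of_disjoint {s c : ℕ} (𝒜 : Finset (Finset V)) (h𝒜 : ∀ A ∈ 𝒜, A.card = s)
    (hs : 1 ≤ s)
    (hτ : ∀ X : Finset V, X.card < c → ∃ A ∈ 𝒜, Disjoint A X)
    (hd : ∀ A ∈ 𝒜, ∀ B ∈ 𝒜, A ≠ B → Disjoint A B) : c * s ≤ Fintype.card V := by
  have h1 : c ≤ 𝒜.card := by
    by_contra hlt
    push Not at hlt
    have hne : ∀ A ∈ 𝒜, A.Nonempty := fun A hA => by rw [← card_pos, h𝒜 A hA]; omega
    have : Nonempty V := by
      obtain ⟨A, hA, -⟩ := hτ ∅ (by rw [card_empty]; omega)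
      exact ⟨(hne A hA).choose⟩
    choose! g hg using hne
    obtain ⟨A, hA, hdis⟩ := hτ (𝒜.image g) (card_image_le.trans_lt hlt)
    exact (disjoint_left.mp hdis (hg A hA)) (mem_image_of_mem g hA)
  have h3 : (𝒜.biUnion id).card = 𝒜.card * s := by
    rw [card_biUnion (t := id) (fun A hA B hB hAB => hd A hA B hB hAB)]
    simp only [id]
    rw [sum_congr rfl (fun A hA => h𝒜 A hA)]
    simp
  calc c * s ≤ 𝒜.card * s := Nat.mul_le_mul_right _ h1
    _ = (𝒜.biUnion id).card := h3.symm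
    _ ≤ Fintype.card V := card_le_univ _

end Pool.Agent.Lib.MP_455133_co
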