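import Mathlib

/-!
The expected number of unblocked vertices in a random order, written as an average over subsets,
and the bound by the largest free set.
-/

namespace Pool.Agent.Lib.MP_455133_co

open Finset

variable {V : Type*} [DecidableEq V]

theorem sum_erase_powerset (A : Finset V) (F : Finset V → ℝ) :
    ∑ w ∈ A, ∑ J ∈ (A.erase w).powerset, F J =
      ∑ J ∈ A.powerset, ((A.card : ℝ) - J.card) * F J := by
  have : ∑ w ∈ A, ∑ J ∈ (A.erase w).powerset, F J = ∑ J ∈ A.powerset, ∑ w ∈ A \ J, F J := by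
    apply sum_comm'
    intro w J
    simp only [mem_powerset, mem_sdiff]
    constructor
    · rintro ⟨hw, hJ⟩
      exact ⟨⟨hw, fun h => absurd (hJ h) (notMem_erase _ _)⟩, hJ.trans (erase_subset _ _)⟩
    · rintro ⟨⟨hw, hwJ⟩, hJ⟩
      exact ⟨hw, fun x hx => mem_erase.mpr ⟨fun h => hwJ (h ▸ hx), hJ hx⟩⟩
  rw [this]
  apply sum_congr rfl
  intro J hJ
  rw [sum_const, nsmul_eq_mul, card_sdiff_of_subset (mem_powerset.mp hJ),
    Nat.cast_sub (card_le_card (mem_powerset.mp hJ))]

/-- Weighted sum of `G v J` over `v ∈ P`, `J ⊆ P \ {v}`: the expectation of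
`∑ v, G v (predecessors of v)` in a random order of `P`. -/
noncomputable def W (G : V → Finset V → ℝ) (P : Finset V) : ℝ :=
  ∑ v ∈ P, ∑ J ∈ (P.erase v).powerset, G v J / ((P.card : ℝ) * ((P.card - 1).choose J.card : ℝ))

theorem inner_rec (g : Finset V → ℝ) (A : Finset V) :
    ∑ J ∈ A.powerset, g J / (A.card.choose J.card : ℝ) =
      (∑ w ∈ A, ∑ J ∈ (A.erase w).powerset,
        g J / ((A.card : ℝ) * ((A.card - 1).choose J.card : ℝ))) + g A := by
  rw [sum_erase_powerset A (fun J => g J / ((A.card : ℝ) * ((A.card - 1).choose J.card : ℝ)))]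
  have hins : A.powerset = insert A A.ssubsets := by
    ext T
    simp only [mem_powerset, mem_insert, mem_ssubsets]
    constructor
    · intro h
      rcases eq_or_ssubset_of_subset h with h | h
      · left; exact h
      · right; exact h
    · rintro (h | h)
      · exact h.subset
      · exact h.subset
  have hnot : A ∉ A.ssubsets := by simp
  rw [hins, sum_insert hnot, sum_insert hnot, Nat.choose_self]
  simp only [Nat.cast_one, div_one, sub_self, zero_mul, zero_add]
  rw [add_comm]
  congr 1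
  apply sum_congr rfl
  intro J hJ
  rw [mem_ssubsets] at hJ
  have hlt := card_lt_card hJ
  obtain ⟨q, hq⟩ : ∃ q, A.card = q + 1 := ⟨A.card - 1, by omega⟩
  have hjq : J.card ≤ q := by omega
  rw [hq]
  simp only [Nat.add_sub_cancel]
  have h1 := Nat.choose_mul_succ_eq q J.card
  -- q.choose j * (q+1) = (q+1).choose j * (q+1-j)
  have h2 : (q.choose J.card : ℝ) * ((q : ℝ) + 1) =
      ((q + 1).choose J.card : ℝ) * ((q : ℝ) + 1 - J.card) := by
    have h3 : ((q.choose J.card * (q + 1) : ℕ) : ℝ) =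
        (((q + 1).choose J.card * (q + 1 - J.card) : ℕ) : ℝ) := by rw [h1]
    rw [Nat.cast_mul, Nat.cast_mul, Nat.cast_sub (by omega)] at h3
    push_cast at h3
    exact h3
  have p1 : (0 : ℝ) < (q.choose J.card : ℝ) := by exact_mod_cast Nat.choose_pos hjq
  have p2 : (0 : ℝ) < ((q + 1).choose J.card : ℝ) := by exact_mod_cast Nat.choose_pos (by omega)
  push_cast
  rw [div_eq_iff p2.ne']
  have p3 : (0 : ℝ) < (q : ℝ) + 1 := by positivity
  field_simp
  linear_combination (g J) * h2

theorem W_rec (G : V → Finset V → ℝ) (P : Finset V) :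
    (P.card : ℝ) * W G P = ∑ w ∈ P, W G (P.erase w) + ∑ v ∈ P, G v (P.erase v) := by
  rcases P.eq_empty_or_nonempty with h | hne
  · subst h; simp [W]
  have hp : (0 : ℝ) < P.card := by exact_mod_cast card_pos.mpr hne
  have h1 : (P.card : ℝ) * W G P =
      ∑ v ∈ P, ∑ J ∈ (P.erase v).powerset, G v J / ((P.card - 1).choose J.card : ℝ) := by
    rw [W, mul_sum]
    apply sum_congr rfl
    intro v _
    rw [mul_sum]
    apply sum_congr rfl
    intro J _
    field_simp
  have h2 : ∑ w ∈ P, W G (P.erase w) = ∑ v ∈ P, ∑ w ∈ P.erase v,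
      ∑ J ∈ ((P.erase v).erase w).powerset,
        G v J / (((P.card - 1 : ℕ) : ℝ) * ((P.card - 1 - 1).choose J.card : ℝ)) := by
    have h3 : ∀ w ∈ P, W G (P.erase w) = ∑ v ∈ P.erase w,
        ∑ J ∈ ((P.erase v).erase w).powerset,
          G v J / (((P.card - 1 : ℕ) : ℝ) * ((P.card - 1 - 1).choose J.card : ℝ)) := by
      intro w hw
      rw [W, card_erase_of_mem hw]
      apply sum_congr rfl
      intro v _
      rw [erase_right_comm]
    rw [sum_congr rfl h3]
    apply sum_comm'
    intro w v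
    simp only [mem_erase]
    constructor
    · rintro ⟨hw, hne', hv⟩; exact ⟨⟨hne'.symm, hw⟩, hv⟩
    · rintro ⟨⟨hne', hw⟩, hv⟩; exact ⟨hw, hne'.symm, hv⟩
  rw [h1, h2, ← sum_add_distrib]
  apply sum_congr rfl
  intro v hv
  have h4 := inner_rec (fun J => G v J) (P.erase v)
  rw [card_erase_of_mem hv] at h4
  exact h4

/-- `v` is blocked by `J`: some member of the family through `v` lies in `J ∪ {v}`. -/
def Blocked (𝒜 : Finset (Finset V)) (v : V) (J : Finset V) : Prop :=
  ∃ A ∈ 𝒜, v ∈ A ∧ A ⊆ insert v J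

instance (𝒜 : Finset (Finset V)) (v : V) (J : Finset V) : Decidable (Blocked 𝒜 v J) := by
  unfold Blocked; infer_instance

/-- indicator of being unblocked -/
def unb (𝒜 : Finset (Finset V)) (v : V) (J : Finset V) : ℝ := if Blocked 𝒜 v J then 0 else 1

theorem exists_free (𝒜 : Finset (Finset V)) (h0 : ∅ ∉ 𝒜) :
    ∀ (k : ℕ) (P : Finset V), P.card = k →
      ∃ U ⊆ P, (∀ A ∈ 𝒜, ¬ A ⊆ U) ∧ W (unb 𝒜) P ≤ (U.card : ℝ) := by
  intro k
  induction k with
  | zero =>
    intro P hP
    rw [card_eq_zero] at hP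
    subst hP
    refine ⟨∅, Subset.rfl, ?_, by simp [W]⟩
    intro A hA h
    rw [subset_empty] at h
    exact h0 (h ▸ hA)
  | succ k ih =>
    intro P hP
    have hne : P.Nonempty := by rw [← card_pos]; omega
    have hp : (0 : ℝ) < P.card := by exact_mod_cast card_pos.mpr hne
    have hrec := W_rec (unb 𝒜) P
    rw [← sum_add_distrib] at hrec
    have hex : ∃ w ∈ P, W (unb 𝒜) P ≤ W (unb 𝒜) (P.erase w) + unb 𝒜 w (P.erase w) := by
      apply exists_le_of_sum_le hne
      rw [sum_const, nsmul_eq_mul, hrec]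
    obtain ⟨w, hw, hwle⟩ := hex
    obtain ⟨U, hU, hfree, hUc⟩ := ih (P.erase w) (by rw [card_erase_of_mem hw, hP]; rfl)
    by_cases hb : Blocked 𝒜 w (P.erase w)
    · refine ⟨U, hU.trans (erase_subset _ _), hfree, ?_⟩
      have : unb 𝒜 w (P.erase w) = 0 := by simp [unb, hb]
      linarith
    · have hw1 : unb 𝒜 w (P.erase w) = 1 := by simp [unb, hb]
      have hwU : w ∉ U := fun h => absurd (hU h) (notMem_erase _ _)
      refine ⟨insert w U, insert_subset hw (hU.trans (erase_subset _ _)), ?_, ?_⟩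
      · intro A hA hAU
        by_cases hwA : w ∈ A
        · exact hb ⟨A, hA, hwA, hAU.trans (insert_subset_insert _ hU)⟩
        · apply hfree A hA
          intro x hx
          rcases mem_insert.mp (hAU hx) with h | h
          · exact absurd (h ▸ hx) hwA
          · exact h
      · rw [card_insert_of_notMem hwU]
        push_cast
        linarith

end Pool.Agent.Lib.MP_455133_co
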