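import Mathlib
import Pool.Agent.Lib.MP_455133_co.Order
import Pool.Agent.Lib.MP_455133_co.Exact

/-!
First moment bound for the probability of being blocked, with the Kruskal-Katona theorem.
-/

namespace Pool.Agent.Lib.MP_455133_co

open Finset

/-! ### binomial inequalities -/

/-- `C(k,I) M^I ≤ C(N,I) (k-I+1)^I` for `N ≤ k`, `M = N-I+1`. -/
theorem choose_ratio_le {N k I : ℕ} (hI : I ≤ N) (hk : N ≤ k) :
    k.choose I * (N - I + 1) ^ I ≤ N.choose I * (k - I + 1) ^ I := by
  have h1 : k.descFactorial I * (N - I + 1) ^ I ≤ N.descFactorial I * (k - I + 1) ^ I := by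
    rw [Nat.descFactorial_eq_prod_range, Nat.descFactorial_eq_prod_range]
    have epow : ∀ x : ℕ, x ^ I = ∏ _i ∈ range I, x := by intro x; simp
    rw [epow, epow, ← prod_mul_distrib, ← prod_mul_distrib]
    apply Finset.prod_le_prod'
    intro l hl
    rw [mem_range] at hl
    obtain ⟨e, he⟩ : ∃ e, I = l + 1 + e := ⟨I - l - 1, by omega⟩
    obtain ⟨a, ha⟩ : ∃ a, N = l + 1 + e + a := ⟨N - l - 1 - e, by omega⟩
    obtain ⟨b, hb⟩ : ∃ b, k = N + b := ⟨k - N, by omega⟩
    subst he
    subst hb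
    subst ha
    have e1 : l + 1 + e + a + b - l = 1 + e + a + b := by omega
    have e2 : l + 1 + e + a - (l + 1 + e) + 1 = a + 1 := by omega
    have e3 : l + 1 + e + a - l = 1 + e + a := by omega
    have e4 : l + 1 + e + a + b - (l + 1 + e) + 1 = a + b + 1 := by omega
    rw [e1, e2, e3, e4]
    nlinarith
  rw [Nat.descFactorial_eq_factorial_mul_choose, Nat.descFactorial_eq_factorial_mul_choose,
    mul_assoc, mul_assoc] at h1
  exact Nat.le_of_mul_le_mul_left h1 (Nat.factorial_pos I)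

/-- `C(m,I) b^I ≤ C(b,I) m^I` for `m ≤ b`. -/
theorem choose_ratio_le' {m b I : ℕ} (hm : m ≤ b) :
    m.choose I * b ^ I ≤ b.choose I * m ^ I := by
  have h1 : m.descFactorial I * b ^ I ≤ b.descFactorial I * m ^ I := by
    rw [Nat.descFactorial_eq_prod_range, Nat.descFactorial_eq_prod_range]
    have epow : ∀ x : ℕ, x ^ I = ∏ _i ∈ range I, x := by intro x; simp
    rw [epow, epow, ← prod_mul_distrib, ← prod_mul_distrib]
    apply Finset.prod_le_prod'
    intro l hl
    rcases Nat.le_total m l with h | h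
    · rw [Nat.sub_eq_zero_of_le h]; simp
    · obtain ⟨a, rfl⟩ := Nat.exists_eq_add_of_le h
      obtain ⟨c, rfl⟩ := Nat.exists_eq_add_of_le hm
      have e1 : l + a - l = a := by omega
      have e2 : l + a + c - l = a + c := by omega
      rw [e1, e2]
      nlinarith
  rw [Nat.descFactorial_eq_factorial_mul_choose, Nat.descFactorial_eq_factorial_mul_choose,
    mul_assoc, mul_assoc] at h1
  exact Nat.le_of_mul_le_mul_left h1 (Nat.factorial_pos I)

theorem choose_prod_le {N k I m b : ℕ} (hI : I ≤ N) (hk : N ≤ k) (hm : m ≤ b) (hb : 1 ≤ b)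
    (h : m * (k - I + 1) ≤ b * (N - I + 1)) :
    k.choose I * m.choose I ≤ b.choose I * N.choose I := by
  have h1 := choose_ratio_le hI hk
  have h2 := choose_ratio_le' (I := I) hm
  have h3 : (k.choose I * m.choose I) * ((N - I + 1) ^ I * b ^ I) ≤
      (b.choose I * N.choose I) * ((N - I + 1) ^ I * b ^ I) := by
    calc (k.choose I * m.choose I) * ((N - I + 1) ^ I * b ^ I) =
        (k.choose I * (N - I + 1) ^ I) * (m.choose I * b ^ I) := by ring
      _ ≤ (N.choose I * (k - I + 1) ^ I) * (b.choose I * m ^ I) := Nat.mul_le_mul h1 h2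
      _ = (b.choose I * N.choose I) * (m * (k - I + 1)) ^ I := by rw [mul_pow]; ring
      _ ≤ (b.choose I * N.choose I) * (b * (N - I + 1)) ^ I :=
          Nat.mul_le_mul_left _ (Nat.pow_le_pow_left h I)
      _ = _ := by rw [mul_pow]; ring
  exact Nat.le_of_mul_le_mul_right h3 (by positivity)

section Link

variable {V : Type*} [Fintype V] [DecidableEq V]

/-- `i`-sets in the link of `v`. -/
def linkS (𝒜 : Finset (Finset V)) (v : V) (i : ℕ) : Finset (Finset V) :=
  (powersetCard i univ).filter fun R => ∃ A ∈ 𝒜, v ∈ A ∧ R ⊆ A.erase v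

theorem mem_linkS {𝒜 : Finset (Finset V)} {v : V} {i : ℕ} {R : Finset V} :
    R ∈ linkS 𝒜 v i ↔ R.card = i ∧ ∃ A ∈ 𝒜, v ∈ A ∧ R ⊆ A.erase v := by
  simp [linkS, mem_powersetCard]

/-- blocked sets of size `j` -/
def blk (𝒜 : Finset (Finset V)) (v : V) (j : ℕ) : Finset (Finset V) :=
  (powersetCard j (univ.erase v)).filter fun J => Blocked 𝒜 v J

theorem blk_count {N : ℕ} {𝒜 : Finset (Finset V)} (h𝒜 : ∀ A ∈ 𝒜, A.card = N + 1) (v : V)
    (I j : ℕ) :
    (blk 𝒜 v j).card * N.choose I ≤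
      (linkS 𝒜 v I).card * (Fintype.card V - 1 - I).choose (j - I) := by
  apply Finset.card_mul_le_card_mul (fun J R => R ⊆ J)
  · intro J hJ
    simp only [blk, mem_filter, mem_powersetCard] at hJ
    obtain ⟨⟨hJv, hJc⟩, A, hA, hvA, hAJ⟩ := hJ
    have hsub : powersetCard I (A.erase v) ⊆
        (linkS 𝒜 v I).bipartiteAbove (fun J R => R ⊆ J) J := by
      intro R hR
      rw [mem_powersetCard] at hR
      rw [mem_bipartiteAbove, mem_linkS]
      refine ⟨⟨hR.2, A, hA, hvA, hR.1⟩, hR.1.trans ?_⟩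
      intro x hx
      rw [mem_erase] at hx
      rcases mem_insert.mp (hAJ hx.2) with h | h
      · exact absurd h hx.1
      · exact h
    have := card_le_card hsub
    rwa [card_powersetCard, card_erase_of_mem hvA, h𝒜 A hA, Nat.add_sub_cancel] at this
  · intro R hR
    rw [mem_linkS] at hR
    obtain ⟨hRc, A, hA, hvA, hRA⟩ := hR
    have hvR : v ∉ R := fun h => absurd (hRA h) (notMem_erase _ _)
    have hinj : Set.InjOn (fun J : Finset V => J \ R)
        ((blk 𝒜 v j).bipartiteBelow (fun J R => R ⊆ J) R : Finset (Finset V)) := by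
      intro J hJ J' hJ' h
      rw [mem_coe, mem_bipartiteBelow] at hJ hJ'
      simp only at h
      rw [← sdiff_union_of_subset hJ.2, ← sdiff_union_of_subset hJ'.2, h]
    have himg : ((blk 𝒜 v j).bipartiteBelow (fun J R => R ⊆ J) R).image (fun J => J \ R) ⊆
        powersetCard (j - I) ((univ.erase v) \ R) := by
      intro T hT
      rw [mem_image] at hT
      obtain ⟨J, hJ, rfl⟩ := hT
      rw [mem_bipartiteBelow] at hJ
      obtain ⟨hJ, hRJ⟩ := hJ
      simp only [blk, mem_filter, mem_powersetCard] at hJ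
      rw [mem_powersetCard]
      refine ⟨sdiff_subset_sdiff hJ.1.1 Subset.rfl, ?_⟩
      rw [card_sdiff_of_subset hRJ, hJ.1.2, hRc]
    have h1 := card_le_card himg
    rw [card_image_of_injOn hinj, card_powersetCard, card_sdiff_of_subset, hRc,
      card_erase_of_mem (mem_univ v), card_univ] at h1
    · exact h1
    · intro x hx
      exact mem_erase.mpr ⟨fun h => hvR (h ▸ hx), mem_univ x⟩

theorem blk_empty {N : ℕ} {𝒜 : Finset (Finset V)} (h𝒜 : ∀ A ∈ 𝒜, A.card = N + 1) (v : V)
    {j : ℕ} (hj : j < N) : blk 𝒜 v j = ∅ := by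
  rw [blk, filter_eq_empty_iff]
  intro J hJ hb
  rw [mem_powersetCard] at hJ
  obtain ⟨A, hA, hvA, hAJ⟩ := hb
  have h1 : A.erase v ⊆ J := by
    intro x hx
    rw [mem_erase] at hx
    rcases mem_insert.mp (hAJ hx.2) with h | h
    · exact absurd h hx.1
    · exact h
  have := card_le_card h1
  rw [card_erase_of_mem hvA, h𝒜 A hA, Nat.add_sub_cancel] at this
  omega

/-- proportion of blocked sets of size `j` -/
theorem blk_ratio {N : ℕ} {𝒜 : Finset (Finset V)} (h𝒜 : ∀ A ∈ 𝒜, A.card = N + 1) (v : V)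
    {I j : ℕ} (hI : I ≤ N) (hj : j ≤ Fintype.card V - 1) (hIn : I ≤ Fintype.card V - 1) :
    ((blk 𝒜 v j).card : ℝ) / ((Fintype.card V - 1).choose j : ℝ) ≤
      ((linkS 𝒜 v I).card : ℝ) /
        (((Fintype.card V - 1).choose I : ℝ) * (N.choose I : ℝ)) * (j.choose I : ℝ) := by
  set b := Fintype.card V - 1 with hb
  have p1 : (0 : ℝ) < (b.choose j : ℝ) := by exact_mod_cast Nat.choose_pos hj
  have p2 : (0 : ℝ) < (b.choose I : ℝ) := by exact_mod_cast Nat.choose_pos hIn
  have p3 : (0 : ℝ) < (N.choose I : ℝ) := by exact_mod_cast Nat.choose_pos hI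
  rcases Nat.lt_or_ge j I with h | h
  · rw [blk_empty h𝒜 v (lt_of_lt_of_le h hI)]
    simp only [card_empty, Nat.cast_zero, zero_div]
    positivity
  · have h1 := blk_count h𝒜 v I j
    rw [← hb] at h1
    have h2 := Nat.choose_mul (n := b) (k := j) (s := I) h
    have h1' : ((blk 𝒜 v j).card : ℝ) * (N.choose I : ℝ) ≤
        ((linkS 𝒜 v I).card : ℝ) * ((b - I).choose (j - I) : ℝ) := by exact_mod_cast h1
    have h2' : (b.choose j : ℝ) * (j.choose I : ℝ) =
        (b.choose I : ℝ) * ((b - I).choose (j - I) : ℝ) := by exact_mod_cast h2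
    rw [div_le_iff₀ p1]
    have h3 : ((linkS 𝒜 v I).card : ℝ) / ((b.choose I : ℝ) * (N.choose I : ℝ)) *
        (j.choose I : ℝ) * (b.choose j : ℝ) =
        ((linkS 𝒜 v I).card : ℝ) * ((b - I).choose (j - I) : ℝ) / (N.choose I : ℝ) := by
      have : (j.choose I : ℝ) * (b.choose j : ℝ) =
        (b.choose I : ℝ) * ((b - I).choose (j - I) : ℝ) := by rw [mul_comm]; exact h2'
      rw [mul_assoc, this]
      field_simp
    rw [h3, le_div_iff₀ p3]
    exact h1'

/-- probability of being unblocked -/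
noncomputable def prU (𝒜 : Finset (Finset V)) (v : V) : ℝ :=
  ∑ J ∈ (univ.erase v).powerset,
    unb 𝒜 v J / ((Fintype.card V : ℝ) * ((Fintype.card V - 1).choose J.card : ℝ))

theorem W_univ (𝒜 : Finset (Finset V)) : W (unb 𝒜) univ = ∑ v, prU 𝒜 v := by
  simp only [W, prU, card_univ]

omit [Fintype V] in
theorem unb_nonneg (𝒜 : Finset (Finset V)) (v : V) (J : Finset V) : 0 ≤ unb 𝒜 v J := by
  rw [unb]; split_ifs <;> norm_num

/-- grouping by size -/
theorem prU_eq (𝒜 : Finset (Finset V)) (v : V) :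
    prU 𝒜 v = ∑ j ∈ range (Fintype.card V - 1 + 1),
      (1 - ((blk 𝒜 v j).card : ℝ) / ((Fintype.card V - 1).choose j : ℝ)) /
        (Fintype.card V : ℝ) := by
  have hc : (univ.erase v).card = Fintype.card V - 1 := by
    rw [card_erase_of_mem (mem_univ v), card_univ]
  rw [prU, Finset.sum_powerset, hc]
  apply sum_congr rfl
  intro j hj
  rw [mem_range] at hj
  have p1 : (0 : ℝ) < ((Fintype.card V - 1).choose j : ℝ) := by
    exact_mod_cast Nat.choose_pos (by omega)
  have hn : (0 : ℝ) < (Fintype.card V : ℝ) := by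
    exact_mod_cast Fintype.card_pos_iff.mpr ⟨v⟩
  have h1 : ∀ J ∈ powersetCard j (univ.erase v),
      unb 𝒜 v J / ((Fintype.card V : ℝ) * ((Fintype.card V - 1).choose J.card : ℝ)) =
      (1 - if Blocked 𝒜 v J then 1 else 0) /
        ((Fintype.card V : ℝ) * ((Fintype.card V - 1).choose j : ℝ)) := by
    intro J hJ
    rw [(mem_powersetCard.mp hJ).2, unb]
    split_ifs <;> simp
  rw [sum_congr rfl h1, ← sum_div, sum_sub_distrib]
  have h2 : ∑ J ∈ powersetCard j (univ.erase v), (if Blocked 𝒜 v J then (1 : ℝ) else 0) =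
      ((blk 𝒜 v j).card : ℝ) := by
    rw [blk, card_filter]; push_cast; rfl
  rw [h2, sum_const, card_powersetCard, hc, nsmul_eq_mul, mul_one]
  field_simp

theorem blk_le (𝒜 : Finset (Finset V)) (v : V) {j : ℕ} (hj : j ≤ Fintype.card V - 1) :
    ((blk 𝒜 v j).card : ℝ) / ((Fintype.card V - 1).choose j : ℝ) ≤ 1 := by
  have p1 : (0 : ℝ) < ((Fintype.card V - 1).choose j : ℝ) := by
    exact_mod_cast Nat.choose_pos hj
  rw [div_le_one p1]
  have h1 : (blk 𝒜 v j).card ≤ (powersetCard j (univ.erase v)).card := card_filter_le _ _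
  rw [card_powersetCard, card_erase_of_mem (mem_univ v), card_univ] at h1
  exact_mod_cast h1

/-- The first moment bound. -/
theorem prU_ge {N : ℕ} {𝒜 : Finset (Finset V)} (h𝒜 : ∀ A ∈ 𝒜, A.card = N + 1) (v : V)
    {I k : ℕ} (hI : I ≤ N) (hNk : N < k) (hNn : N ≤ Fintype.card V - 1)
    (hkk : (linkS 𝒜 v I).card ≤ k.choose I) :
    ((I : ℝ) / (I + 1)) * (((Fintype.card V : ℝ) - 1) / (Fintype.card V : ℝ)) *
      (((N : ℝ) - I + 1) / ((k : ℝ) - I + 1)) ≤ prU 𝒜 v := by
  set n := Fintype.card V with hn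
  have hnpos : 0 < n := by rw [hn]; exact Fintype.card_pos_iff.mpr ⟨v⟩
  set b := n - 1 with hb
  rcases Nat.eq_zero_or_pos b with hb0 | hbpos
  · -- n = 1
    have hn1 : n = 1 := by omega
    have : ((n : ℝ) - 1) = 0 := by rw [hn1]; simp
    rw [this, zero_div, mul_zero, zero_mul, prU_eq]
    apply sum_nonneg
    intro j hj
    rw [mem_range] at hj
    apply div_nonneg _ (by positivity)
    have := blk_le 𝒜 v (j := j) (by omega)
    linarith
  -- threshold
  have hden : 0 < k - I + 1 := by omega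
  set m := b * (N - I + 1) / (k - I + 1) with hm
  have hm1 : m * (k - I + 1) ≤ b * (N - I + 1) := Nat.div_mul_le_self _ _
  have hm2 : b * (N - I + 1) < (m + 1) * (k - I + 1) := by
    exact (Nat.div_lt_iff_lt_mul hden).mp (Nat.lt_succ_self m)
  have hmb : m ≤ b := by
    by_contra hlt
    push Not at hlt
    have h1 : b * (N - I + 1) < m * (k - I + 1) := by
      apply Nat.mul_lt_mul_of_lt_of_le hlt (by omega) (by omega)
    omega
  have hprod := choose_prod_le hI hNk.le hmb hbpos hm1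
  have hIn : I ≤ b := by omega
  have p2 : (0 : ℝ) < (b.choose I : ℝ) := by exact_mod_cast Nat.choose_pos hIn
  have p3 : (0 : ℝ) < (N.choose I : ℝ) := by exact_mod_cast Nat.choose_pos hI
  have hnR : (0 : ℝ) < n := by exact_mod_cast hnpos
  set q : ℝ := ((linkS 𝒜 v I).card : ℝ) / ((b.choose I : ℝ) * (N.choose I : ℝ)) with hq
  have hq0 : 0 ≤ q := by positivity
  -- restrict to j ≤ m
  have h1 : ∑ j ∈ range (m + 1), (1 - q * (j.choose I : ℝ)) / (n : ℝ) ≤ prU 𝒜 v := by
    rw [prU_eq, ← hn, ← hb]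
    have hsub : range (m + 1) ⊆ range (b + 1) := by
      intro j hj; rw [mem_range] at hj ⊢; omega
    refine le_trans (sum_le_sum ?_) (sum_le_sum_of_subset_of_nonneg hsub ?_)
    · intro j hj
      rw [mem_range] at hj
      apply div_le_div_of_nonneg_right _ hnR.le
      have := blk_ratio h𝒜 v hI (j := j) (by omega) (by omega)
      rw [← hn, ← hb] at this
      linarith
    · intro j hj _
      rw [mem_range] at hj
      apply div_nonneg _ hnR.le
      have := blk_le 𝒜 v (j := j) (by omega)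
      rw [← hn, ← hb] at this
      linarith
  have h2 : ∑ j ∈ range (m + 1), (1 - q * (j.choose I : ℝ)) / (n : ℝ) =
      ((m : ℝ) + 1 - q * ((m + 1).choose (I + 1) : ℝ)) / n := by
    rw [← sum_div, sum_sub_distrib, ← mul_sum]
    have h3 : ∑ j ∈ range (m + 1), (j.choose I : ℝ) = ((m + 1).choose (I + 1) : ℝ) := by
      have : ∑ j ∈ range (m + 1), j.choose I = (m + 1).choose (I + 1) := by
        clear h1 hprod hmb hm2 hm1
        induction m with
        | zero =>
          rcases Nat.eq_zero_or_pos I with h | h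
          · subst h; simp
          · simp [Nat.choose_eq_zero_of_lt h, Nat.choose_eq_zero_of_lt (by omega : 1 < I + 1)]
        | succ m ih => rw [sum_range_succ, ih, Nat.choose_succ_succ' (m+1) I, add_comm]
      exact_mod_cast this
    rw [h3]; simp
  rw [h2] at h1
  -- q C(m+1,I+1) ≤ (m+1)/(I+1)
  have h4 : q * ((m + 1).choose (I + 1) : ℝ) ≤ ((m : ℝ) + 1) / (I + 1) := by
    have h5 := Nat.add_one_mul_choose_eq m I
    have h5' : ((m : ℝ) + 1) * (m.choose I : ℝ) = ((m + 1).choose (I + 1) : ℝ) * ((I : ℝ) + 1) := by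
      exact_mod_cast h5
    have h6 : ((m + 1).choose (I + 1) : ℝ) = ((m : ℝ) + 1) / (I + 1) * (m.choose I : ℝ) := by
      field_simp; linarith
    have h7 : q * (m.choose I : ℝ) ≤ 1 := by
      rw [hq, div_mul_eq_mul_div, div_le_one (by positivity)]
      calc ((linkS 𝒜 v I).card : ℝ) * (m.choose I : ℝ) ≤ (k.choose I : ℝ) * (m.choose I : ℝ) := by
            apply mul_le_mul_of_nonneg_right _ (by positivity)
            exact_mod_cast hkk
        _ ≤ _ := by exact_mod_cast hprod
    rw [h6]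
    calc q * (((m : ℝ) + 1) / (I + 1) * (m.choose I : ℝ)) =
        ((m : ℝ) + 1) / (I + 1) * (q * (m.choose I : ℝ)) := by ring
      _ ≤ ((m : ℝ) + 1) / (I + 1) * 1 := mul_le_mul_of_nonneg_left h7 (by positivity)
      _ = _ := mul_one _
  have h8 : ((m : ℝ) + 1) * ((I : ℝ) / (I + 1)) / n ≤ prU 𝒜 v := by
    refine le_trans ?_ h1
    apply div_le_div_of_nonneg_right _ hnR.le
    have : ((m : ℝ) + 1) * ((I : ℝ) / (I + 1)) = (m : ℝ) + 1 - ((m : ℝ) + 1) / (I + 1) := by
      field_simp; ring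
    linarith
  refine le_trans ?_ h8
  have hkI : (0 : ℝ) < (k : ℝ) - I + 1 := by
    have : (I : ℝ) ≤ k := by exact_mod_cast (by omega : I ≤ k)
    linarith
  have h9 : ((n : ℝ) - 1) * ((N : ℝ) - I + 1) / ((k : ℝ) - I + 1) ≤ (m : ℝ) + 1 := by
    rw [div_le_iff₀ hkI]
    have h10 : ((b * (N - I + 1) : ℕ) : ℝ) < (((m + 1) * (k - I + 1) : ℕ) : ℝ) := by
      exact_mod_cast hm2
    rw [Nat.cast_mul, Nat.cast_mul, Nat.cast_add, Nat.cast_sub hI, Nat.cast_add (k - I),
      Nat.cast_sub (by omega : I ≤ k), hb, Nat.cast_sub (by omega : 1 ≤ n)] at h10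
    push_cast at h10
    linarith
  calc ((I : ℝ) / (I + 1)) * (((n : ℝ) - 1) / (n : ℝ)) * (((N : ℝ) - I + 1) / ((k : ℝ) - I + 1))
      = (((n : ℝ) - 1) * ((N : ℝ) - I + 1) / ((k : ℝ) - I + 1)) * ((I : ℝ) / (I + 1)) / n := by
        field_simp
    _ ≤ _ := by
        apply div_le_div_of_nonneg_right _ hnR.le
        apply mul_le_mul_of_nonneg_right h9 (by positivity)

end Link

end Pool.Agent.Lib.MP_455133_co
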