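import Mathlib
import Pool.Agent.Lib.MP_455133_co.Blocks
import Pool.Agent.Lib.MP_455133_co.Moment

/-!
Upper bounds by balanced blocks, in a form that matches the lower bounds.
-/

namespace Pool.Agent.Lib.MP_455133_co

open Finset

/-- `C(k,ρ) ≤ C(N,ρ) (1 + x/(N-ρ+1))^ρ` if `k ≤ N + x`. -/
theorem choose_le_pow {N ρ k : ℕ} (hρN : ρ ≤ N) {x : ℝ} (hx : 0 ≤ x) (hk : (k : ℝ) ≤ N + x) :
    (k.choose ρ : ℝ) ≤ (N.choose ρ : ℝ) * (1 + x / ((N : ℝ) - ρ + 1)) ^ ρ := by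
  have hQ : (0 : ℝ) < (N : ℝ) - ρ + 1 := by
    have : (ρ : ℝ) ≤ N := by exact_mod_cast hρN
    linarith
  rcases Nat.lt_or_ge k N with h | h
  · have h1 : (k.choose ρ : ℝ) ≤ (N.choose ρ : ℝ) := by
      exact_mod_cast Nat.choose_le_choose ρ h.le
    have h2 : (1 : ℝ) ≤ (1 + x / ((N : ℝ) - ρ + 1)) ^ ρ := by
      apply one_le_pow₀
      have : 0 ≤ x / ((N : ℝ) - ρ + 1) := by positivity
      linarith
    have h3 : (0 : ℝ) ≤ (N.choose ρ : ℝ) := by positivity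
    nlinarith
  · have h1 := choose_ratio_le (I := ρ) hρN h
    have h2 : (k.choose ρ : ℝ) * ((N : ℝ) - ρ + 1) ^ ρ ≤
        (N.choose ρ : ℝ) * ((k : ℝ) - ρ + 1) ^ ρ := by
      have h3 : (((k.choose ρ * (N - ρ + 1) ^ ρ : ℕ)) : ℝ) ≤
        ((N.choose ρ * (k - ρ + 1) ^ ρ : ℕ) : ℝ) := by exact_mod_cast h1
      push_cast [Nat.cast_sub hρN, Nat.cast_sub (hρN.trans h)] at h3
      exact h3
    have h3 : ((k : ℝ) - ρ + 1) ^ ρ ≤ (((N : ℝ) - ρ + 1) * (1 + x / ((N : ℝ) - ρ + 1))) ^ ρ := by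
      apply pow_le_pow_left₀
      · have : (ρ : ℝ) ≤ k := by exact_mod_cast hρN.trans h
        linarith
      · have : ((N : ℝ) - ρ + 1) * (1 + x / ((N : ℝ) - ρ + 1)) = (N : ℝ) - ρ + 1 + x := by
          field_simp
        rw [this]; linarith
    rw [mul_pow] at h3
    have h4 : (k.choose ρ : ℝ) * ((N : ℝ) - ρ + 1) ^ ρ ≤
        ((N.choose ρ : ℝ) * (1 + x / ((N : ℝ) - ρ + 1)) ^ ρ) * ((N : ℝ) - ρ + 1) ^ ρ := by
      refine h2.trans ?_
      calc (N.choose ρ : ℝ) * ((k : ℝ) - ρ + 1) ^ ρ ≤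
          (N.choose ρ : ℝ) * (((N : ℝ) - ρ + 1) ^ ρ * (1 + x / ((N : ℝ) - ρ + 1)) ^ ρ) :=
            mul_le_mul_of_nonneg_left h3 (by positivity)
        _ = _ := by ring
    exact le_of_mul_le_mul_right h4 (by positivity)

theorem succ_mul_choose {ρ m : ℕ} (hm : 1 ≤ m) :
    ((ρ : ℝ) + 1) * (m.choose (ρ + 1) : ℝ) = m * ((m - 1).choose ρ : ℝ) := by
  obtain ⟨m, rfl⟩ : ∃ m', m = m' + 1 := ⟨m - 1, by omega⟩
  have h := Nat.add_one_mul_choose_eq m ρ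
  rw [Nat.add_sub_cancel]
  have h2 : ((m : ℝ) + 1) * (m.choose ρ : ℝ) = ((m + 1).choose (ρ + 1) : ℝ) * ((ρ : ℝ) + 1) := by
    exact_mod_cast h
  push_cast
  linarith

/-- the parts `c_i` of `c` -/
def part (l c : ℕ) (i : Fin l) : ℕ := c / l + if (i : ℕ) < c % l then 1 else 0

theorem sum_part (l c : ℕ) (hl : 1 ≤ l) : ∑ i, part l c i = c := by
  simp only [part, sum_add_distrib, sum_const, card_univ, Fintype.card_fin, smul_eq_mul]
  have h1 : ∑ i : Fin l, (if (i : ℕ) < c % l then 1 else 0) = c % l := by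
    rw [Fin.sum_univ_eq_sum_range (fun i => if i < c % l then 1 else 0) l]
    rw [← card_filter]
    have : (range l).filter (fun i => i < c % l) = range (c % l) := by
      ext i
      simp only [mem_filter, mem_range]
      have := Nat.mod_lt c (by omega : 0 < l)
      omega
    rw [this, card_range]
  rw [h1]
  exact Nat.div_add_mod c l

theorem part_le (l c : ℕ) (i : Fin l) : (part l c i : ℝ) ≤ c / l + 1 := by
  have h1 : ((c / l : ℕ) : ℝ) ≤ (c : ℝ) / l := Nat.cast_div_le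
  rw [part]
  push_cast
  split_ifs <;> simp <;> linarith

theorem exp_ratio {N ρ : ℕ} (hρ : 1 ≤ ρ) (hρN : ρ ≤ N) {l c m : ℝ} (hl : 0 < l) (hc : 0 ≤ c)
    (hm : m = l * N + c) :
    (1 + c / l / ((N : ℝ) - ρ + 1)) ^ ρ ≤
      (m / (l * N)) ^ ρ * Real.exp (ρ * (ρ - 1) * c / (((N : ℝ) - ρ + 1) * m)) := by
  have hρR : (1 : ℝ) ≤ ρ := by exact_mod_cast hρ
  have hρNR : (ρ : ℝ) ≤ N := by exact_mod_cast hρN
  obtain ⟨Q, hQ⟩ : ∃ Q : ℝ, Q = (N : ℝ) - ρ + 1 := ⟨_, rfl⟩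
  rw [← hQ]
  have hQ0 : 0 < Q := by rw [hQ]; linarith
  have hN0 : (0 : ℝ) < N := by linarith
  have hm0 : 0 < m := by rw [hm]; positivity
  have h1 : 1 + c / l / Q = (m / (l * N)) * (1 + (ρ - 1) * c / (Q * m)) := by
    have e : (ρ : ℝ) = N - Q + 1 := by rw [hQ]; ring
    rw [e]
    field_simp
    rw [hm]; ring
  rw [h1, mul_pow]
  apply mul_le_mul_of_nonneg_left _ (by positivity)
  have h2 : 1 + (ρ - 1) * c / (Q * m) ≤ Real.exp ((ρ - 1) * c / (Q * m)) := by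
    have := Real.add_one_le_exp ((ρ - 1) * c / (Q * m))
    linarith
  have h3 : 0 ≤ (ρ - 1) * c / (Q * m) := by
    apply div_nonneg (mul_nonneg (by linarith) hc) (by positivity)
  calc (1 + (ρ - 1) * c / (Q * m)) ^ ρ ≤ (Real.exp ((ρ - 1) * c / (Q * m))) ^ ρ :=
        pow_le_pow_left₀ (by linarith) h2 _
    _ = _ := by rw [← Real.exp_nat_mul]; congr 1; ring

/-- Balanced blocks. -/
theorem f_le_balanced {n N ρ t l : ℕ} (hρ : 1 ≤ ρ) (hρN : ρ ≤ N) (hl : 1 ≤ l) (hlN : l * N < t)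
    (htn : t < n) {c m : ℝ} (hc : c = (n : ℝ) - t + 1) (hm : m = l * N + c) :
    ((ρ : ℝ) + 1) * (f n (ρ + 1) (N + 1) t : ℝ) ≤
      (N.choose ρ : ℝ) * (m * (m / (l * N)) ^ ρ) *
        Real.exp (ρ * (ρ - 1) * c / (((N : ℝ) - ρ + 1) * m)) := by
  have hlR : (1 : ℝ) ≤ l := by exact_mod_cast hl
  have hN0 : (0 : ℝ) < N := by exact_mod_cast (by omega : 0 < N)
  have htnR : (t : ℝ) < n := by exact_mod_cast htn
  have hc0 : 0 < c := by rw [hc]; linarith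
  have hm0 : 0 < m := by rw [hm]; positivity
  have hcn : ((n - t + 1 : ℕ) : ℝ) = c := by
    rw [hc, Nat.cast_add, Nat.cast_sub htn.le]; simp
  have hsum : ∑ i : Fin l, (N + part l (n - t + 1) i) = l * N + (n - t + 1) := by
    rw [sum_add_distrib, sum_part _ _ hl]; simp
  have h1 := f_le_blocks (n := n) (r := ρ + 1) (s := N + 1) (t := t) (l := l)
    (fun i => N + part l (n - t + 1) i) (by rw [hsum]; omega)
    (by rw [hsum, Nat.add_sub_cancel]; omega) (by omega)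
  have h2 : (f n (ρ + 1) (N + 1) t : ℝ) ≤
      ∑ i : Fin l, ((N + part l (n - t + 1) i).choose (ρ + 1) : ℝ) := by exact_mod_cast h1
  have h3 : ∀ i ∈ (univ : Finset (Fin l)),
      ((ρ : ℝ) + 1) * ((N + part l (n - t + 1) i).choose (ρ + 1) : ℝ) ≤
      ((N : ℝ) + part l (n - t + 1) i) *
        ((N.choose ρ : ℝ) * (1 + c / l / ((N : ℝ) - ρ + 1)) ^ ρ) := by
    intro i _
    rw [succ_mul_choose (by omega)]
    push_cast
    apply mul_le_mul_of_nonneg_left _ (by positivity)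
    apply choose_le_pow hρN (by positivity)
    have := part_le l (n - t + 1) i
    rw [hcn] at this
    have h4 : ((N + part l (n - t + 1) i - 1 : ℕ) : ℝ) = (N : ℝ) + part l (n - t + 1) i - 1 := by
      rw [Nat.cast_sub (by omega)]; push_cast; ring
    rw [h4]; linarith
  have h4 : ((ρ : ℝ) + 1) * (f n (ρ + 1) (N + 1) t : ℝ) ≤
      m * ((N.choose ρ : ℝ) * (1 + c / l / ((N : ℝ) - ρ + 1)) ^ ρ) := by
    calc ((ρ : ℝ) + 1) * (f n (ρ + 1) (N + 1) t : ℝ) ≤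
        ((ρ : ℝ) + 1) * ∑ i : Fin l, ((N + part l (n - t + 1) i).choose (ρ + 1) : ℝ) :=
          mul_le_mul_of_nonneg_left h2 (by positivity)
      _ = ∑ i : Fin l, ((ρ : ℝ) + 1) * ((N + part l (n - t + 1) i).choose (ρ + 1) : ℝ) := by
          rw [mul_sum]
      _ ≤ ∑ i : Fin l, ((N : ℝ) + part l (n - t + 1) i) *
          ((N.choose ρ : ℝ) * (1 + c / l / ((N : ℝ) - ρ + 1)) ^ ρ) := sum_le_sum h3
      _ = _ := by
          rw [← sum_mul]
          congr 1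
          rw [hm, ← hcn]
          exact_mod_cast hsum
  refine h4.trans ?_
  have h5 := exp_ratio hρ hρN (by linarith : (0 : ℝ) < l) hc0.le hm
  calc m * ((N.choose ρ : ℝ) * (1 + c / l / ((N : ℝ) - ρ + 1)) ^ ρ) =
      (m * (N.choose ρ : ℝ)) * (1 + c / l / ((N : ℝ) - ρ + 1)) ^ ρ := by ring
    _ ≤ (m * (N.choose ρ : ℝ)) * ((m / (l * N)) ^ ρ *
        Real.exp (ρ * (ρ - 1) * c / (((N : ℝ) - ρ + 1) * m))) :=
        mul_le_mul_of_nonneg_left h5 (by positivity)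
    _ = _ := by ring

/-- One block. -/
theorem f_le_one {n N ρ t : ℕ} (hNt : N < t) (htn : t < n) :
    f n (ρ + 1) (N + 1) t ≤ (n - t + (N + 1)).choose (ρ + 1) := by
  have h1 := f_le_blocks (n := n) (r := ρ + 1) (s := N + 1) (t := t) (l := 1)
    (fun _ => n - t + (N + 1)) (by simp; omega) (by simp; omega) (by omega)
  simpa using h1

theorem choose_C_le {n N ρ t : ℕ} (hρ : 1 ≤ ρ) (hρN : ρ ≤ N) (htn : t < n) {c : ℝ}
    (hc : c = (n : ℝ) - t + 1) :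
    ((ρ : ℝ) + 1) * ((n - t + (N + 1)).choose (ρ + 1) : ℝ) ≤
      (N.choose ρ : ℝ) * ((c + N) * ((c + N) / N) ^ ρ) *
        Real.exp (ρ * (ρ - 1) * c / (((N : ℝ) - ρ + 1) * (c + N))) := by
  have hN0 : (0 : ℝ) < N := by exact_mod_cast (by omega : 0 < N)
  have htnR : (t : ℝ) < n := by exact_mod_cast htn
  have hc0 : 0 < c := by rw [hc]; linarith
  rw [succ_mul_choose (by omega)]
  have e1 : ((n - t + (N + 1) : ℕ) : ℝ) = c + N := by
    rw [hc, Nat.cast_add, Nat.cast_sub htn.le]; push_cast; ring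
  have e2 : n - t + (N + 1) - 1 = n - t + N := by omega
  rw [e1, e2]
  have h1 : ((n - t + N).choose ρ : ℝ) ≤
      (N.choose ρ : ℝ) * (1 + c / 1 / ((N : ℝ) - ρ + 1)) ^ ρ := by
    rw [div_one]
    apply choose_le_pow hρN hc0.le
    rw [hc, Nat.cast_add, Nat.cast_sub htn.le]; linarith
  have h5 := exp_ratio (m := 1 * (N : ℝ) + c) hρ hρN (by norm_num : (0 : ℝ) < 1) hc0.le rfl
  have e3 : 1 * (N : ℝ) + c = c + N := by ring
  rw [e3, one_mul] at h5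
  calc (c + N) * ((n - t + N).choose ρ : ℝ) ≤
      (c + N) * ((N.choose ρ : ℝ) * (1 + c / 1 / ((N : ℝ) - ρ + 1)) ^ ρ) :=
        mul_le_mul_of_nonneg_left h1 (by positivity)
    _ = ((c + N) * (N.choose ρ : ℝ)) * (1 + c / 1 / ((N : ℝ) - ρ + 1)) ^ ρ := by ring
    _ ≤ ((c + N) * (N.choose ρ : ℝ)) * (((c + N) / N) ^ ρ *
        Real.exp (ρ * (ρ - 1) * c / (((N : ℝ) - ρ + 1) * (c + N)))) :=
        mul_le_mul_of_nonneg_left h5 (by positivity)
    _ = _ := by ring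

/-- The block construction of the problem against the main term. -/
theorem block_le {N ρ k q : ℕ} (hρ : 1 ≤ ρ) (hρN : ρ ≤ N) (hq : N + 1 ≤ q) :
    ((ρ : ℝ) + 1) * (k * (q.choose (ρ + 1) : ℝ)) ≤
      (N.choose ρ : ℝ) * ((k * q) * ((q : ℝ) / ((N : ℝ) + 1)) ^ ρ) *
        Real.exp (ρ ^ 2 * ((q : ℝ) - (N + 1)) / (q * ((N : ℝ) + 1 - ρ))) := by
  have hρR : (1 : ℝ) ≤ ρ := by exact_mod_cast hρ
  have hρNR : (ρ : ℝ) ≤ N := by exact_mod_cast hρN
  have hqR : (N : ℝ) + 1 ≤ q := by exact_mod_cast hq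
  have hQ0 : (0 : ℝ) < (N : ℝ) - ρ + 1 := by linarith
  have hq0 : (0 : ℝ) < q := by linarith
  have h1 : (((q - 1).choose ρ : ℕ) : ℝ) ≤
      (N.choose ρ : ℝ) * (1 + ((q : ℝ) - (N + 1)) / ((N : ℝ) - ρ + 1)) ^ ρ := by
    apply choose_le_pow hρN (by linarith)
    rw [Nat.cast_sub (by omega)]; push_cast; linarith
  have h2 : 1 + ((q : ℝ) - (N + 1)) / ((N : ℝ) - ρ + 1) =
      ((q : ℝ) / ((N : ℝ) + 1)) *
        (1 + ρ * ((q : ℝ) - (N + 1)) / (q * ((N : ℝ) + 1 - ρ))) := by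
    have : (N : ℝ) + 1 - ρ = (N : ℝ) - ρ + 1 := by ring
    rw [this]
    field_simp
    ring
  have hx0 : 0 ≤ ρ * ((q : ℝ) - (N + 1)) / (q * ((N : ℝ) + 1 - ρ)) := by
    apply div_nonneg (mul_nonneg (by linarith) (by linarith)) (mul_nonneg hq0.le (by linarith))
  have h3 : (1 + ρ * ((q : ℝ) - (N + 1)) / (q * ((N : ℝ) + 1 - ρ))) ^ ρ ≤
      Real.exp (ρ ^ 2 * ((q : ℝ) - (N + 1)) / (q * ((N : ℝ) + 1 - ρ))) := by
    have h4 := Real.add_one_le_exp (ρ * ((q : ℝ) - (N + 1)) / (q * ((N : ℝ) + 1 - ρ)))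
    calc _ ≤ (Real.exp (ρ * ((q : ℝ) - (N + 1)) / (q * ((N : ℝ) + 1 - ρ)))) ^ ρ :=
          pow_le_pow_left₀ (by linarith) (by linarith) _
      _ = _ := by rw [← Real.exp_nat_mul]; congr 1; ring
  have h5 : (((q - 1).choose ρ : ℕ) : ℝ) ≤ (N.choose ρ : ℝ) * (((q : ℝ) / ((N : ℝ) + 1)) ^ ρ *
      Real.exp (ρ ^ 2 * ((q : ℝ) - (N + 1)) / (q * ((N : ℝ) + 1 - ρ)))) := by
    refine h1.trans ?_
    apply mul_le_mul_of_nonneg_left _ (by positivity)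
    rw [h2, mul_pow]
    exact mul_le_mul_of_nonneg_left h3 (by positivity)
  have h6 : ((ρ : ℝ) + 1) * (k * (q.choose (ρ + 1) : ℝ)) =
      k * (q * ((q - 1).choose ρ : ℝ)) := by
    rw [← succ_mul_choose (ρ := ρ) (by omega : 1 ≤ q)]; ring
  rw [h6]
  calc (k : ℝ) * (q * ((q - 1).choose ρ : ℝ)) ≤
      k * (q * ((N.choose ρ : ℝ) * (((q : ℝ) / ((N : ℝ) + 1)) ^ ρ *
      Real.exp (ρ ^ 2 * ((q : ℝ) - (N + 1)) / (q * ((N : ℝ) + 1 - ρ)))))) := by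
        apply mul_le_mul_of_nonneg_left _ (by positivity)
        exact mul_le_mul_of_nonneg_left h5 hq0.le
    _ = _ := by ring

end Pool.Agent.Lib.MP_455133_co
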