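import Mathlib

/-!
Formal power series over the reals with the coefficientwise order, and the solution
`E T` of the formal differential equation `G' = G * T`, `G(0) = 1`.
-/

namespace Pool.Agent.Lib.MP_455133_co

open PowerSeries Finset

noncomputable section

/-- Coefficientwise order on real power series. -/
def CLE (P Q : ℝ⟦X⟧) : Prop := ∀ n, coeff n P ≤ coeff n Q

theorem CLE.refl (P : ℝ⟦X⟧) : CLE P P := fun _ => le_rfl

theorem CLE.trans {P Q R : ℝ⟦X⟧} (h : CLE P Q) (h' : CLE Q R) : CLE P R :=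
  fun n => (h n).trans (h' n)

theorem CLE.add {P Q R S : ℝ⟦X⟧} (h : CLE P Q) (h' : CLE R S) : CLE (P + R) (Q + S) := by
  intro n
  simp only [map_add]
  exact add_le_add (h n) (h' n)

theorem CLE.sum {ι : Type*} {s : Finset ι} {f g : ι → ℝ⟦X⟧} (h : ∀ i ∈ s, CLE (f i) (g i)) :
    CLE (∑ i ∈ s, f i) (∑ i ∈ s, g i) := by
  intro n
  simp only [map_sum]
  exact Finset.sum_le_sum fun i hi => h i hi n

theorem CLE.coeff_nonneg {P : ℝ⟦X⟧} (h : CLE 0 P) (n : ℕ) : 0 ≤ coeff n P := by
  simpa using h n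

theorem CLE.mul {P P' Q Q' : ℝ⟦X⟧} (hP : CLE 0 P) (hPP : CLE P P') (hQ : CLE 0 Q)
    (hQQ : CLE Q Q') : CLE (P * Q) (P' * Q') := by
  intro n
  rw [coeff_mul, coeff_mul]
  apply Finset.sum_le_sum
  intro ij _
  apply mul_le_mul (hPP _) (hQQ _) (hQ.coeff_nonneg _)
  exact (hP.coeff_nonneg _).trans (hPP _)

theorem CLE.mul_nonneg {P Q : ℝ⟦X⟧} (hP : CLE 0 P) (hQ : CLE 0 Q) : CLE 0 (P * Q) := by
  intro n
  rw [coeff_mul]
  simp only [map_zero]
  exact Finset.sum_nonneg fun ij _ => _root_.mul_nonneg (hP.coeff_nonneg _) (hQ.coeff_nonneg _)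

theorem CLE.prod_nonneg {ι : Type*} {s : Finset ι} {f : ι → ℝ⟦X⟧} (h : ∀ i ∈ s, CLE 0 (f i)) :
    CLE 0 (∏ i ∈ s, f i) := by
  classical
  induction s using Finset.induction_on with
  | empty =>
    intro n
    simp only [Finset.prod_empty, map_zero]
    rw [coeff_one]
    split_ifs <;> norm_num
  | insert a s ha ih =>
    rw [Finset.prod_insert ha]
    exact CLE.mul_nonneg (h _ (Finset.mem_insert_self _ _))
      (ih fun i hi => h i (Finset.mem_insert_of_mem hi))

theorem CLE.of_deriv {P Q : ℝ⟦X⟧} (h0 : constantCoeff P ≤ constantCoeff Q)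
    (h : CLE (d⁄dX ℝ P) (d⁄dX ℝ Q)) : CLE P Q := by
  intro n
  cases n with
  | zero => simpa using h0
  | succ n =>
    have := h n
    rw [coeff_derivative, coeff_derivative] at this
    have hpos : (0 : ℝ) < (n : ℝ) + 1 := by positivity
    exact le_of_mul_le_mul_right this hpos

/-- The coefficients of the solution of `G' = G * T`, `G(0) = 1`. -/
def Ecoef (T : ℝ⟦X⟧) : ℕ → ℝ
  | 0 => 1
  | (n+1) => (∑ i : Fin (n+1), Ecoef T i * coeff (n - i) T) / (n+1)
decreasing_by exact i.2

/-- The solution of `G' = G * T`, `G(0) = 1`. -/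
def E (T : ℝ⟦X⟧) : ℝ⟦X⟧ := PowerSeries.mk (Ecoef T)

theorem coeff_E_succ (T : ℝ⟦X⟧) (n : ℕ) :
    coeff (n+1) (E T) * ((n : ℝ) + 1) =
      ∑ ij ∈ HasAntidiagonal.antidiagonal n, coeff ij.1 (E T) * coeff ij.2 T := by
  have hpos : ((n : ℝ) + 1) ≠ 0 := by positivity
  simp only [E, coeff_mk]
  rw [Ecoef, div_mul_cancel₀ _ hpos, Finset.Nat.sum_antidiagonal_eq_sum_range_succ
    (fun i j => Ecoef T i * coeff j T) n, Finset.sum_range]

theorem E_deriv (T : ℝ⟦X⟧) : d⁄dX ℝ (E T) = E T * T := by
  ext n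
  rw [coeff_derivative, coeff_E_succ, coeff_mul]

@[simp] theorem E_const (T : ℝ⟦X⟧) : constantCoeff (E T) = 1 := by
  rw [← coeff_zero_eq_constantCoeff_apply]
  simp [E, Ecoef]

theorem E_unique (T G : ℝ⟦X⟧) (h0 : constantCoeff G = 1) (h : d⁄dX ℝ G = G * T) : G = E T := by
  ext n
  induction n using Nat.strong_induction_on with
  | _ n ih =>
    cases n with
    | zero => simp [h0]
    | succ n =>
      have h1 : coeff (n+1) G * ((n : ℝ) + 1) =
          ∑ ij ∈ HasAntidiagonal.antidiagonal n, coeff ij.1 G * coeff ij.2 T := by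
        rw [← coeff_derivative, h, coeff_mul]
      have h2 := coeff_E_succ T n
      have h3 : ∑ ij ∈ HasAntidiagonal.antidiagonal n, coeff ij.1 G * coeff ij.2 T =
          ∑ ij ∈ HasAntidiagonal.antidiagonal n, coeff ij.1 (E T) * coeff ij.2 T := by
        apply Finset.sum_congr rfl
        intro ij hij
        rw [HasAntidiagonal.mem_antidiagonal] at hij
        rw [ih ij.1 (by omega)]
      rw [h3, ← h2] at h1
      have hpos : ((n : ℝ) + 1) ≠ 0 := by positivity
      exact mul_right_cancel₀ hpos h1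

@[simp] theorem E_zero : E 0 = 1 := by
  symm
  apply E_unique
  · simp
  · simp

theorem E_add (S T : ℝ⟦X⟧) : E (S + T) = E S * E T := by
  symm
  apply E_unique
  · simp
  · rw [Derivation.leibniz, E_deriv, E_deriv]
    simp only [smul_eq_mul]
    ring

theorem E_sum {ι : Type*} (s : Finset ι) (T : ι → ℝ⟦X⟧) :
    E (∑ i ∈ s, T i) = ∏ i ∈ s, E (T i) := by
  classical
  induction s using Finset.induction_on with
  | empty => simp
  | insert a s ha ih => rw [Finset.sum_insert ha, Finset.prod_insert ha, E_add, ih]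

theorem E_nonneg {T : ℝ⟦X⟧} (hT : CLE 0 T) : CLE 0 (E T) := by
  intro n
  simp only [map_zero]
  induction n using Nat.strong_induction_on with
  | _ n ih =>
    cases n with
    | zero => simp
    | succ n =>
      have h2 := coeff_E_succ T n
      have hpos : (0 : ℝ) < (n : ℝ) + 1 := by positivity
      have h3 : (0 : ℝ) ≤ coeff (n+1) (E T) * ((n : ℝ) + 1) := by
        rw [h2]
        apply Finset.sum_nonneg
        intro ij hij
        rw [HasAntidiagonal.mem_antidiagonal] at hij
        exact _root_.mul_nonneg (ih _ (by omega)) (hT.coeff_nonneg _)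
      exact nonneg_of_mul_nonneg_left h3 hpos

theorem E_mono {S T : ℝ⟦X⟧} (hS : CLE 0 S) (hST : CLE S T) : CLE (E S) (E T) := by
  intro n
  have hT : CLE 0 T := hS.trans hST
  induction n using Nat.strong_induction_on with
  | _ n ih =>
    cases n with
    | zero => simp
    | succ n =>
      have hpos : (0 : ℝ) < (n : ℝ) + 1 := by positivity
      apply le_of_mul_le_mul_right _ hpos
      rw [coeff_E_succ, coeff_E_succ]
      apply Finset.sum_le_sum
      intro ij hij
      rw [HasAntidiagonal.mem_antidiagonal] at hij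
      apply mul_le_mul (ih _ (by omega)) (hST _) (hS.coeff_nonneg _)
      exact (E_nonneg hT).coeff_nonneg _

/-- `E` of the logarithmic derivative of the geometric series. -/
theorem E_geom (M : ℝ) : E (PowerSeries.mk fun k => M ^ (k+1)) = PowerSeries.mk fun k => M ^ k := by
  symm
  apply E_unique
  · rw [← coeff_zero_eq_constantCoeff_apply]; simp
  · ext n
    rw [coeff_derivative, coeff_mul]
    simp only [coeff_mk]
    have : ∀ ij ∈ HasAntidiagonal.antidiagonal n, M ^ ij.1 * M ^ (ij.2 + 1) = M ^ (n+1) := by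
      intro ij hij
      rw [HasAntidiagonal.mem_antidiagonal] at hij
      rw [← pow_add]
      congr 1
      omega
    rw [Finset.sum_congr rfl this]
    simp
    ring

end

end Pool.Agent.Lib.MP_455133_co
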