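import Mathlib
import Pool.Agent.Lib.MP_455133_co.ESeries

/-!
Counting tuples of `ρ`-subsets whose union is a face of a simplicial complex, and the
coefficientwise inequality behind the shadow bound.
-/

namespace Pool.Agent.Lib.MP_455133_co

open Finset

variable {V : Type*} [Fintype V] [DecidableEq V]

/-- A family closed under taking subsets. -/
def Lower (L : Finset (Finset V)) : Prop := ∀ S ∈ L, ∀ S' ⊆ S, S' ∈ L

/-- Deletion of the vertex `y`. -/
def del (L : Finset (Finset V)) (y : V) : Finset (Finset V) := L.filter (fun S => y ∉ S)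

omit [Fintype V] in
theorem Lower.del {L : Finset (Finset V)} (hL : Lower L) (y : V) : Lower (del L y) := by
  intro S hS S' hS'
  simp only [MP_455133_co.del, mem_filter] at hS ⊢
  exact ⟨hL S hS.1 S' hS', fun h => hS.2 (hS' h)⟩

/-- Number of `k`-tuples of `ρ`-sets whose union together with `W` is in `L`. -/
def tau (ρ : ℕ) (L : Finset (Finset V)) : ℕ → Finset V → ℕ
  | 0, W => if W ∈ L then 1 else 0
  | (k+1), W => ∑ R ∈ powersetCard ρ univ, tau ρ L k (W ∪ R)

theorem tau_eq_zero {ρ : ℕ} {L : Finset (Finset V)} (hL : Lower L) (k : ℕ) {W : Finset V}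
    (hW : W ∉ L) : tau ρ L k W = 0 := by
  induction k generalizing W with
  | zero => simp [tau, hW]
  | succ k ih =>
    simp only [tau]
    apply Finset.sum_eq_zero
    intro R _
    apply ih
    intro h
    exact hW (hL _ h _ subset_union_left)

theorem tau_anti {ρ : ℕ} {L : Finset (Finset V)} (hL : Lower L) (k : ℕ) {W W' : Finset V}
    (h : W ⊆ W') : tau ρ L k W' ≤ tau ρ L k W := by
  induction k generalizing W W' with
  | zero =>
    simp only [tau]
    split_ifs with h1 h2
    · exact le_rfl
    · exact absurd (hL _ h1 _ h) h2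
    · exact Nat.zero_le _
    · exact le_rfl
  | succ k ih =>
    simp only [tau]
    apply Finset.sum_le_sum
    intro R _
    exact ih (union_subset_union_left h)

theorem tau_add_le {ρ : ℕ} {L : Finset (Finset V)} (hL : Lower L) (a b : ℕ) (W : Finset V) :
    tau ρ L (a + b) W ≤ tau ρ L a W * tau ρ L b ∅ := by
  induction a generalizing W with
  | zero =>
    by_cases hW : W ∈ L
    · simpa [tau, hW] using tau_anti hL b (empty_subset W)
    · rw [zero_add, tau_eq_zero hL b hW]
      exact Nat.zero_le _
  | succ a ih =>
    rw [show a + 1 + b = (a + b) + 1 by ring]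
    simp only [tau]
    rw [Finset.sum_mul]
    apply Finset.sum_le_sum
    intro R _
    exact ih _

theorem tau_zero_empty_le {ρ : ℕ} {L : Finset (Finset V)} : tau ρ L 0 ∅ ≤ 1 := by
  simp only [tau]; split_ifs <;> simp

/-- tuples starting with a set containing `y` -/
def gy (ρ : ℕ) (L : Finset (Finset V)) (y : V) (m : ℕ) : ℕ :=
  ∑ R ∈ (powersetCard ρ univ).filter (fun R => y ∈ R), tau ρ L m R

theorem tau_split {ρ : ℕ} {L : Finset (Finset V)} (hL : Lower L) (y : V) (k : ℕ) (W : Finset V)
    (hy : y ∉ W) :
    tau ρ L k W ≤ tau ρ (del L y) k W +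
      ∑ i ∈ range k, tau ρ (del L y) i W * gy ρ L y (k - 1 - i) := by
  induction k generalizing W with
  | zero => simp [tau, del, hy]
  | succ k ih =>
    have hsplit : tau ρ L (k+1) W =
        (∑ R ∈ (powersetCard ρ univ).filter (fun R => y ∈ R), tau ρ L k (W ∪ R)) +
        ∑ R ∈ (powersetCard ρ univ).filter (fun R => ¬ y ∈ R), tau ρ L k (W ∪ R) := by
      simp only [tau]
      rw [Finset.sum_filter_add_sum_filter_not]
    have h1 : (∑ R ∈ (powersetCard ρ univ).filter (fun R => y ∈ R), tau ρ L k (W ∪ R)) ≤
        tau ρ (del L y) 0 W * gy ρ L y k := by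
      by_cases hW : W ∈ L
      · have : tau ρ (del L y) 0 W = 1 := by simp [tau, del, hW, hy]
        rw [this, one_mul]
        apply Finset.sum_le_sum
        intro R _
        exact tau_anti hL k subset_union_right
      · have : (∑ R ∈ (powersetCard ρ univ).filter (fun R => y ∈ R), tau ρ L k (W ∪ R)) = 0 := by
          apply Finset.sum_eq_zero
          intro R _
          apply tau_eq_zero hL
          intro h
          exact hW (hL _ h _ subset_union_left)
        rw [this]
        exact Nat.zero_le _
    have hvanish : ∀ i, ∑ R ∈ (powersetCard ρ univ).filter (fun R => ¬ y ∈ R),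
        tau ρ (del L y) i (W ∪ R) = tau ρ (del L y) (i+1) W := by
      intro i
      simp only [tau]
      rw [← Finset.sum_filter_add_sum_filter_not (powersetCard ρ univ) (fun R => y ∈ R)]
      have : ∑ R ∈ (powersetCard ρ univ).filter (fun R => y ∈ R),
          tau ρ (del L y) i (W ∪ R) = 0 := by
        apply Finset.sum_eq_zero
        intro R hR
        apply tau_eq_zero (hL.del y)
        simp only [del, mem_filter, not_and, not_not, mem_union]
        intro _
        right
        exact (mem_filter.mp hR).2
      rw [this, zero_add]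
    have h2 : ∑ R ∈ (powersetCard ρ univ).filter (fun R => ¬ y ∈ R), tau ρ L k (W ∪ R) ≤
        tau ρ (del L y) (k+1) W +
          ∑ i ∈ range k, tau ρ (del L y) (i+1) W * gy ρ L y (k - 1 - i) := by
      calc ∑ R ∈ (powersetCard ρ univ).filter (fun R => ¬ y ∈ R), tau ρ L k (W ∪ R)
          ≤ ∑ R ∈ (powersetCard ρ univ).filter (fun R => ¬ y ∈ R),
              (tau ρ (del L y) k (W ∪ R) +
                ∑ i ∈ range k, tau ρ (del L y) i (W ∪ R) * gy ρ L y (k - 1 - i)) := by
            apply Finset.sum_le_sum
            intro R hR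
            apply ih
            rw [mem_union, not_or]
            exact ⟨hy, (mem_filter.mp hR).2⟩
        _ = _ := by
            rw [Finset.sum_add_distrib, hvanish, Finset.sum_comm]
            congr 1
            apply Finset.sum_congr rfl
            intro i _
            rw [← Finset.sum_mul, hvanish]
    rw [hsplit, Finset.sum_range_succ']
    have h3 : ∀ i ∈ range k, tau ρ (del L y) (i+1) W * gy ρ L y (k + 1 - 1 - (i + 1)) =
        tau ρ (del L y) (i+1) W * gy ρ L y (k - 1 - i) := by
      intro i _
      congr 2
      omega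
    rw [Finset.sum_congr rfl h3]
    have h4 : k + 1 - 1 - 0 = k := by omega
    rw [h4]
    linarith

theorem sum_gy {ρ : ℕ} (L : Finset (Finset V)) (m : ℕ) :
    ∑ y, gy ρ L y m = ρ * tau ρ L (m+1) ∅ := by
  simp only [gy, tau, empty_union, Finset.sum_filter]
  rw [Finset.sum_comm, Finset.mul_sum]
  apply Finset.sum_congr rfl
  intro R hR
  rw [mem_powersetCard] at hR
  rw [← Finset.sum_filter]
  simp [hR.2]

/-- Number of `k`-tuples of `ρ`-sets whose union together with `W` equals `S`. -/
def cov (ρ : ℕ) (S : Finset V) : ℕ → Finset V → ℕ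
  | 0, W => if W = S then 1 else 0
  | (k+1), W => ∑ R ∈ powersetCard ρ univ, cov ρ S k (W ∪ R)

theorem tau_eq_sum_cov (ρ : ℕ) (L : Finset (Finset V)) (k : ℕ) (W : Finset V) :
    tau ρ L k W = ∑ S ∈ L, cov ρ S k W := by
  induction k generalizing W with
  | zero => simp [tau, cov]
  | succ k ih =>
    simp only [tau, cov]
    rw [Finset.sum_comm]
    apply Finset.sum_congr rfl
    intro R _
    exact ih _

theorem tau_powerset (ρ : ℕ) (T : Finset V) (k : ℕ) (W : Finset V) :
    tau ρ T.powerset k W = if W ⊆ T then (T.card.choose ρ) ^ k else 0 := by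
  induction k generalizing W with
  | zero => simp [tau]
  | succ k ih =>
    simp only [tau, ih]
    by_cases hW : W ⊆ T
    · rw [if_pos hW]
      have : ∀ R ∈ powersetCard ρ (univ : Finset V),
          (if W ∪ R ⊆ T then (T.card.choose ρ) ^ k else 0) =
          if R ⊆ T then (T.card.choose ρ) ^ k else 0 := by
        intro R _
        have : W ∪ R ⊆ T ↔ R ⊆ T := by
          rw [union_subset_iff]; exact ⟨fun h => h.2, fun h => ⟨hW, h⟩⟩
        simp only [this]
      rw [Finset.sum_congr rfl this, ← Finset.sum_filter]
      have hfil : (powersetCard ρ (univ : Finset V)).filter (fun R => R ⊆ T) =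
          powersetCard ρ T := by
        ext R
        simp only [mem_filter, mem_powersetCard, subset_univ, true_and]
        tauto
      rw [hfil]
      simp [pow_succ, mul_comm]
    · rw [if_neg hW]
      apply Finset.sum_eq_zero
      intro R _
      rw [if_neg]
      intro h
      exact hW (subset_union_left.trans h)

/-- The numbers `κ_k(i)`: number of `k`-tuples of `ρ`-subsets covering an `i`-set. -/
def kappa (ρ k : ℕ) (i : ℕ) : ℤ :=
  (i.choose ρ : ℤ) ^ k - ∑ m : Fin i, (i.choose m : ℤ) * kappa ρ k m
decreasing_by exact m.2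

theorem sum_kappa (ρ k i : ℕ) :
    ∑ m ∈ range (i+1), (i.choose m : ℤ) * kappa ρ k m = (i.choose ρ : ℤ) ^ k := by
  rw [Finset.sum_range_succ, Nat.choose_self]
  rw [kappa]
  rw [← Finset.sum_range (fun m => (i.choose m : ℤ) * kappa ρ k m)]
  push_cast
  ring

theorem sum_powerset_kappa (ρ k : ℕ) (S : Finset V) :
    ∑ T ∈ S.powerset, kappa ρ k T.card = (S.card.choose ρ : ℤ) ^ k := by
  rw [Finset.sum_powerset_apply_card (fun i => kappa ρ k i), ← sum_kappa]
  simp

theorem cov_eq_kappa (ρ k : ℕ) (S : Finset V) : (cov ρ S k ∅ : ℤ) = kappa ρ k S.card := by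
  induction S using Finset.strongInduction with
  | _ S ih =>
    have h1 : ∑ T ∈ S.powerset, (cov ρ T k ∅ : ℤ) = (S.card.choose ρ : ℤ) ^ k := by
      have := tau_powerset ρ S k ∅
      rw [tau_eq_sum_cov] at this
      simp only [empty_subset, if_true] at this
      exact_mod_cast this
    have h2 := sum_powerset_kappa ρ k S
    rw [← h2] at h1
    have hins : S.powerset = insert S S.ssubsets := by
      ext T
      simp only [mem_powerset, mem_insert, mem_ssubsets]
      constructor
      · intro h
        rcases eq_or_ssubset_of_subset h with h | h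
        · left; exact h
        · right; exact h
      · rintro (h | h)
        · exact h.subset
        · exact h.subset
    have hnot : S ∉ S.ssubsets := by simp
    rw [hins, Finset.sum_insert hnot, Finset.sum_insert hnot] at h1
    have h3 : ∑ T ∈ S.ssubsets, (cov ρ T k ∅ : ℤ) = ∑ T ∈ S.ssubsets, kappa ρ k T.card := by
      apply Finset.sum_congr rfl
      intro T hT
      exact ih T (mem_ssubsets.mp hT)
    rw [h3] at h1
    linarith

end Pool.Agent.Lib.MP_455133_co
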