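import Mathlib
import Pool.Agent.Lib.MP_455133_co.Cover

/-!
The coefficientwise inequality for simplicial complexes and its evaluation.
-/

namespace Pool.Agent.Lib.MP_455133_co

open Finset PowerSeries

noncomputable section

variable {V : Type*} [Fintype V] [DecidableEq V]

/-- generating function of the counts `tau (k+1) ∅` -/
def TL (ρ : ℕ) (L : Finset (Finset V)) : ℝ⟦X⟧ := PowerSeries.mk fun k => (tau ρ L (k+1) ∅ : ℝ)

/-- generating function of the counts `tau k ∅` -/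
def HL (ρ : ℕ) (L : Finset (Finset V)) : ℝ⟦X⟧ := PowerSeries.mk fun k => (tau ρ L k ∅ : ℝ)

/-- generating function of the counts `gy` -/
def Gy (ρ : ℕ) (L : Finset (Finset V)) (y : V) : ℝ⟦X⟧ := PowerSeries.mk fun k => (gy ρ L y k : ℝ)

theorem TL_nonneg (ρ : ℕ) (L : Finset (Finset V)) : CLE 0 (TL ρ L) := by
  intro n; simp [TL]

theorem HL_nonneg (ρ : ℕ) (L : Finset (Finset V)) : CLE 0 (HL ρ L) := by
  intro n; simp [HL]

theorem Gy_nonneg (ρ : ℕ) (L : Finset (Finset V)) (y : V) : CLE 0 (Gy ρ L y) := by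
  intro n; simp [Gy]

theorem HL_le_E {ρ : ℕ} {L : Finset (Finset V)} (hL : Lower L) : CLE (HL ρ L) (E (TL ρ L)) := by
  intro n
  induction n using Nat.strong_induction_on with
  | _ n ih =>
    cases n with
    | zero =>
      simp only [HL, coeff_mk]
      rw [coeff_zero_eq_constantCoeff_apply, E_const]
      exact_mod_cast tau_zero_empty_le
    | succ n =>
      have hpos : (0 : ℝ) < (n : ℝ) + 1 := by positivity
      apply le_of_mul_le_mul_right _ hpos
      rw [coeff_E_succ]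
      have h1 : ∀ ij ∈ HasAntidiagonal.antidiagonal n,
          (tau ρ L (n+1) ∅ : ℝ) ≤ coeff ij.1 (E (TL ρ L)) * coeff ij.2 (TL ρ L) := by
        intro ij hij
        rw [HasAntidiagonal.mem_antidiagonal] at hij
        have h2 := ih ij.1 (by omega)
        have h3 : (tau ρ L (n+1) ∅ : ℝ) ≤ (tau ρ L ij.1 ∅ : ℝ) * (tau ρ L (ij.2+1) ∅ : ℝ) := by
          have := tau_add_le hL (ρ := ρ) ij.1 (ij.2+1) ∅
          rw [show ij.1 + (ij.2 + 1) = n + 1 by omega] at this
          exact_mod_cast this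
        refine h3.trans ?_
        have h5 : coeff ij.2 (TL ρ L) = (tau ρ L (ij.2+1) ∅ : ℝ) := by simp [TL]
        rw [h5]
        apply mul_le_mul_of_nonneg_right _ (by positivity)
        have h6 : coeff ij.1 (HL ρ L) = (tau ρ L ij.1 ∅ : ℝ) := by simp [HL]
        rw [h6] at h2
        exact h2
      have h4 := Finset.sum_le_sum h1
      refine le_trans ?_ h4
      simp [HL]
      linarith

theorem TL_split {ρ : ℕ} {L : Finset (Finset V)} (hL : Lower L) (y : V) :
    CLE (TL ρ L - TL ρ (del L y)) (HL ρ (del L y) * Gy ρ L y) := by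
  intro n
  rw [coeff_mul]
  simp only [TL, HL, Gy, map_sub, coeff_mk]
  have h := tau_split hL (ρ := ρ) y (n+1) ∅ (by simp)
  have h2 : ∑ ij ∈ HasAntidiagonal.antidiagonal n,
      (tau ρ (del L y) ij.1 ∅ : ℝ) * (gy ρ L y ij.2 : ℝ) =
      ∑ i ∈ range (n+1), (tau ρ (del L y) i ∅ : ℝ) * (gy ρ L y (n + 1 - 1 - i) : ℝ) := by
    rw [Finset.Nat.sum_antidiagonal_eq_sum_range_succ
      (fun i j => (tau ρ (del L y) i ∅ : ℝ) * (gy ρ L y j : ℝ)) n]
    simp
  rw [h2, sub_le_iff_le_add']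
  exact_mod_cast h

theorem TL_del_le {ρ : ℕ} {L : Finset (Finset V)} (y : V) :
    CLE 0 (TL ρ L - TL ρ (del L y)) := by
  intro n
  simp only [TL, map_sub, coeff_mk, map_zero]
  rw [sub_nonneg]
  have : tau ρ (del L y) (n+1) ∅ ≤ tau ρ L (n+1) ∅ := by
    rw [tau_eq_sum_cov, tau_eq_sum_cov]
    exact Finset.sum_le_sum_of_subset (filter_subset _ _)
  exact_mod_cast this

theorem sum_Gy (ρ : ℕ) (L : Finset (Finset V)) :
    ∑ y, Gy ρ L y = PowerSeries.C (ρ : ℝ) * TL ρ L := by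
  ext n
  rw [map_sum, coeff_C_mul]
  simp only [Gy, TL, coeff_mk]
  have := sum_gy (ρ := ρ) L n
  exact_mod_cast this

/-- The coefficientwise inequality. -/
theorem key_series {ρ : ℕ} {L : Finset (Finset V)} (hL : Lower L) :
    CLE (∑ y, (E (TL ρ L - TL ρ (del L y)) - 1)) (PowerSeries.C (ρ : ℝ) * (E (TL ρ L) - 1)) := by
  apply CLE.of_deriv
  · simp
  · rw [map_sum]
    have h1 : ∀ y ∈ (univ : Finset V), CLE (d⁄dX ℝ (E (TL ρ L - TL ρ (del L y)) - 1))
        (E (TL ρ L) * Gy ρ L y) := by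
      intro y _
      have hd : d⁄dX ℝ (E (TL ρ L - TL ρ (del L y)) - 1) =
          E (TL ρ L - TL ρ (del L y)) * (TL ρ L - TL ρ (del L y)) := by
        rw [map_sub, E_deriv]
        simp
      rw [hd]
      have h2 : E (TL ρ L) = E (TL ρ L - TL ρ (del L y)) * E (TL ρ (del L y)) := by
        rw [← E_add]; congr 1; ring
      have h3 : CLE (TL ρ L - TL ρ (del L y)) (E (TL ρ (del L y)) * Gy ρ L y) :=
        (TL_split hL y).trans
          (CLE.mul (HL_nonneg _ _) (HL_le_E (hL.del y)) (Gy_nonneg _ _ _) (CLE.refl _))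
      rw [h2, mul_assoc]
      exact CLE.mul (E_nonneg (TL_del_le y)) (CLE.refl _) (TL_del_le y) h3
    refine (CLE.sum h1).trans ?_
    rw [← Finset.mul_sum, sum_Gy]
    have : d⁄dX ℝ (PowerSeries.C (ρ : ℝ) * (E (TL ρ L) - 1)) =
        E (TL ρ L) * (PowerSeries.C (ρ : ℝ) * TL ρ L) := by
      rw [Derivation.leibniz, map_sub, E_deriv]
      simp
      ring
    rw [this]
    exact CLE.refl _

/-- `A_i` -/
def Aser (ρ i : ℕ) : ℝ⟦X⟧ := PowerSeries.mk fun k => (kappa ρ (k+1) i : ℝ)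

theorem TL_eq_sum (ρ : ℕ) (L : Finset (Finset V)) : TL ρ L = ∑ S ∈ L, Aser ρ S.card := by
  ext n
  rw [map_sum]
  simp only [TL, Aser, coeff_mk]
  have h := tau_eq_sum_cov ρ L (n+1) ∅
  rw [h]
  push_cast
  apply Finset.sum_congr rfl
  intro S _
  have := cov_eq_kappa ρ (n+1) S
  exact_mod_cast this

theorem E_TL (ρ : ℕ) (L : Finset (Finset V)) : E (TL ρ L) = ∏ S ∈ L, E (Aser ρ S.card) := by
  rw [TL_eq_sum, E_sum]

theorem E_TL_del (ρ : ℕ) (L : Finset (Finset V)) (y : V) :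
    E (TL ρ L - TL ρ (del L y)) = ∏ S ∈ L.filter (fun S => y ∈ S), E (Aser ρ S.card) := by
  rw [← E_sum]
  congr 1
  rw [TL_eq_sum, TL_eq_sum, sub_eq_iff_eq_add, del, Finset.sum_filter_add_sum_filter_not]

theorem Aser_nonneg (ρ : ℕ) (S : Finset V) : CLE 0 (Aser ρ S.card) := by
  intro n
  simp only [Aser, coeff_mk, map_zero]
  have := cov_eq_kappa ρ (n+1) S
  have h : (0 : ℤ) ≤ kappa ρ (n+1) S.card := by rw [← this]; positivity
  exact_mod_cast h

theorem TL_powerset (ρ : ℕ) (T : Finset V) :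
    TL ρ T.powerset = PowerSeries.mk fun k => (T.card.choose ρ : ℝ) ^ (k+1) := by
  ext n
  simp [TL, tau_powerset]

/-- Evaluation of a power series. -/
def ev (z : ℝ) (P : ℝ⟦X⟧) : ℝ := ∑' n, coeff n P * z ^ n

/-- nonnegative coefficients and convergence at `z` -/
def Good (z : ℝ) (P : ℝ⟦X⟧) : Prop := CLE 0 P ∧ Summable fun n => coeff n P * z ^ n

theorem Good.of_le {z : ℝ} (hz : 0 ≤ z) {P Q : ℝ⟦X⟧} (h0 : CLE 0 P) (h : CLE P Q) (hQ : Good z Q) :
    Good z P := by
  refine ⟨h0, ?_⟩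
  apply Summable.of_nonneg_of_le _ _ hQ.2
  · intro n; exact mul_nonneg (h0.coeff_nonneg n) (pow_nonneg hz n)
  · intro n; exact mul_le_mul_of_nonneg_right (h n) (pow_nonneg hz n)

theorem ev_mono {z : ℝ} (hz : 0 ≤ z) {P Q : ℝ⟦X⟧} (h : CLE P Q) (hP : Good z P) (hQ : Good z Q) :
    ev z P ≤ ev z Q := by
  apply Summable.tsum_le_tsum _ hP.2 hQ.2
  intro n; exact mul_le_mul_of_nonneg_right (h n) (pow_nonneg hz n)

theorem Good.norm {z : ℝ} (hz : 0 ≤ z) {P : ℝ⟦X⟧} (hP : Good z P) :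
    Summable fun n => ‖coeff n P * z ^ n‖ := by
  have : (fun n => ‖coeff n P * z ^ n‖) = fun n => coeff n P * z ^ n := by
    funext n
    rw [Real.norm_of_nonneg (mul_nonneg (hP.1.coeff_nonneg n) (pow_nonneg hz n))]
  rw [this]; exact hP.2

theorem coeff_mul_pow {z : ℝ} (P Q : ℝ⟦X⟧) (n : ℕ) :
    coeff n (P * Q) * z ^ n = ∑ kl ∈ HasAntidiagonal.antidiagonal n,
      (coeff kl.1 P * z ^ kl.1) * (coeff kl.2 Q * z ^ kl.2) := by
  rw [coeff_mul, Finset.sum_mul]
  apply Finset.sum_congr rfl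
  intro kl hkl
  rw [HasAntidiagonal.mem_antidiagonal] at hkl
  rw [← hkl, pow_add]
  ring

theorem Good.mul {z : ℝ} (hz : 0 ≤ z) {P Q : ℝ⟦X⟧} (hP : Good z P) (hQ : Good z Q) :
    Good z (P * Q) := by
  refine ⟨hP.1.mul_nonneg hQ.1, ?_⟩
  have := summable_norm_sum_mul_antidiagonal_of_summable_norm (hP.norm hz) (hQ.norm hz)
  have h2 := this.of_norm
  refine h2.congr ?_
  intro n
  rw [coeff_mul_pow]

theorem ev_mul {z : ℝ} (hz : 0 ≤ z) {P Q : ℝ⟦X⟧} (hP : Good z P) (hQ : Good z Q) :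
    ev z (P * Q) = ev z P * ev z Q := by
  rw [ev, ev, ev, tsum_mul_tsum_eq_tsum_sum_antidiagonal_of_summable_norm (hP.norm hz) (hQ.norm hz)]
  apply tsum_congr
  intro n
  rw [coeff_mul_pow]

theorem Good.one (z : ℝ) : Good z 1 := by
  refine ⟨?_, ?_⟩
  · intro n
    rw [coeff_one]
    split_ifs <;> simp
  · apply summable_of_ne_finset_zero (s := {0})
    intro n hn
    rw [coeff_one, if_neg (by simpa using hn), zero_mul]

theorem ev_one (z : ℝ) : ev z 1 = 1 := by
  rw [ev, tsum_eq_single 0]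
  · simp
  · intro n hn
    rw [coeff_one, if_neg hn, zero_mul]

theorem Good.prod {z : ℝ} (hz : 0 ≤ z) {ι : Type*} {s : Finset ι} {f : ι → ℝ⟦X⟧}
    (h : ∀ i ∈ s, Good z (f i)) : Good z (∏ i ∈ s, f i) := by
  classical
  induction s using Finset.induction_on with
  | empty => simpa using Good.one z
  | insert a s ha ih =>
    rw [Finset.prod_insert ha]
    exact (h _ (mem_insert_self _ _)).mul hz (ih fun i hi => h i (mem_insert_of_mem hi))

theorem ev_prod {z : ℝ} (hz : 0 ≤ z) {ι : Type*} {s : Finset ι} {f : ι → ℝ⟦X⟧}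
    (h : ∀ i ∈ s, Good z (f i)) : ev z (∏ i ∈ s, f i) = ∏ i ∈ s, ev z (f i) := by
  classical
  induction s using Finset.induction_on with
  | empty => simpa using ev_one z
  | insert a s ha ih =>
    rw [Finset.prod_insert ha, Finset.prod_insert ha, ev_mul hz (h _ (mem_insert_self _ _))
      (Good.prod hz fun i hi => h i (mem_insert_of_mem hi)),
      ih fun i hi => h i (mem_insert_of_mem hi)]

theorem Good.add {z : ℝ} {P Q : ℝ⟦X⟧} (hP : Good z P) (hQ : Good z Q) : Good z (P + Q) := by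
  refine ⟨?_, ?_⟩
  · have := hP.1.add hQ.1
    simpa using this
  · refine (hP.2.add hQ.2).congr ?_
    intro n
    simp [add_mul]

theorem ev_add {z : ℝ} {P Q : ℝ⟦X⟧} (hP : Good z P) (hQ : Good z Q) :
    ev z (P + Q) = ev z P + ev z Q := by
  rw [ev, ev, ev, ← hP.2.tsum_add hQ.2]
  apply tsum_congr
  intro n
  simp [add_mul]

theorem Good.zero (z : ℝ) : Good z 0 := ⟨CLE.refl _, by simp⟩

theorem ev_zero (z : ℝ) : ev z 0 = 0 := by simp [ev]

theorem Good.sum {z : ℝ} {ι : Type*} {s : Finset ι} {f : ι → ℝ⟦X⟧}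
    (h : ∀ i ∈ s, Good z (f i)) : Good z (∑ i ∈ s, f i) := by
  classical
  induction s using Finset.induction_on with
  | empty => simpa using Good.zero z
  | insert a s ha ih =>
    rw [Finset.sum_insert ha]
    exact (h _ (mem_insert_self _ _)).add (ih fun i hi => h i (mem_insert_of_mem hi))

theorem ev_sum {z : ℝ} {ι : Type*} {s : Finset ι} {f : ι → ℝ⟦X⟧}
    (h : ∀ i ∈ s, Good z (f i)) : ev z (∑ i ∈ s, f i) = ∑ i ∈ s, ev z (f i) := by
  classical
  induction s using Finset.induction_on with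
  | empty => simpa using ev_zero z
  | insert a s ha ih =>
    rw [Finset.sum_insert ha, Finset.sum_insert ha, ev_add (h _ (mem_insert_self _ _))
      (Good.sum fun i hi => h i (mem_insert_of_mem hi)),
      ih fun i hi => h i (mem_insert_of_mem hi)]

theorem Good.C {z c : ℝ} (hc : 0 ≤ c) : Good z (PowerSeries.C c) := by
  refine ⟨?_, ?_⟩
  · intro n
    rw [coeff_C]
    split_ifs <;> simp [hc]
  · apply summable_of_ne_finset_zero (s := {0})
    intro n hn
    rw [coeff_C, if_neg (by simpa using hn), zero_mul]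

theorem ev_C (z c : ℝ) : ev z (PowerSeries.C c) = c := by
  rw [ev, tsum_eq_single 0]
  · simp
  · intro n hn
    rw [coeff_C, if_neg hn, zero_mul]

theorem Good.geom {z M : ℝ} (hz : 0 ≤ z) (hM : 0 ≤ M) (h : M * z < 1) :
    Good z (PowerSeries.mk fun k => M ^ k) := by
  refine ⟨?_, ?_⟩
  · intro n; simp [hM]
  · have := summable_geometric_of_lt_one (mul_nonneg hM hz) h
    refine this.congr ?_
    intro n
    simp [mul_pow]

theorem ev_geom {z M : ℝ} (hz : 0 ≤ z) (hM : 0 ≤ M) (h : M * z < 1) :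
    ev z (PowerSeries.mk fun k => M ^ k) = (1 - M * z)⁻¹ := by
  rw [← tsum_geometric_of_lt_one (mul_nonneg hM hz) h, ev]
  apply tsum_congr
  intro n
  simp [mul_pow]

theorem Good.Aser {z : ℝ} (hz : 0 ≤ z) {ρ : ℕ} (S : Finset V)
    (h : (S.card.choose ρ : ℝ) * z < 1) : Good z (E (Aser ρ S.card)) := by
  apply Good.of_le hz (E_nonneg (Aser_nonneg ρ S)) _
    (Good.geom hz (by positivity) h)
  rw [← E_geom, ← TL_powerset, TL_eq_sum]
  apply E_mono (Aser_nonneg ρ S)
  rw [← Finset.add_sum_erase _ _ (mem_powerset_self S)]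
  have : CLE (MP_455133_co.Aser ρ S.card + 0)
      (MP_455133_co.Aser ρ S.card + ∑ x ∈ S.powerset.erase S, MP_455133_co.Aser ρ x.card) := by
    apply CLE.add (CLE.refl _)
    have : CLE (∑ x ∈ S.powerset.erase S, (0 : ℝ⟦X⟧))
        (∑ x ∈ S.powerset.erase S, MP_455133_co.Aser ρ x.card) :=
      CLE.sum fun x _ => Aser_nonneg ρ x
    simpa using this
  simpa using this

/-- The value `γ_i`. -/
def gam (ρ : ℕ) (z : ℝ) (i : ℕ) : ℝ := ev z (E (Aser ρ i))

/-- Evaluated form of the key inequality. -/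
theorem key_eval {ρ : ℕ} {z : ℝ} (hz : 0 ≤ z) {L : Finset (Finset V)} (hL : Lower L)
    (hsmall : ∀ S ∈ L, (S.card.choose ρ : ℝ) * z < 1) :
    ∑ y, (∏ S ∈ L.filter (fun S => y ∈ S), gam ρ z S.card - 1) ≤
      ρ * (∏ S ∈ L, gam ρ z S.card - 1) := by
  have hgood : ∀ S ∈ L, Good z (E (Aser ρ S.card)) := fun S hS => Good.Aser hz S (hsmall S hS)
  have hgy : ∀ y, Good z (∏ S ∈ L.filter (fun S => y ∈ S), E (Aser ρ S.card)) := fun y =>
    Good.prod hz fun S hS => hgood S (mem_filter.mp hS).1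
  have hG : Good z (∏ S ∈ L, E (Aser ρ S.card)) := Good.prod hz hgood
  have hk := key_series (ρ := ρ) hL
  have hk2 : CLE (∑ y, (∏ S ∈ L.filter (fun S => y ∈ S), E (Aser ρ S.card)) + PowerSeries.C (ρ : ℝ))
      (PowerSeries.C (ρ : ℝ) * (∏ S ∈ L, E (Aser ρ S.card)) +
        PowerSeries.C (Fintype.card V : ℝ)) := by
    intro n
    have := hk n
    simp only [E_TL_del, E_TL, Finset.sum_sub_distrib, mul_sub, map_sub, mul_one] at this
    simp only [map_add]
    have hc : coeff n (∑ _y : V, (1 : ℝ⟦X⟧)) = coeff n (PowerSeries.C (Fintype.card V : ℝ)) := by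
      congr 1
      simp
    rw [hc] at this
    linarith
  have hgood1 : Good z (∑ y, (∏ S ∈ L.filter (fun S => y ∈ S), E (Aser ρ S.card))) :=
    Good.sum fun y _ => hgy y
  have hC : Good z (PowerSeries.C (ρ : ℝ)) := Good.C (by positivity)
  have hC2 : Good z (PowerSeries.C (Fintype.card V : ℝ)) := Good.C (by positivity)
  have h := ev_mono hz hk2 (hgood1.add hC) ((hC.mul hz hG).add hC2)
  rw [ev_add hgood1 hC, ev_add (hC.mul hz hG) hC2, ev_mul hz hC hG, ev_C, ev_C,
    ev_sum (fun y _ => hgy y), ev_prod hz hgood] at h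
  have h2 : ∀ y, ev z (∏ S ∈ L.filter (fun S => y ∈ S), E (Aser ρ S.card)) =
      ∏ S ∈ L.filter (fun S => y ∈ S), gam ρ z S.card := fun y =>
    ev_prod hz fun S hS => hgood S (mem_filter.mp hS).1
  simp only [h2] at h
  rw [Finset.sum_sub_distrib]
  simp only [sum_const, card_univ, nsmul_eq_mul, mul_one]
  simp only [gam] at h ⊢
  linarith

theorem gam_powerset {ρ : ℕ} {z : ℝ} (hz : 0 ≤ z) (T : Finset V)
    (h : (T.card.choose ρ : ℝ) * z < 1) :
    ∏ S ∈ T.powerset, gam ρ z S.card = (1 - (T.card.choose ρ : ℝ) * z)⁻¹ := by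
  rw [← ev_geom hz (by positivity) h, ← E_geom, ← TL_powerset, E_TL, ev_prod hz]
  · rfl
  · intro S hS
    apply Good.Aser hz
    refine lt_of_le_of_lt ?_ h
    apply mul_le_mul_of_nonneg_right _ hz
    exact_mod_cast Nat.choose_le_choose _ (card_le_card (mem_powerset.mp hS))

theorem one_le_gam {ρ : ℕ} {z : ℝ} (hz : 0 ≤ z) (S : Finset V)
    (h : (S.card.choose ρ : ℝ) * z < 1) : 1 ≤ gam ρ z S.card := by
  rw [gam, ← ev_one z]
  apply ev_mono hz _ (Good.one z) (Good.Aser hz S h)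
  intro n
  rw [coeff_one]
  split_ifs with hn
  · subst hn
    rw [coeff_zero_eq_constantCoeff_apply, E_const]
  · exact (E_nonneg (Aser_nonneg ρ S)).coeff_nonneg n

theorem gam_of_lt {ρ : ℕ} {z : ℝ} {i : ℕ} (hi : i < ρ) : gam ρ z i = 1 := by
  have : Aser ρ i = 0 := by
    ext n
    simp only [Aser, coeff_mk, map_zero]
    have : ∀ j, j < ρ → kappa ρ (n+1) j = 0 := by
      intro j
      induction j using Nat.strong_induction_on with
      | _ j ih =>
        intro hj
        rw [kappa, Nat.choose_eq_zero_of_lt hj]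
        have : ∑ m : Fin j, (j.choose m : ℤ) * kappa ρ (n+1) m = 0 := by
          apply Finset.sum_eq_zero
          intro m _
          rw [ih m m.2 (by omega), mul_zero]
        rw [this]; simp
    exact_mod_cast this i hi
  rw [gam, this, E_zero, ev_one]

end

end Pool.Agent.Lib.MP_455133_co
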