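import Mathlib
import Pool.Agent.Lib.MP_455133_co.Ineq

/-!
The weights on vertex sets and the chain of inequalities giving the lower bound.
-/

namespace Pool.Agent.Lib.MP_455133_co

open Finset

noncomputable section

variable {V : Type*} [Fintype V] [DecidableEq V]

/-- The weight of a face of size `i`. -/
def pw (ρ N i : ℕ) : ℝ := if i < N then (gam ρ (1 / (N.choose ρ : ℝ)) i)⁻¹ else 0

theorem choose_lt {ρ N i : ℕ} (hρ : 1 ≤ ρ) (hN : ρ ≤ N) (hi : i < N) :
    i.choose ρ < N.choose ρ := by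
  obtain ⟨M, rfl⟩ : ∃ M, N = M + 1 := ⟨N - 1, by omega⟩
  obtain ⟨σ, rfl⟩ : ∃ σ, ρ = σ + 1 := ⟨ρ - 1, by omega⟩
  rw [Nat.choose_succ_succ']
  have h1 : i.choose (σ+1) ≤ M.choose (σ+1) := Nat.choose_le_choose _ (by omega)
  have h2 : 0 < M.choose σ := Nat.choose_pos (by omega)
  omega

theorem small_of_lt {ρ N i : ℕ} (hρ : 1 ≤ ρ) (hN : ρ ≤ N) (hi : i < N) :
    (i.choose ρ : ℝ) * (1 / (N.choose ρ : ℝ)) < 1 := by
  have h := choose_lt hρ hN hi
  have hpos : (0 : ℝ) < (N.choose ρ : ℝ) := by exact_mod_cast Nat.choose_pos hN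
  rw [mul_one_div, div_lt_one hpos]
  exact_mod_cast h

theorem pw_nonneg {ρ N : ℕ} (hρ : 1 ≤ ρ) (hN : ρ ≤ N) (S : Finset V) : 0 ≤ pw ρ N S.card := by
  rw [pw]
  split_ifs with h
  · have := one_le_gam (z := 1 / (N.choose ρ : ℝ)) (by positivity) S (small_of_lt hρ hN h)
    positivity
  · exact le_rfl

theorem pw_le_one {ρ N : ℕ} (hρ : 1 ≤ ρ) (hN : ρ ≤ N) (S : Finset V) : pw ρ N S.card ≤ 1 := by
  rw [pw]
  split_ifs with h
  · have := one_le_gam (z := 1 / (N.choose ρ : ℝ)) (by positivity) S (small_of_lt hρ hN h)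
    exact inv_le_one_of_one_le₀ this
  · exact zero_le_one

theorem ineqI {ρ N : ℕ} (hρ : 1 ≤ ρ) (hN : ρ ≤ N) {L : Finset (Finset V)} (hL : Lower L)
    (P : Finset V) (hP : ∀ S ∈ L, S ⊆ P) :
    ((P.card : ℝ) - ρ) * (1 - ∏ S ∈ L, pw ρ N S.card) ≤
      ∑ y ∈ P, (1 - ∏ S ∈ del L y, pw ρ N S.card) := by
  set z : ℝ := 1 / (N.choose ρ : ℝ) with hz
  have hz0 : 0 ≤ z := by positivity
  by_cases hA : ∀ S ∈ L, S.card < N
  · -- no large face
    have hsm : ∀ S ∈ L, (S.card.choose ρ : ℝ) * z < 1 := fun S hS => small_of_lt hρ hN (hA S hS)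
    have hkey := key_eval hz0 hL hsm
    have hgpos : ∀ S ∈ L, 0 < gam ρ z S.card := fun S hS =>
      lt_of_lt_of_le one_pos (one_le_gam hz0 S (hsm S hS))
    set G : ℝ := ∏ S ∈ L, gam ρ z S.card with hG
    have hGpos : 0 < G := Finset.prod_pos hgpos
    have hu : ∏ S ∈ L, pw ρ N S.card = G⁻¹ := by
      rw [hG, ← Finset.prod_inv_distrib]
      apply Finset.prod_congr rfl
      intro S hS
      rw [pw, if_pos (hA S hS)]
    have huy : ∀ y, ∏ S ∈ del L y, pw ρ N S.card =
        G⁻¹ * ∏ S ∈ L.filter (fun S => y ∈ S), gam ρ z S.card := by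
      intro y
      have h1 : G = (∏ S ∈ L.filter (fun S => y ∈ S), gam ρ z S.card) *
          ∏ S ∈ del L y, gam ρ z S.card := by
        rw [hG, del, Finset.prod_filter_mul_prod_filter_not]
      have h2 : ∏ S ∈ del L y, pw ρ N S.card = (∏ S ∈ del L y, gam ρ z S.card)⁻¹ := by
        rw [← Finset.prod_inv_distrib]
        apply Finset.prod_congr rfl
        intro S hS
        rw [pw, if_pos (hA S (mem_filter.mp hS).1)]
      have h3 : 0 < ∏ S ∈ L.filter (fun S => y ∈ S), gam ρ z S.card :=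
        Finset.prod_pos fun S hS => hgpos S (mem_filter.mp hS).1
      have h4 : 0 < ∏ S ∈ del L y, gam ρ z S.card :=
        Finset.prod_pos fun S hS => hgpos S (mem_filter.mp hS).1
      rw [h2, h1]
      field_simp
    rw [hu]
    simp only [huy]
    have hsub : ∑ y ∈ P, (∏ S ∈ L.filter (fun S => y ∈ S), gam ρ z S.card - 1) ≤
        ρ * (G - 1) := by
      refine le_trans (le_of_eq ?_) hkey
      apply Finset.sum_subset (subset_univ P)
      intro y _ hy
      have : L.filter (fun S => y ∈ S) = ∅ := by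
        rw [Finset.filter_eq_empty_iff]
        intro S hS hyS
        exact hy (hP S hS hyS)
      rw [this]; simp
    rw [Finset.sum_sub_distrib] at hsub
    rw [Finset.sum_sub_distrib, ← Finset.mul_sum]
    simp only [sum_const, nsmul_eq_mul, mul_one] at hsub ⊢
    have hGi : 0 < G⁻¹ := inv_pos.mpr hGpos
    have h5 := mul_le_mul_of_nonneg_left hsub hGi.le
    have h6 : G⁻¹ * G = 1 := inv_mul_cancel₀ hGpos.ne'
    nlinarith
  · push Not at hA
    obtain ⟨S₀, hS₀, hcard⟩ := hA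
    obtain ⟨A, hAS, hAcard⟩ := Finset.exists_subset_card_eq hcard
    have hAL : A ∈ L := hL S₀ hS₀ A hAS
    have hAP : A ⊆ P := hP A hAL
    have hzero : ∏ S ∈ L, pw ρ N S.card = 0 := by
      apply Finset.prod_eq_zero hAL
      rw [hAcard, pw, if_neg (lt_irrefl _)]
    rw [hzero, sub_zero, mul_one]
    have hNpos : 0 < N := by omega
    have hyA : ∀ y ∈ A, 1 - (ρ : ℝ) / N ≤ 1 - ∏ S ∈ del L y, pw ρ N S.card := by
      intro y hy
      have h1 : (A.erase y).powerset ⊆ del L y := by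
        intro S hS
        rw [mem_powerset] at hS
        simp only [del, mem_filter]
        refine ⟨hL A hAL S (hS.trans (erase_subset _ _)), ?_⟩
        intro h
        exact absurd (hS h) (notMem_erase y A)
      have h2 : ∏ S ∈ del L y, pw ρ N S.card ≤ ∏ S ∈ (A.erase y).powerset, pw ρ N S.card := by
        rw [← Finset.prod_sdiff h1]
        have h3 : ∏ S ∈ del L y \ (A.erase y).powerset, pw ρ N S.card ≤ 1 :=
          Finset.prod_le_one (fun S _ => pw_nonneg hρ hN S) (fun S _ => pw_le_one hρ hN S)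
        have h4 : 0 ≤ ∏ S ∈ (A.erase y).powerset, pw ρ N S.card :=
          Finset.prod_nonneg (fun S _ => pw_nonneg hρ hN S)
        nlinarith
      have hcard2 : (A.erase y).card = N - 1 := by rw [card_erase_of_mem hy, hAcard]
      have h5 : ∏ S ∈ (A.erase y).powerset, pw ρ N S.card = (ρ : ℝ) / N := by
        have h6 : ∏ S ∈ (A.erase y).powerset, pw ρ N S.card =
            (∏ S ∈ (A.erase y).powerset, gam ρ z S.card)⁻¹ := by
          rw [← Finset.prod_inv_distrib]
          apply Finset.prod_congr rfl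
          intro S hS
          rw [pw, if_pos]
          have := card_le_card (mem_powerset.mp hS)
          omega
        rw [h6, gam_powerset hz0 _ (by rw [hcard2]; exact small_of_lt hρ hN (by omega)), inv_inv,
          hcard2, hz]
        obtain ⟨M, rfl⟩ : ∃ M, N = M + 1 := ⟨N - 1, by omega⟩
        have hpos : (0 : ℝ) < ((M+1).choose ρ : ℝ) := by exact_mod_cast Nat.choose_pos hN
        have hM : (0 : ℝ) < (M : ℝ) + 1 := by positivity
        -- (M+1) * C(M,ρ) = (M+1-ρ) * C(M+1,ρ)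
        have hid : ((M : ℝ) + 1) * (M.choose ρ : ℝ) = ((M : ℝ) + 1 - ρ) * ((M+1).choose ρ : ℝ) := by
          have h7 := Nat.choose_mul_succ_eq M ρ
          have h8 : ((M.choose ρ : ℝ)) * ((M : ℝ) + 1) = ((M+1).choose ρ : ℝ) * ((M + 1 - ρ : ℕ) : ℝ) := by
            exact_mod_cast h7
          rw [Nat.cast_sub hN] at h8
          push_cast at h8
          linarith
        simp only [Nat.add_sub_cancel]
        push_cast
        field_simp
        linarith
      linarith
    have hyPA : ∀ y ∈ P \ A, (1 : ℝ) ≤ 1 - ∏ S ∈ del L y, pw ρ N S.card := by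
      intro y hy
      rw [mem_sdiff] at hy
      have : ∏ S ∈ del L y, pw ρ N S.card = 0 := by
        apply Finset.prod_eq_zero (i := A)
        · simp only [del, mem_filter]; exact ⟨hAL, hy.2⟩
        · rw [hAcard, pw, if_neg (lt_irrefl _)]
      rw [this]; simp
    rw [← Finset.sum_sdiff hAP]
    have h8 := Finset.sum_le_sum hyA
    have h9 := Finset.sum_le_sum hyPA
    simp only [sum_const, nsmul_eq_mul, mul_one, hAcard] at h8 h9
    rw [card_sdiff_of_subset hAP, hAcard, Nat.cast_sub (by rw [← hAcard]; exact card_le_card hAP)] at h9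
    have hNr : (0 : ℝ) < N := by exact_mod_cast hNpos
    have h10 : (N : ℝ) * (1 - (ρ : ℝ) / N) = N - ρ := by field_simp
    linarith

/-- The factor attached to a set `C`. -/
def fac (ρ N : ℕ) (K : Finset (Finset V)) (C : Finset V) : ℝ :=
  if C ∈ K ∧ C ≠ ∅ then pw ρ N (C.card - 1) else 1

/-- The weight of a vertex set. -/
def wt (ρ N : ℕ) (K : Finset (Finset V)) (P : Finset V) : ℝ := ∏ C ∈ P.powerset, fac ρ N K C

/-- The conditional factor. -/
def uu (ρ N : ℕ) (K : Finset (Finset V)) (x : V) (P : Finset V) : ℝ :=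
  ∏ C ∈ P.powerset, fac ρ N K (insert x C)

/-- The link complex. -/
def lnk (K : Finset (Finset V)) (x : V) (P : Finset V) : Finset (Finset V) :=
  P.powerset.filter (fun S => insert x S ∈ K)

omit [Fintype V] in
theorem wt_insert {ρ N : ℕ} {K : Finset (Finset V)} {x : V} {P : Finset V} (hx : x ∉ P) :
    wt ρ N K (insert x P) = wt ρ N K P * uu ρ N K x P := by
  rw [wt, prod_powerset_insert hx]; rfl

omit [Fintype V] in
theorem uu_eq {ρ N : ℕ} {K : Finset (Finset V)} {x : V} {P : Finset V} (hx : x ∉ P) :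
    uu ρ N K x P = ∏ S ∈ lnk K x P, pw ρ N S.card := by
  rw [uu, lnk, Finset.prod_filter]
  apply Finset.prod_congr rfl
  intro C hC
  rw [mem_powerset] at hC
  have hxC : x ∉ C := fun h => hx (hC h)
  rw [fac]
  have : insert x C ≠ ∅ := insert_ne_empty x C
  simp only [this, ne_eq, not_false_eq_true, and_true, card_insert_of_notMem hxC,
    Nat.add_sub_cancel]

omit [Fintype V] in
theorem lnk_lower {K : Finset (Finset V)} (hK : Lower K) (x : V) (P : Finset V) :
    Lower (lnk K x P) := by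
  intro S hS S' hS'
  simp only [lnk, mem_filter, mem_powerset] at hS ⊢
  exact ⟨hS'.trans hS.1, hK _ hS.2 _ (insert_subset_insert x hS')⟩

omit [Fintype V] in
theorem lnk_erase {K : Finset (Finset V)} (x y : V) (P : Finset V) :
    lnk K x (P.erase y) = del (lnk K x P) y := by
  ext S
  simp only [lnk, del, mem_filter, mem_powerset, subset_erase]
  tauto

theorem uu_nonneg {ρ N : ℕ} (hρ : 1 ≤ ρ) (hN : ρ ≤ N) {K : Finset (Finset V)} {x : V}
    {P : Finset V} (hx : x ∉ P) : 0 ≤ uu ρ N K x P := by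
  rw [uu_eq hx]
  exact Finset.prod_nonneg fun S _ => pw_nonneg hρ hN S

theorem uu_le_one {ρ N : ℕ} (hρ : 1 ≤ ρ) (hN : ρ ≤ N) {K : Finset (Finset V)} {x : V}
    {P : Finset V} (hx : x ∉ P) : uu ρ N K x P ≤ 1 := by
  rw [uu_eq hx]
  exact Finset.prod_le_one (fun S _ => pw_nonneg hρ hN S) (fun S _ => pw_le_one hρ hN S)

theorem fac_nonneg {ρ N : ℕ} (hρ : 1 ≤ ρ) (hN : ρ ≤ N) {K : Finset (Finset V)} (C : Finset V) :
    0 ≤ fac ρ N K C := by
  rw [fac]
  split_ifs with h
  · obtain ⟨x, hx⟩ := nonempty_iff_ne_empty.mpr h.2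
    rw [← card_erase_of_mem hx]
    exact pw_nonneg hρ hN _
  · exact zero_le_one

theorem wt_nonneg {ρ N : ℕ} (hρ : 1 ≤ ρ) (hN : ρ ≤ N) {K : Finset (Finset V)} (P : Finset V) :
    0 ≤ wt ρ N K P := Finset.prod_nonneg fun C _ => fac_nonneg hρ hN C

/-- Sum of the weights of the sets of size `j`. -/
def ZZ (ρ N : ℕ) (K : Finset (Finset V)) (j : ℕ) : ℝ := ∑ P ∈ powersetCard j univ, wt ρ N K P

/-- The sum of the conditional factors. -/
def DD (ρ N : ℕ) (K : Finset (Finset V)) (W : Finset V) : ℝ := ∑ x ∈ Wᶜ, uu ρ N K x W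

theorem double_count (F : V → Finset V → ℝ) (j : ℕ) :
    ∑ P ∈ powersetCard (j+1) (univ : Finset V), ∑ x ∈ P, F x (P.erase x) =
      ∑ W ∈ powersetCard j (univ : Finset V), ∑ x ∈ Wᶜ, F x W := by
  rw [Finset.sum_sigma', Finset.sum_sigma']
  apply Finset.sum_bij' (fun a _ => (⟨a.1.erase a.2, a.2⟩ : (_ : Finset V) × V))
    (fun a _ => (⟨insert a.2 a.1, a.2⟩ : (_ : Finset V) × V))
  · rintro ⟨P, x⟩ h
    simp only [mem_sigma, mem_powersetCard, subset_univ, true_and] at h ⊢
    refine ⟨by rw [card_erase_of_mem h.2, h.1]; rfl, by simp⟩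
  · rintro ⟨W, x⟩ h
    simp only [mem_sigma, mem_powersetCard, subset_univ, true_and, mem_compl] at h ⊢
    refine ⟨by rw [card_insert_of_notMem h.2, h.1], by simp⟩
  · rintro ⟨P, x⟩ h
    simp only [mem_sigma, mem_powersetCard, subset_univ, true_and] at h
    simp [insert_erase h.2]
  · rintro ⟨W, x⟩ h
    simp only [mem_sigma, mem_powersetCard, subset_univ, true_and, mem_compl] at h
    simp [erase_insert h.2]
  · rintro ⟨P, x⟩ h
    rfl

theorem sum_wt_DD (ρ N : ℕ) (K : Finset (Finset V)) (j : ℕ) :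
    ∑ W ∈ powersetCard j (univ : Finset V), wt ρ N K W * DD ρ N K W =
      ((j : ℝ) + 1) * ZZ ρ N K (j+1) := by
  have h := double_count (fun x W => wt ρ N K W * uu ρ N K x W) j
  have h1 : ∀ W : Finset V, wt ρ N K W * DD ρ N K W = ∑ x ∈ Wᶜ, wt ρ N K W * uu ρ N K x W := by
    intro W; rw [DD, Finset.mul_sum]
  simp only [h1]
  rw [← h, ZZ, Finset.mul_sum]
  apply Finset.sum_congr rfl
  intro P hP
  rw [mem_powersetCard] at hP
  have h2 : ∀ x ∈ P, wt ρ N K (P.erase x) * uu ρ N K x (P.erase x) = wt ρ N K P := by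
    intro x hx
    rw [← wt_insert (notMem_erase x P), insert_erase hx]
  rw [Finset.sum_congr rfl h2]
  simp [hP.2]

theorem point_ineq {ρ N : ℕ} (hρ : 1 ≤ ρ) (hN : ρ ≤ N) {K : Finset (Finset V)} (hK : Lower K)
    (P : Finset V) :
    ((P.card : ℝ) - ρ) * (((Fintype.card V : ℝ) - P.card) - DD ρ N K P) ≤
      ∑ y ∈ P, (((Fintype.card V : ℝ) - P.card) - DD ρ N K (P.erase y) +
        uu ρ N K y (P.erase y)) := by
  have hcompl : ((Pᶜ).card : ℝ) = (Fintype.card V : ℝ) - P.card := by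
    rw [card_compl, Nat.cast_sub (card_le_univ P)]
  have h1 : ∀ x ∈ Pᶜ, ((P.card : ℝ) - ρ) * (1 - uu ρ N K x P) ≤
      ∑ y ∈ P, (1 - uu ρ N K x (P.erase y)) := by
    intro x hx
    rw [mem_compl] at hx
    have h := ineqI hρ hN (lnk_lower hK x P) P (fun S hS => by
      simp only [lnk, mem_filter, mem_powerset] at hS; exact hS.1)
    rw [← uu_eq hx] at h
    refine h.trans (le_of_eq ?_)
    apply Finset.sum_congr rfl
    intro y _
    rw [← lnk_erase, ← uu_eq (fun h => hx (mem_of_mem_erase h))]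
  have h2 := Finset.sum_le_sum h1
  rw [← Finset.mul_sum, Finset.sum_comm] at h2
  have h3 : ∑ x ∈ Pᶜ, (1 - uu ρ N K x P) = ((Fintype.card V : ℝ) - P.card) - DD ρ N K P := by
    rw [Finset.sum_sub_distrib, DD]
    simp [← hcompl]
  rw [h3] at h2
  refine h2.trans (le_of_eq ?_)
  apply Finset.sum_congr rfl
  intro y hy
  rw [Finset.sum_sub_distrib, DD]
  have h4 : (P.erase y)ᶜ = insert y Pᶜ := by
    ext a
    simp only [mem_compl, mem_erase, mem_insert]
    tauto
  rw [h4, Finset.sum_insert (by simpa using hy)]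
  simp only [sum_const, nsmul_eq_mul, mul_one, hcompl]
  ring

theorem chain_ineq {ρ N : ℕ} (hρ : 1 ≤ ρ) (hN : ρ ≤ N) {K : Finset (Finset V)} (hK : Lower K)
    (j : ℕ) (hZ : 0 < ZZ ρ N K j) :
    (((j : ℝ) + 1) - ρ) * (((Fintype.card V : ℝ) - (j+1)) * ZZ ρ N K (j+1) -
        ((j : ℝ) + 2) * ZZ ρ N K (j+2)) ≤
      ((Fintype.card V : ℝ) - j) * (((j : ℝ) + 1) * ZZ ρ N K (j+1)) -
        (((j : ℝ) + 1) * ZZ ρ N K (j+1)) ^ 2 / ZZ ρ N K j := by
  set n : ℝ := (Fintype.card V : ℝ) with hn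
  -- left side
  have hL : (((j : ℝ) + 1) - ρ) * ((n - (j+1)) * ZZ ρ N K (j+1) -
        ((j : ℝ) + 2) * ZZ ρ N K (j+2)) =
      ∑ P ∈ powersetCard (j+1) (univ : Finset V),
        wt ρ N K P * ((((P.card : ℝ)) - ρ) * ((n - P.card) - DD ρ N K P)) := by
    have h1 : ∀ P ∈ powersetCard (j+1) (univ : Finset V),
        wt ρ N K P * ((((P.card : ℝ)) - ρ) * ((n - P.card) - DD ρ N K P)) =
        (((j : ℝ) + 1) - ρ) * ((n - (j+1)) * wt ρ N K P - wt ρ N K P * DD ρ N K P) := by
      intro P hP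
      rw [mem_powersetCard] at hP
      rw [hP.2]
      push_cast
      ring
    rw [Finset.sum_congr rfl h1, ← Finset.mul_sum, Finset.sum_sub_distrib, ← Finset.mul_sum,
      sum_wt_DD]
    rw [ZZ]
    push_cast
    ring_nf
  have hR : ∑ P ∈ powersetCard (j+1) (univ : Finset V),
        wt ρ N K P * ((((P.card : ℝ)) - ρ) * ((n - P.card) - DD ρ N K P)) ≤
      ∑ P ∈ powersetCard (j+1) (univ : Finset V), ∑ y ∈ P,
        (wt ρ N K (P.erase y) * uu ρ N K y (P.erase y) *
          ((n - (j+1)) - DD ρ N K (P.erase y) + uu ρ N K y (P.erase y))) := by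
    apply Finset.sum_le_sum
    intro P hP
    rw [mem_powersetCard] at hP
    have h2 := mul_le_mul_of_nonneg_left (point_ineq hρ hN hK P) (wt_nonneg hρ hN (K := K) P)
    refine h2.trans (le_of_eq ?_)
    rw [Finset.mul_sum]
    apply Finset.sum_congr rfl
    intro y hy
    rw [← wt_insert (notMem_erase y P), insert_erase hy, hP.2]
    push_cast
    ring
  rw [hL]
  refine hR.trans ?_
  rw [double_count (fun y W => wt ρ N K W * uu ρ N K y W * ((n - (j+1)) - DD ρ N K W +
    uu ρ N K y W)) j]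
  have h3 : ∀ W ∈ powersetCard j (univ : Finset V),
      ∑ y ∈ Wᶜ, wt ρ N K W * uu ρ N K y W * ((n - (j+1)) - DD ρ N K W + uu ρ N K y W) ≤
      (n - j) * (wt ρ N K W * DD ρ N K W) - wt ρ N K W * DD ρ N K W ^ 2 := by
    intro W _
    have h4 : ∀ y ∈ Wᶜ, wt ρ N K W * uu ρ N K y W * ((n - (j+1)) - DD ρ N K W + uu ρ N K y W) ≤
        (wt ρ N K W * ((n - j) - DD ρ N K W)) * uu ρ N K y W := by
      intro y hy
      rw [mem_compl] at hy
      have h5 := uu_nonneg hρ hN (K := K) hy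
      have h6 := uu_le_one hρ hN (K := K) hy
      have h7 := wt_nonneg hρ hN (K := K) W
      have h8 : 0 ≤ wt ρ N K W * uu ρ N K y W := mul_nonneg h7 h5
      nlinarith
    refine (Finset.sum_le_sum h4).trans (le_of_eq ?_)
    rw [← Finset.mul_sum]
    rw [show ∑ y ∈ Wᶜ, uu ρ N K y W = DD ρ N K W from rfl]
    ring
  refine (Finset.sum_le_sum h3).trans ?_
  rw [Finset.sum_sub_distrib, ← Finset.mul_sum, sum_wt_DD]
  have h9 : (((j : ℝ) + 1) * ZZ ρ N K (j+1)) ^ 2 / ZZ ρ N K j ≤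
      ∑ W ∈ powersetCard j (univ : Finset V), wt ρ N K W * DD ρ N K W ^ 2 := by
    rw [div_le_iff₀ hZ, ← sum_wt_DD]
    have hcs := Finset.sum_mul_sq_le_sq_mul_sq (powersetCard j (univ : Finset V))
      (fun W => Real.sqrt (wt ρ N K W) * DD ρ N K W) (fun W => Real.sqrt (wt ρ N K W))
    have e1 : ∀ W : Finset V, Real.sqrt (wt ρ N K W) * DD ρ N K W * Real.sqrt (wt ρ N K W) =
        wt ρ N K W * DD ρ N K W := by
      intro W
      have := Real.mul_self_sqrt (wt_nonneg hρ hN (K := K) W)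
      calc _ = (Real.sqrt (wt ρ N K W) * Real.sqrt (wt ρ N K W)) * DD ρ N K W := by ring
        _ = _ := by rw [this]
    have e2 : ∀ W : Finset V, (Real.sqrt (wt ρ N K W) * DD ρ N K W) ^ 2 =
        wt ρ N K W * DD ρ N K W ^ 2 := by
      intro W
      rw [mul_pow, Real.sq_sqrt (wt_nonneg hρ hN (K := K) W)]
    have e3 : ∀ W : Finset V, (Real.sqrt (wt ρ N K W)) ^ 2 = wt ρ N K W := fun W =>
      Real.sq_sqrt (wt_nonneg hρ hN (K := K) W)
    simp only [e1, e2, e3] at hcs
    exact hcs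
  linarith

end

end Pool.Agent.Lib.MP_455133_co
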