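import Mathlib
import Pool.Agent.Lib.MP_455133_co.Moment
import Pool.Agent.Lib.MP_455133_co.Defs

/-!
The lower bound for the shadow obtained from random orders, the Kruskal-Katona theorem and a
tangent line estimate.
-/

namespace Pool.Agent.Lib.MP_455133_co

open Finset FinsetFamily

variable {n : ℕ}

theorem link_kk {I ρ k : ℕ} {𝒜 : Finset (Finset (Fin n))} (v : Fin n) (hρI : ρ ≤ I)
    (hIk : I ≤ k) (hkn : k ≤ n) (h : (linkS 𝒜 v ρ).card < k.choose ρ) :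
    (linkS 𝒜 v I).card ≤ k.choose I := by
  by_contra hlt
  push Not at hlt
  have h1 := Finset.kruskal_katona_lovasz_form (n := n) (i := I - ρ) (r := I) (k := k)
    (𝒜 := linkS 𝒜 v I) (by omega) hIk hkn (by
      intro R hR
      rw [mem_coe, mem_linkS] at hR
      exact hR.1) hlt.le
  have h2 : I - (I - ρ) = ρ := by omega
  rw [h2] at h1
  have hsub : ∂^[I - ρ] (linkS 𝒜 v I) ⊆ linkS 𝒜 v ρ := by
    intro T hT
    rw [mem_shadow_iterate_iff_exists_mem_card_add] at hT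
    obtain ⟨R, hR, hTR, hc⟩ := hT
    rw [mem_linkS] at hR ⊢
    obtain ⟨hRc, A, hA, hvA, hRA⟩ := hR
    exact ⟨by omega, A, hA, hvA, hTR.trans hRA⟩
  have := card_le_card hsub
  omega

theorem link_ge {N ρ : ℕ} {𝒜 : Finset (Finset (Fin n))} (h𝒜 : ∀ A ∈ 𝒜, A.card = N + 1)
    {v : Fin n} (hv : v ∈ supp 𝒜) : N.choose ρ ≤ (linkS 𝒜 v ρ).card := by
  obtain ⟨A, hA, hvA⟩ := mem_supp.mp hv
  have hsub : powersetCard ρ (A.erase v) ⊆ linkS 𝒜 v ρ := by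
    intro R hR
    rw [mem_powersetCard] at hR
    exact mem_linkS.mpr ⟨hR.2, A, hA, hvA, hR.1⟩
  have := card_le_card hsub
  rwa [card_powersetCard, card_erase_of_mem hvA, h𝒜 A hA, Nat.add_sub_cancel] at this

theorem link_le {ρ : ℕ} {𝒜 : Finset (Finset (Fin n))} (v : Fin n) :
    (linkS 𝒜 v ρ).card ≤ (n - 1).choose ρ := by
  have hsub : linkS 𝒜 v ρ ⊆ powersetCard ρ (univ.erase v) := by
    intro R hR
    obtain ⟨hc, A, -, -, hRA⟩ := mem_linkS.mp hR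
    rw [mem_powersetCard]
    exact ⟨hRA.trans (erase_subset_erase _ (subset_univ _)), hc⟩
  have := card_le_card hsub
  rwa [card_powersetCard, card_erase_of_mem (mem_univ v), card_univ, Fintype.card_fin] at this

/-- The integer `k` attached to a vertex. -/
theorem exists_k {N ρ : ℕ} (hρ : 1 ≤ ρ) (hρN : ρ ≤ N) {𝒜 : Finset (Finset (Fin n))}
    (h𝒜 : ∀ A ∈ 𝒜, A.card = N + 1) {v : Fin n} (hv : v ∈ supp 𝒜) :
    ∃ k, N < k ∧ k ≤ n ∧ (linkS 𝒜 v ρ).card < k.choose ρ ∧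
      (k - 1).choose ρ ≤ (linkS 𝒜 v ρ).card := by
  classical
  have hNn : N + 1 ≤ n := by
    obtain ⟨A, hA, -⟩ := mem_supp.mp hv
    have := card_le_univ A
    rw [h𝒜 A hA, Fintype.card_fin] at this
    exact this
  have hex : ∃ k : ℕ, (linkS 𝒜 v ρ).card < k.choose ρ := by
    refine ⟨n, lt_of_le_of_lt (link_le v) ?_⟩
    obtain ⟨m, rfl⟩ : ∃ m, n = m + 1 := ⟨n - 1, by omega⟩
    obtain ⟨σ, rfl⟩ : ∃ σ, ρ = σ + 1 := ⟨ρ - 1, by omega⟩
    rw [Nat.add_sub_cancel, Nat.choose_succ_succ']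
    have : 0 < m.choose σ := Nat.choose_pos (by omega)
    omega
  have hspec := Nat.find_spec hex
  have hmin := fun {m : ℕ} => Nat.find_min hex (m := m)
  set k := Nat.find hex with hk
  have hN : N < k := by
    by_contra hle
    push Not at hle
    have h1 := Nat.choose_le_choose ρ hle
    have h2 := link_ge (ρ := ρ) h𝒜 hv
    omega
  refine ⟨k, hN, ?_, hspec, ?_⟩
  · apply Nat.find_min' hex
    refine lt_of_le_of_lt (link_le v) ?_
    obtain ⟨m, rfl⟩ : ∃ m, n = m + 1 := ⟨n - 1, by omega⟩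
    obtain ⟨σ, rfl⟩ : ∃ σ, ρ = σ + 1 := ⟨ρ - 1, by omega⟩
    rw [Nat.add_sub_cancel, Nat.choose_succ_succ']
    have : 0 < m.choose σ := Nat.choose_pos (by omega)
    omega
  · have := hmin (m := k - 1) (by omega)
    omega

theorem sum_link_le {ρ : ℕ} (𝒜 : Finset (Finset (Fin n))) :
    ∑ v ∈ supp 𝒜, (linkS 𝒜 v ρ).card ≤ (ρ + 1) * (shad (ρ + 1) 𝒜).card := by
  have h1 : ∀ v ∈ supp 𝒜, (linkS 𝒜 v ρ).card ≤
      ((shad (ρ + 1) 𝒜).filter (fun R => v ∈ R)).card := by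
    intro v _
    have hinj : Set.InjOn (fun R : Finset (Fin n) => insert v R)
        (linkS 𝒜 v ρ : Finset (Finset (Fin n))) := by
      intro R hR R' hR' h
      rw [mem_coe, mem_linkS] at hR hR'
      obtain ⟨-, A, -, -, hRA⟩ := hR
      obtain ⟨-, A', -, -, hRA'⟩ := hR'
      have e1 : v ∉ R := fun h => absurd (hRA h) (notMem_erase _ _)
      have e2 : v ∉ R' := fun h => absurd (hRA' h) (notMem_erase _ _)
      simp only at h
      rw [← erase_insert e1, ← erase_insert e2, h]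
    have himg : (linkS 𝒜 v ρ).image (fun R => insert v R) ⊆
        (shad (ρ + 1) 𝒜).filter (fun R => v ∈ R) := by
      intro T hT
      rw [mem_image] at hT
      obtain ⟨R, hR, rfl⟩ := hT
      obtain ⟨hc, A, hA, hvA, hRA⟩ := mem_linkS.mp hR
      have e1 : v ∉ R := fun h => absurd (hRA h) (notMem_erase _ _)
      rw [mem_filter, mem_shad]
      refine ⟨⟨by rw [card_insert_of_notMem e1, hc], A, hA, ?_⟩, mem_insert_self _ _⟩
      exact insert_subset hvA (hRA.trans (erase_subset _ _))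
    rw [← card_image_of_injOn hinj]
    exact card_le_card himg
  refine (sum_le_sum h1).trans ?_
  have h2 : ∑ v ∈ supp 𝒜, ((shad (ρ + 1) 𝒜).filter (fun R => v ∈ R)).card ≤
      ∑ v, ((shad (ρ + 1) 𝒜).filter (fun R => v ∈ R)).card :=
    sum_le_sum_of_subset_of_nonneg (subset_univ _) (fun _ _ _ => Nat.zero_le _)
  refine h2.trans (le_of_eq ?_)
  simp only [card_filter]
  rw [sum_comm]
  have h3 : ∀ R ∈ shad (ρ + 1) 𝒜, (∑ v, if v ∈ R then 1 else 0) = ρ + 1 := by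
    intro R hR
    rw [← card_filter, ← (mem_shad.mp hR).1]
    congr 1
    ext x; simp
  rw [sum_congr rfl h3, sum_const, smul_eq_mul, mul_comm]

theorem prU_one {𝒜 : Finset (Finset (Fin n))} {v : Fin n} (hv : v ∉ supp 𝒜) :
    prU 𝒜 v = 1 := by
  have hnpos : 0 < n := Fin.pos v
  rw [prU_eq]
  have h0 : ∀ j, blk 𝒜 v j = ∅ := by
    intro j
    rw [blk, filter_eq_empty_iff]
    rintro J _ ⟨A, hA, hvA, -⟩
    exact hv (mem_supp.mpr ⟨A, hA, hvA⟩)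
  simp only [h0, card_empty, Nat.cast_zero, zero_div, sub_zero, sum_const, card_range,
    Fintype.card_fin, nsmul_eq_mul]
  have : n - 1 + 1 = n := by omega
  rw [this]
  have : (n : ℝ) ≠ 0 := by exact_mod_cast hnpos.ne'
  field_simp

theorem free_card {s t : ℕ} {𝒜 : Finset (Finset (Fin n))} (h : IsCovering s t 𝒜)
    {U : Finset (Fin n)} (hU : ∀ A ∈ 𝒜, ¬ A ⊆ U) : U.card < t := by
  by_contra hge
  push Not at hge
  obtain ⟨C, hC, hCt⟩ := exists_subset_card_eq hge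
  obtain ⟨A, hA, hAC⟩ := h.2 C hCt
  exact hU A hA (hAC.trans hC)

theorem supp_card {N t : ℕ} (htn : t ≤ n) {𝒜 : Finset (Finset (Fin n))}
    (h : IsCovering (N + 1) t 𝒜) : n + 1 + N ≤ (supp 𝒜).card + t := by
  have hne : 𝒜.Nonempty := by
    obtain ⟨C, -, hC⟩ := exists_subset_card_eq (s := (univ : Finset (Fin n))) (n := t)
      (by simpa using htn)
    obtain ⟨A, hA, -⟩ := h.2 C hC
    exact ⟨A, hA⟩
  obtain ⟨A, hA⟩ := hne
  have hAs : A ⊆ supp 𝒜 := fun x hx => mem_supp.mpr ⟨A, hA, hx⟩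
  have h1 := card_le_card hAs
  rw [h.1 A hA] at h1
  obtain ⟨T, hT, hTc⟩ := exists_subset_card_eq (s := supp 𝒜) (n := N) (by omega)
  have hfree : ∀ B ∈ 𝒜, ¬ B ⊆ (supp 𝒜)ᶜ ∪ T := by
    intro B hB hBU
    have hBT : B ⊆ T := by
      intro x hx
      rcases mem_union.mp (hBU hx) with h' | h'
      · exact absurd (mem_supp.mpr ⟨B, hB, hx⟩) (mem_compl.mp h')
      · exact h'
    have := card_le_card hBT
    rw [h.1 B hB] at this
    omega
  have h2 := free_card h hfree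
  have hdis : Disjoint (supp 𝒜)ᶜ T := by
    rw [disjoint_left]
    intro x hx hx'
    exact mem_compl.mp hx (hT hx')
  rw [card_union_of_disjoint hdis, card_compl, Fintype.card_fin, hTc] at h2
  have := card_le_univ (supp 𝒜)
  rw [Fintype.card_fin] at this
  omega

theorem sum_prU_supp {s t : ℕ} {𝒜 : Finset (Finset (Fin n))} (hs : 1 ≤ s)
    (h : IsCovering s t 𝒜) :
    ∑ v ∈ supp 𝒜, prU 𝒜 v ≤ ((supp 𝒜).card : ℝ) - ((n : ℝ) - t + 1) := by
  have h0 : ∅ ∉ 𝒜 := by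
    intro h0
    have := h.1 ∅ h0
    rw [card_empty] at this
    omega
  obtain ⟨U, -, hU, hUW⟩ := exists_free 𝒜 h0 (univ : Finset (Fin n)).card univ rfl
  have h1 := free_card h hU
  rw [W_univ] at hUW
  have h2 : ∑ v, prU 𝒜 v = ∑ v ∈ supp 𝒜, prU 𝒜 v + ∑ v ∈ (supp 𝒜)ᶜ, prU 𝒜 v := by
    rw [sum_add_sum_compl]
  have h3 : ∑ v ∈ (supp 𝒜)ᶜ, prU 𝒜 v = (n : ℝ) - (supp 𝒜).card := by
    rw [sum_congr rfl (fun v hv => prU_one (mem_compl.mp hv)), sum_const, nsmul_eq_mul, mul_one,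
      card_compl, Fintype.card_fin, Nat.cast_sub]
    have := card_le_univ (supp 𝒜)
    rwa [Fintype.card_fin] at this
  have h4 : (U.card : ℝ) + 1 ≤ t := by exact_mod_cast h1
  rw [h2, h3] at hUW
  linarith

/-- Tangent inequality. -/
theorem tangent_ineq {ρ : ℕ} (hρ : 1 ≤ ρ) {i0 y y0 : ℝ} (hi : 0 ≤ i0) (hy : 0 < y)
    (hy0 : 0 < y0) :
    (i0 + y0) ^ (ρ - 1) * ((i0 + y0) + ρ * y0 - ρ * y0 ^ 2 / y) ≤ (i0 + y) ^ ρ := by
  set A := i0 + y0 with hA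
  set B := i0 + y with hB
  have hA0 : 0 < A := by linarith
  have hB0 : 0 < B := by linarith
  have h1 : 1 + (ρ : ℝ) * ((B - A) / A) ≤ (1 + (B - A) / A) ^ ρ := by
    apply one_add_mul_le_pow
    have : -1 ≤ (B - A) / A := by rw [le_div_iff₀ hA0]; linarith
    linarith
  have h2 : (1 + (B - A) / A) = B / A := by field_simp; ring
  rw [h2, div_pow, le_div_iff₀ (by positivity)] at h1
  obtain ⟨σ, rfl⟩ : ∃ σ, ρ = σ + 1 := ⟨ρ - 1, by omega⟩
  rw [Nat.add_sub_cancel]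
  have h3 : (1 + ((σ + 1 : ℕ) : ℝ) * ((B - A) / A)) * A ^ (σ + 1) =
      A ^ σ * (A + ((σ + 1 : ℕ) : ℝ) * (B - A)) := by
    rw [pow_succ]; field_simp
  rw [h3] at h1
  refine le_trans ?_ h1
  apply mul_le_mul_of_nonneg_left _ (by positivity)
  have h4 : y0 - y0 ^ 2 / y ≤ y - y0 := by
    have : y0 ^ 2 / y = y0 ^ 2 / y := rfl
    rw [sub_le_iff_le_add, ← sub_le_iff_le_add', le_div_iff₀ hy]
    nlinarith [sq_nonneg (y - y0)]
  have h5 : B - A = y - y0 := by rw [hA, hB]; ring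
  rw [h5]
  have h6 : (0 : ℝ) ≤ ((σ + 1 : ℕ) : ℝ) := by positivity
  have h7 := mul_le_mul_of_nonneg_left h4 h6
  have h8 : ((σ + 1 : ℕ) : ℝ) * (y0 - y0 ^ 2 / y) =
      ((σ + 1 : ℕ) : ℝ) * y0 - ((σ + 1 : ℕ) : ℝ) * y0 ^ 2 / y := by ring
  linarith

/-- The main inequality. -/
theorem main_T {N ρ t I : ℕ} (hρ : 1 ≤ ρ) (hρI : ρ ≤ I) (hI2 : 2 ≤ I) (hIN : I ≤ N)
    (htn : t < n) {𝒜 : Finset (Finset (Fin n))} (h : IsCovering (N + 1) t 𝒜) {a M y0 : ℝ}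
    (ha : a = ((I : ℝ) / (I + 1)) * (((n : ℝ) - 1) / n)) (hM : M = (N : ℝ) - I + 1)
    (hy0 : 0 < y0) :
    (N.choose ρ : ℝ) / (N : ℝ) ^ ρ * (((I : ℝ) - 2 + y0) ^ (ρ - 1) *
      (((supp 𝒜).card : ℝ) * (((I : ℝ) - 2 + y0) + ρ * y0 - ρ * y0 ^ 2 / (a * M)) +
        ρ * y0 ^ 2 * ((n : ℝ) - t + 1) / (a * M))) ≤
      ((ρ : ℝ) + 1) * ((shad (ρ + 1) 𝒜).card : ℝ) := by
  have hsupp := supp_card htn.le h
  have hNn : N + 2 ≤ n := by
    have := card_le_univ (supp 𝒜)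
    rw [Fintype.card_fin] at this
    omega
  have hNR : (0 : ℝ) < N := by exact_mod_cast (by omega : 0 < N)
  have hIR : (2 : ℝ) ≤ I := by exact_mod_cast hI2
  have hINR : (I : ℝ) ≤ N := by exact_mod_cast hIN
  have hnR : (2 : ℝ) ≤ n := by exact_mod_cast (by omega : 2 ≤ n)
  have ha0 : 0 < a := by
    rw [ha]
    have : (0 : ℝ) < (n : ℝ) - 1 := by linarith
    positivity
  have hM0 : 0 < M := by rw [hM]; linarith
  have haM : 0 < a * M := mul_pos ha0 hM0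
  have hNc : (0 : ℝ) < (N.choose ρ : ℝ) := by
    exact_mod_cast Nat.choose_pos (by omega)
  set A := (I : ℝ) - 2 + y0 with hA
  have hA0 : 0 < A := by rw [hA]; linarith
  -- vertexwise
  have hvert : ∀ v ∈ supp 𝒜, (N.choose ρ : ℝ) / (N : ℝ) ^ ρ *
      (A ^ (ρ - 1) * (A + ρ * y0 - ρ * y0 ^ 2 * (prU 𝒜 v / (a * M)))) ≤
      ((linkS 𝒜 v ρ).card : ℝ) := by
    intro v hv
    obtain ⟨k, hNk, hkn, hk1, hk2⟩ := exists_k hρ (by omega) h.1 hv
    have hkk := link_kk v hρI (by omega) hkn hk1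
    have hp := prU_ge h.1 v hIN hNk (by rw [Fintype.card_fin]; omega) hkk
    rw [Fintype.card_fin, ← ha, ← hM] at hp
    have hkR : (N : ℝ) + 1 ≤ k := by exact_mod_cast hNk
    set y : ℝ := (k : ℝ) - I + 1 with hy
    have hy1 : 0 < y := by rw [hy]; linarith
    have htan := tangent_ineq hρ (by linarith : (0 : ℝ) ≤ (I : ℝ) - 2) hy1 hy0
    rw [← hA] at htan
    have hB : (I : ℝ) - 2 + y = ((k - 1 : ℕ) : ℝ) := by
      rw [hy, Nat.cast_sub (by omega)]; push_cast; ring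
    rw [hB] at htan
    have h1 : A + ρ * y0 - ρ * y0 ^ 2 * (prU 𝒜 v / (a * M)) ≤ A + ρ * y0 - ρ * y0 ^ 2 / y := by
      have h2 : 1 / y ≤ prU 𝒜 v / (a * M) := by
        rw [div_le_div_iff₀ hy1 haM]
        rw [← mul_div_assoc, div_le_iff₀ hy1] at hp
        linarith
      have h3 : (0 : ℝ) ≤ ρ * y0 ^ 2 := by positivity
      have h4 := mul_le_mul_of_nonneg_left h2 h3
      have h5 : (ρ : ℝ) * y0 ^ 2 * (1 / y) = ρ * y0 ^ 2 / y := by ring
      linarith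
    have h6 : A ^ (ρ - 1) * (A + ρ * y0 - ρ * y0 ^ 2 * (prU 𝒜 v / (a * M))) ≤
        ((k - 1 : ℕ) : ℝ) ^ ρ :=
      le_trans (mul_le_mul_of_nonneg_left h1 (by positivity)) htan
    have h7 : (N.choose ρ : ℝ) * ((k - 1 : ℕ) : ℝ) ^ ρ ≤
        ((k - 1).choose ρ : ℝ) * (N : ℝ) ^ ρ := by
      exact_mod_cast choose_ratio_le' (I := ρ) (m := N) (b := k - 1) (by omega)
    calc (N.choose ρ : ℝ) / (N : ℝ) ^ ρ *
        (A ^ (ρ - 1) * (A + ρ * y0 - ρ * y0 ^ 2 * (prU 𝒜 v / (a * M))))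
        ≤ (N.choose ρ : ℝ) / (N : ℝ) ^ ρ * ((k - 1 : ℕ) : ℝ) ^ ρ :=
          mul_le_mul_of_nonneg_left h6 (by positivity)
      _ = (N.choose ρ : ℝ) * ((k - 1 : ℕ) : ℝ) ^ ρ / (N : ℝ) ^ ρ := by ring
      _ ≤ ((k - 1).choose ρ : ℝ) := by rw [div_le_iff₀ (by positivity)]; exact h7
      _ ≤ ((linkS 𝒜 v ρ).card : ℝ) := by exact_mod_cast hk2
  have hsum := sum_le_sum hvert
  have hd : ∑ v ∈ supp 𝒜, ((linkS 𝒜 v ρ).card : ℝ) ≤
      ((ρ : ℝ) + 1) * ((shad (ρ + 1) 𝒜).card : ℝ) := by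
    exact_mod_cast sum_link_le (ρ := ρ) 𝒜
  refine le_trans ?_ (hsum.trans hd)
  rw [← mul_sum, ← mul_sum]
  apply mul_le_mul_of_nonneg_left _ (by positivity)
  apply mul_le_mul_of_nonneg_left _ (by positivity)
  rw [sum_sub_distrib, ← mul_sum, ← sum_div, sum_const, nsmul_eq_mul]
  have hpr := sum_prU_supp (by omega) h
  have h3 : (0 : ℝ) ≤ ρ * y0 ^ 2 / (a * M) := by positivity
  have h4 := mul_le_mul_of_nonneg_left hpr h3
  have e1 : (ρ : ℝ) * y0 ^ 2 * ((∑ v ∈ supp 𝒜, prU 𝒜 v) / (a * M)) =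
      ρ * y0 ^ 2 / (a * M) * (∑ v ∈ supp 𝒜, prU 𝒜 v) := by ring
  have e2 : ((supp 𝒜).card : ℝ) * (A + ρ * y0 - ρ * y0 ^ 2 / (a * M)) +
        ρ * y0 ^ 2 * ((n : ℝ) - t + 1) / (a * M) =
      ((supp 𝒜).card : ℝ) * (A + ρ * y0) -
        ρ * y0 ^ 2 / (a * M) * (((supp 𝒜).card : ℝ) - ((n : ℝ) - t + 1)) := by ring
  rw [e1, e2]
  linarith

end Pool.Agent.Lib.MP_455133_co
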