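import Mathlib
import Pool.Agent.Lib.MP_455133_co.Tangent

/-!
Lower bounds in the three regimes, with explicit small parameter `η`.
-/

namespace Pool.Agent.Lib.MP_455133_co

open Finset

/-- Bernoulli in the form used below. -/
theorem pow_one_sub_ge {ρ : ℕ} (hρ : 1 ≤ ρ) {x : ℝ} (hx : x / ρ ≤ 1) :
    1 - x ≤ (1 - x / ρ) ^ ρ := by
  have hρR : (0 : ℝ) < ρ := by exact_mod_cast hρ
  have h := one_add_mul_le_pow (a := -(x / ρ)) (by linarith) ρ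
  have e : 1 + (ρ : ℝ) * (-(x / ρ)) = 1 - x := by field_simp; ring
  rw [e] at h
  have e2 : 1 + -(x / ρ) = 1 - x / (ρ : ℝ) := by ring
  rwa [e2] at h

/-- choice of `I` -/
theorem exists_I {ρ N : ℕ} {η : ℝ} (hρ : 1 ≤ ρ) (hη : 0 < η) (hη1 : η ≤ 1 / 20)
    (h : (ρ : ℝ) ≤ η ^ 2 / 2 * N) :
    ∃ I : ℕ, ρ ≤ I ∧ 2 ≤ I ∧ I ≤ N ∧ (ρ : ℝ) / η ≤ I ∧ (I : ℝ) ≤ 2 * ρ / η ∧ (I : ℝ) ≤ η * N := by
  have hρR : (1 : ℝ) ≤ ρ := by exact_mod_cast hρ
  have h1 : 20 ≤ (ρ : ℝ) / η := by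
    rw [le_div_iff₀ hη]; nlinarith
  refine ⟨⌈(ρ : ℝ) / η⌉₊, ?_, ?_, ?_, Nat.le_ceil _, ?_, ?_⟩
  · have : (ρ : ℝ) ≤ ρ / η := by
      rw [le_div_iff₀ hη]; nlinarith
    exact_mod_cast this.trans (Nat.le_ceil _)
  · have : (2 : ℝ) ≤ (⌈(ρ : ℝ) / η⌉₊ : ℝ) := le_trans (by linarith) (Nat.le_ceil _)
    exact_mod_cast this
  · have h2 : (⌈(ρ : ℝ) / η⌉₊ : ℝ) < ρ / η + 1 := Nat.ceil_lt_add_one (by positivity)
    have h3 : (ρ : ℝ) / η + 1 ≤ 2 * ρ / η := by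
      rw [mul_div_assoc]; linarith
    have h4 : 2 * (ρ : ℝ) / η ≤ η * N := by
      rw [div_le_iff₀ hη]; nlinarith
    have h5 : η * (N : ℝ) ≤ N := by
      have : (0 : ℝ) ≤ N := by positivity
      nlinarith
    have : (⌈(ρ : ℝ) / η⌉₊ : ℝ) ≤ N := by linarith
    exact_mod_cast this
  · have h2 : (⌈(ρ : ℝ) / η⌉₊ : ℝ) < ρ / η + 1 := Nat.ceil_lt_add_one (by positivity)
    have h3 : (ρ : ℝ) / η + 1 ≤ 2 * ρ / η := by
      rw [mul_div_assoc]; linarith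
    linarith
  · have h2 : (⌈(ρ : ℝ) / η⌉₊ : ℝ) < ρ / η + 1 := Nat.ceil_lt_add_one (by positivity)
    have h3 : (ρ : ℝ) / η + 1 ≤ 2 * ρ / η := by
      rw [mul_div_assoc]; linarith
    have h4 : 2 * (ρ : ℝ) / η ≤ η * N := by
      rw [div_le_iff₀ hη]; nlinarith
    linarith

section

variable {n N ρ t I : ℕ} {η : ℝ}

/-- basic estimates on `a` and `M` -/
theorem a_est (hρ : 1 ≤ ρ) (hη : 0 < η) (hη1 : η ≤ 1 / 20) (hNn : N ≤ n)
    (h : (ρ : ℝ) ≤ η ^ 2 / 2 * N) (hI : (ρ : ℝ) / η ≤ I) (hI0 : 2 ≤ I) {a : ℝ}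
    (ha : a = ((I : ℝ) / (I + 1)) * (((n : ℝ) - 1) / n)) :
    1 - 2 * η / ρ ≤ a ∧ a ≤ 1 ∧ 1 / (N : ℝ) ≤ η / ρ ∧ (0 : ℝ) < N := by
  have hρR : (1 : ℝ) ≤ ρ := by exact_mod_cast hρ
  have hN0 : (0 : ℝ) < N := by
    by_contra hle
    push Not at hle
    have : η ^ 2 / 2 * (N : ℝ) ≤ 0 := mul_nonpos_of_nonneg_of_nonpos (by positivity) hle
    linarith
  have hNnR : (N : ℝ) ≤ n := by exact_mod_cast hNn
  have hn0 : (0 : ℝ) < n := by linarith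
  have h1N : 1 / (N : ℝ) ≤ η / ρ := by
    rw [div_le_div_iff₀ hN0 (by linarith)]
    nlinarith [mul_pos hη hN0, sq_nonneg η]
  have h1n : 1 / (n : ℝ) ≤ η / ρ := le_trans (one_div_le_one_div_of_le hN0 hNnR) h1N
  have hIR : (2 : ℝ) ≤ I := by exact_mod_cast hI0
  have h1I : 1 / ((I : ℝ) + 1) ≤ η / ρ := by
    rw [div_le_iff₀ hη] at hI
    rw [div_le_div_iff₀ (by linarith) (by linarith)]
    nlinarith
  have e1 : (I : ℝ) / (I + 1) = 1 - 1 / ((I : ℝ) + 1) := by field_simp; ring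
  have e2 : ((n : ℝ) - 1) / n = 1 - 1 / (n : ℝ) := by field_simp
  have p1 : 0 < 1 / ((I : ℝ) + 1) := by positivity
  have p2 : 0 < 1 / (n : ℝ) := by positivity
  have hsmall : η / ρ ≤ 1 := by
    rw [div_le_one (by linarith)]; linarith
  refine ⟨?_, ?_, h1N, hN0⟩
  · rw [ha, e1, e2]
    have : 2 * η / (ρ : ℝ) = 2 * (η / ρ) := by ring
    rw [this]
    nlinarith
  · rw [ha, e1, e2]
    nlinarith

/-- regime B -/
theorem lower_B (hρ : 1 ≤ ρ) (hη : 0 < η) (hη1 : η ≤ 1 / 20)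
    (h : (ρ : ℝ) ≤ η ^ 2 / 2 * N) (htn : t < n) {𝒜 : Finset (Finset (Fin n))}
    (h𝒜 : IsCovering (N + 1) t 𝒜) :
    (1 - 7 * η) * ((N.choose ρ : ℝ) * (((n : ℝ) - t + 1) *
      (((ρ : ℝ) + 1) ^ (ρ + 1) / (ρ : ℝ) ^ ρ))) ≤
      ((ρ : ℝ) + 1) * ((shad (ρ + 1) 𝒜).card : ℝ) := by
  obtain ⟨I, hρI, hI2, hIN, hI1, -, hIη⟩ := exists_I hρ hη hη1 h
  have hsupp := supp_card htn.le h𝒜
  have hNn : N ≤ n := by
    have := card_le_univ (supp 𝒜)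
    rw [Fintype.card_fin] at this
    omega
  obtain ⟨a, ha⟩ : ∃ a : ℝ, a = ((I : ℝ) / (I + 1)) * (((n : ℝ) - 1) / n) := ⟨_, rfl⟩
  obtain ⟨M, hM⟩ : ∃ M : ℝ, M = (N : ℝ) - I + 1 := ⟨_, rfl⟩
  obtain ⟨ha1, ha2, h1N, hN0⟩ := a_est hρ hη hη1 hNn h hI1 hI2 ha
  have hρR : (1 : ℝ) ≤ ρ := by exact_mod_cast hρ
  have hηρ : η / ρ ≤ η := by
    rw [div_le_iff₀ (by linarith)]; nlinarith
  have hηρ0 : 0 < η / ρ := by positivity
  have e2η : 2 * η / (ρ : ℝ) = 2 * (η / ρ) := by ring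
  have ha0 : 0 < a := by rw [e2η] at ha1; linarith
  have hIR : (2 : ℝ) ≤ I := by exact_mod_cast hI2
  have hM0 : 0 < M := by
    rw [hM]
    have : (I : ℝ) ≤ N := by exact_mod_cast hIN
    linarith
  obtain ⟨y0, hy0⟩ : ∃ y0 : ℝ, y0 = ((ρ : ℝ) + 1) / ρ * (a * M) := ⟨_, rfl⟩
  have hy0pos : 0 < y0 := by rw [hy0]; positivity
  have hT := main_T hρ hρI hI2 hIN htn h𝒜 ha hM hy0pos
  have hc : (0 : ℝ) < (n : ℝ) - t + 1 := by
    have : (t : ℝ) < n := by exact_mod_cast htn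
    linarith
  have hK : ((I : ℝ) - 2 + y0) + ρ * y0 - ρ * y0 ^ 2 / (a * M) = (I : ℝ) - 2 := by
    rw [hy0]; field_simp; ring
  rw [hK] at hT
  have h1 : ρ * y0 ^ 2 * ((n : ℝ) - t + 1) / (a * M) =
      ((ρ : ℝ) + 1) ^ 2 / ρ * (a * M) * ((n : ℝ) - t + 1) := by
    rw [hy0]; field_simp
  rw [h1] at hT
  obtain ⟨A, hA⟩ : ∃ A : ℝ, A = (I : ℝ) - 2 + y0 := ⟨_, rfl⟩
  rw [← hA] at hT
  have hA0 : 0 < A := by rw [hA]; linarith
  have hNc : (0 : ℝ) ≤ (N.choose ρ : ℝ) := by positivity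
  -- A ≥ ((ρ+1)N/ρ)(1 - 4η/ρ)
  have hAge : ((ρ : ℝ) + 1) / ρ * N * (1 - 4 * η / ρ) ≤ A := by
    have h2 : I / ((N : ℝ) * ((ρ : ℝ) + 1)) ≤ η / ρ := by
      rw [div_le_div_iff₀ (by positivity) (by linarith)]
      nlinarith
    have h3 : A = ((ρ : ℝ) + 1) / ρ * N * (a - a * ((I : ℝ) - 1) / N +
        (ρ / ((ρ : ℝ) + 1)) * (((I : ℝ) - 2) / N)) := by
      rw [hA, hy0, hM]; field_simp; ring
    rw [h3]
    apply mul_le_mul_of_nonneg_left _ (by positivity)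
    have h4 : a * ((I : ℝ) - 1) / N ≤ ((I : ℝ) - 1) / N := by
      apply div_le_div_of_nonneg_right _ hN0.le
      nlinarith
    have h5 : ((I : ℝ) - 1) / N - (ρ / ((ρ : ℝ) + 1)) * (((I : ℝ) - 2) / N) =
        1 / N + (I / ((N : ℝ) * ((ρ : ℝ) + 1)) - 2 / ((N : ℝ) * ((ρ : ℝ) + 1))) := by
      field_simp; ring
    have h6 : 0 < 2 / ((N : ℝ) * ((ρ : ℝ) + 1)) := by positivity
    have e4 : 4 * η / (ρ : ℝ) = 4 * (η / ρ) := by ring
    rw [e4]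
    rw [e2η] at ha1
    linarith
  have hpow : (((ρ : ℝ) + 1) / ρ * N) ^ (ρ - 1) * (1 - 4 * η) ≤ A ^ (ρ - 1) := by
    have hs : 4 * η / (ρ : ℝ) ≤ 1 := by
      rw [div_le_one (by linarith)]; linarith
    have h2 : 0 ≤ 1 - 4 * η / (ρ : ℝ) := by linarith
    calc (((ρ : ℝ) + 1) / ρ * N) ^ (ρ - 1) * (1 - 4 * η)
        ≤ (((ρ : ℝ) + 1) / ρ * N) ^ (ρ - 1) * (1 - 4 * η / ρ) ^ (ρ - 1) := by
          apply mul_le_mul_of_nonneg_left _ (by positivity)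
          refine (pow_one_sub_ge hρ hs).trans ?_
          have h3 : 0 ≤ 4 * η / (ρ : ℝ) := by positivity
          exact pow_le_pow_of_le_one h2 (by linarith) (Nat.sub_le _ _)
      _ = (((ρ : ℝ) + 1) / ρ * N * (1 - 4 * η / ρ)) ^ (ρ - 1) := by rw [← mul_pow]
      _ ≤ A ^ (ρ - 1) := pow_le_pow_left₀ (by positivity) hAge _
  -- aM/N ≥ 1 - 3η
  have haM : (1 - 3 * η) * N ≤ a * M := by
    rw [e2η] at ha1
    have h2 : N * (1 - η) ≤ M := by rw [hM]; linarith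
    have h3 : 1 - 2 * η ≤ a := by linarith
    calc (1 - 3 * η) * N ≤ (1 - 2 * η) * (N * (1 - η)) := by nlinarith [mul_pos hη hN0]
      _ ≤ a * M := mul_le_mul h3 h2 (by nlinarith) ha0.le
  have hfin : (1 - 7 * η) * ((N.choose ρ : ℝ) * (((n : ℝ) - t + 1) *
      (((ρ : ℝ) + 1) ^ (ρ + 1) / (ρ : ℝ) ^ ρ))) ≤
      (N.choose ρ : ℝ) / (N : ℝ) ^ ρ * (A ^ (ρ - 1) *
        (((supp 𝒜).card : ℝ) * ((I : ℝ) - 2) +
        ((ρ : ℝ) + 1) ^ 2 / ρ * (a * M) * ((n : ℝ) - t + 1))) := by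
    obtain ⟨σ, hσ⟩ : ∃ σ, ρ = σ + 1 := ⟨ρ - 1, by omega⟩
    have hσ' : ρ - 1 = σ := by omega
    rw [hσ'] at hpow ⊢
    have hid : (N.choose ρ : ℝ) * (((n : ℝ) - t + 1) *
      (((ρ : ℝ) + 1) ^ (ρ + 1) / (ρ : ℝ) ^ ρ)) = (N.choose ρ : ℝ) / (N : ℝ) ^ ρ *
      ((((ρ : ℝ) + 1) / ρ * N) ^ σ * (((ρ : ℝ) + 1) ^ 2 / ρ * N * ((n : ℝ) - t + 1))) := by
      have e1 : ((ρ : ℝ) + 1) ^ (ρ + 1) = ((ρ : ℝ) + 1) ^ σ * ((ρ : ℝ) + 1) ^ 2 := by
        rw [← pow_add]; congr 1; omega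
      have e2 : (ρ : ℝ) ^ ρ = (ρ : ℝ) ^ σ * ρ := by
        rw [← pow_succ, ← hσ]
      have e3 : (N : ℝ) ^ ρ = (N : ℝ) ^ σ * N := by
        rw [← pow_succ, ← hσ]
      rw [e1, e2, e3, mul_pow, div_pow]
      field_simp
    rw [hid]
    have h8 : (((ρ : ℝ) + 1) / ρ * N) ^ σ * (1 - 4 * η) *
        ((1 - 3 * η) * (((ρ : ℝ) + 1) ^ 2 / ρ * N * ((n : ℝ) - t + 1))) ≤
        A ^ σ * (((supp 𝒜).card : ℝ) * ((I : ℝ) - 2) +
        ((ρ : ℝ) + 1) ^ 2 / ρ * (a * M) * ((n : ℝ) - t + 1)) := by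
      apply mul_le_mul hpow _ _ (by positivity)
      · have h9 : (1 - 3 * η) * (((ρ : ℝ) + 1) ^ 2 / ρ * N * ((n : ℝ) - t + 1)) ≤
            ((ρ : ℝ) + 1) ^ 2 / ρ * (a * M) * ((n : ℝ) - t + 1) := by
          calc (1 - 3 * η) * (((ρ : ℝ) + 1) ^ 2 / ρ * N * ((n : ℝ) - t + 1)) =
              ((ρ : ℝ) + 1) ^ 2 / ρ * ((1 - 3 * η) * N) * ((n : ℝ) - t + 1) := by ring
            _ ≤ _ := by
              apply mul_le_mul_of_nonneg_right _ hc.le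
              exact mul_le_mul_of_nonneg_left haM (by positivity)
        have h10 : 0 ≤ ((supp 𝒜).card : ℝ) * ((I : ℝ) - 2) :=
          mul_nonneg (by positivity) (by linarith)
        linarith
      · apply mul_nonneg (by linarith) (by positivity)
    have h9 : (1 - 7 * η) * ((((ρ : ℝ) + 1) / ρ * N) ^ σ *
        (((ρ : ℝ) + 1) ^ 2 / ρ * N * ((n : ℝ) - t + 1))) ≤
        (((ρ : ℝ) + 1) / ρ * N) ^ σ * (1 - 4 * η) *
        ((1 - 3 * η) * (((ρ : ℝ) + 1) ^ 2 / ρ * N * ((n : ℝ) - t + 1))) := by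
      have h10 : (0 : ℝ) ≤ (((ρ : ℝ) + 1) / ρ * N) ^ σ *
        (((ρ : ℝ) + 1) ^ 2 / ρ * N * ((n : ℝ) - t + 1)) := by positivity
      have h11 : (1 - 7 * η) ≤ (1 - 4 * η) * (1 - 3 * η) := by nlinarith
      calc _ ≤ ((1 - 4 * η) * (1 - 3 * η)) * ((((ρ : ℝ) + 1) / ρ * N) ^ σ *
          (((ρ : ℝ) + 1) ^ 2 / ρ * N * ((n : ℝ) - t + 1))) := mul_le_mul_of_nonneg_right h11 h10
        _ = _ := by ring
    calc _ = (N.choose ρ : ℝ) / (N : ℝ) ^ ρ * ((1 - 7 * η) * ((((ρ : ℝ) + 1) / ρ * N) ^ σ *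
        (((ρ : ℝ) + 1) ^ 2 / ρ * N * ((n : ℝ) - t + 1)))) := by ring
      _ ≤ _ := mul_le_mul_of_nonneg_left (h9.trans h8) (by positivity)
  exact hfin.trans hT

/-- the ratio inequality near the boundary of the regimes -/
theorem ratio_exp (hρ : 1 ≤ ρ) {c D : ℝ} (hc : 0 < c) (hD : 0 < D) (hw : D ≤ ρ * c) :
    (c + D) * ((c + D) / D) ^ ρ ≤
      Real.exp (ρ * c / D - 1) * (c * (((ρ : ℝ) + 1) ^ (ρ + 1) / (ρ : ℝ) ^ ρ)) := by
  have hρR : (1 : ℝ) ≤ ρ := by exact_mod_cast hρ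
  obtain ⟨w, hwdef⟩ : ∃ w : ℝ, w = ρ * c / D := ⟨_, rfl⟩
  have hw1 : 1 ≤ w := by rw [hwdef, le_div_iff₀ hD]; linarith
  rw [← hwdef]
  have e1 : (c + D) / D = (ρ + w) / ρ := by rw [hwdef]; field_simp; ring
  have e2 : c + D = c * (ρ + w) / w := by rw [hwdef]; field_simp; ring
  have e3 : (c + D) * ((c + D) / D) ^ ρ = c * (((ρ : ℝ) + w) ^ (ρ + 1) / (ρ : ℝ) ^ ρ) / w := by
    rw [e1, e2, div_pow, pow_succ]; field_simp
  rw [e3]
  have h1 : ((ρ : ℝ) + w) ^ (ρ + 1) ≤ ((ρ : ℝ) + 1) ^ (ρ + 1) * Real.exp (w - 1) := by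
    have h2 : (ρ : ℝ) + w ≤ ((ρ : ℝ) + 1) * Real.exp ((w - 1) / ((ρ : ℝ) + 1)) := by
      have h3 := Real.add_one_le_exp ((w - 1) / ((ρ : ℝ) + 1))
      have h4 : ((ρ : ℝ) + 1) * ((w - 1) / ((ρ : ℝ) + 1) + 1) = ρ + w := by field_simp; ring
      rw [← h4]
      exact mul_le_mul_of_nonneg_left h3 (by linarith)
    calc ((ρ : ℝ) + w) ^ (ρ + 1) ≤
        (((ρ : ℝ) + 1) * Real.exp ((w - 1) / ((ρ : ℝ) + 1))) ^ (ρ + 1) :=
          pow_le_pow_left₀ (by linarith) h2 _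
      _ = ((ρ : ℝ) + 1) ^ (ρ + 1) * Real.exp (w - 1) := by
          rw [mul_pow, ← Real.exp_nat_mul]
          congr 2
          push_cast
          field_simp
  rw [div_le_iff₀ (by linarith)]
  calc c * (((ρ : ℝ) + w) ^ (ρ + 1) / (ρ : ℝ) ^ ρ) ≤
      c * ((((ρ : ℝ) + 1) ^ (ρ + 1) * Real.exp (w - 1)) / (ρ : ℝ) ^ ρ) := by
        apply mul_le_mul_of_nonneg_left _ hc.le
        exact div_le_div_of_nonneg_right h1 (by positivity)
    _ = (Real.exp (w - 1) * (c * (((ρ : ℝ) + 1) ^ (ρ + 1) / (ρ : ℝ) ^ ρ))) * 1 := by ring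
    _ ≤ _ := mul_le_mul_of_nonneg_left hw1 (by positivity)

/-- regime A -/
theorem lower_A (hρ : 1 ≤ ρ) (hη : 0 < η) (hη1 : η ≤ 1 / 20)
    (h : (ρ : ℝ) ≤ η ^ 2 / 2 * N) (htn : t < n) (ht : 2 ≤ t) {𝒜 : Finset (Finset (Fin n))}
    (h𝒜 : IsCovering (N + 1) t 𝒜) (hreg : (n : ℝ) ≤ (ρ + 1) * ((n : ℝ) - t + 1))
    (hcond : (ρ : ℝ) ^ 2 * ((n : ℝ) - t + 1) ≤ η ^ 2 / 2 * (n * N)) :
    (1 - 9 * η) * ((N.choose ρ : ℝ) * ((n : ℝ) * ((n : ℝ) / ((t : ℝ) - 1)) ^ ρ)) ≤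
      ((ρ : ℝ) + 1) * ((shad (ρ + 1) 𝒜).card : ℝ) := by
  have hB := lower_B hρ hη hη1 h htn h𝒜
  obtain ⟨I, hρI, hI2, hIN, hI1, hI3, hIη⟩ := exists_I hρ hη hη1 h
  have hsuppn : (supp 𝒜).card ≤ n := by
    have := card_le_univ (supp 𝒜)
    rwa [Fintype.card_fin] at this
  have hsupp := supp_card htn.le h𝒜
  have hNn : N ≤ n := by omega
  obtain ⟨a, ha⟩ : ∃ a : ℝ, a = ((I : ℝ) / (I + 1)) * (((n : ℝ) - 1) / n) := ⟨_, rfl⟩
  obtain ⟨M, hM⟩ : ∃ M : ℝ, M = (N : ℝ) - I + 1 := ⟨_, rfl⟩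
  obtain ⟨ha1, ha2, h1N, hN0⟩ := a_est hρ hη hη1 hNn h hI1 hI2 ha
  have hρR : (1 : ℝ) ≤ ρ := by exact_mod_cast hρ
  have hηρ : η / ρ ≤ η := by
    rw [div_le_iff₀ (by linarith)]; nlinarith
  have hηρ0 : 0 < η / ρ := by positivity
  have e2η : 2 * η / (ρ : ℝ) = 2 * (η / ρ) := by ring
  have e4η : 4 * η / (ρ : ℝ) = 4 * (η / ρ) := by ring
  rw [e2η] at ha1
  have ha0 : 0 < a := by linarith
  have hIR : (2 : ℝ) ≤ I := by exact_mod_cast hI2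
  have hINR : (I : ℝ) ≤ N := by exact_mod_cast hIN
  have hM0 : 0 < M := by rw [hM]; linarith
  have htR : (2 : ℝ) ≤ t := by exact_mod_cast ht
  have htnR : (t : ℝ) < n := by exact_mod_cast htn
  obtain ⟨c, hc⟩ : ∃ c : ℝ, c = (n : ℝ) - t + 1 := ⟨_, rfl⟩
  obtain ⟨D, hD⟩ : ∃ D : ℝ, D = (t : ℝ) - 1 := ⟨_, rfl⟩
  have hc0 : 0 < c := by rw [hc]; linarith
  have hD0 : 0 < D := by rw [hD]; linarith
  have hn : (n : ℝ) = c + D := by rw [hc, hD]; ring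
  have hn0 : (0 : ℝ) < n := by linarith
  rw [← hc] at hreg hcond hB
  rw [← hD]
  have hDρ : D ≤ ρ * c := by nlinarith
  have hNc : (0 : ℝ) ≤ (N.choose ρ : ℝ) := by positivity
  obtain ⟨y0, hy0⟩ : ∃ y0 : ℝ, y0 = a * M * (n / D) := ⟨_, rfl⟩
  have hy0pos : 0 < y0 := by rw [hy0]; positivity
  have hT := main_T hρ hρI hI2 hIN htn h𝒜 ha hM hy0pos
  rw [← hc] at hT
  obtain ⟨A, hA⟩ : ∃ A : ℝ, A = (I : ℝ) - 2 + y0 := ⟨_, rfl⟩
  rw [← hA] at hT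
  have hA0 : 0 < A := by rw [hA]; linarith
  have hK : A + ρ * y0 - ρ * y0 ^ 2 / (a * M) = (I : ℝ) - 2 - y0 * (ρ * c / D - 1) := by
    have : ρ * y0 ^ 2 / (a * M) = ρ * y0 * (n / D) := by
      have h2 : y0 ^ 2 / (a * M) = y0 * (n / D) := by
        rw [div_eq_iff (by positivity), sq]
        nth_rewrite 2 [hy0]; ring
      rw [mul_div_assoc, h2]; ring
    rw [this, hA, hn]; field_simp; ring
  rw [hK] at hT
  by_cases hKs : (I : ℝ) - 2 - y0 * (ρ * c / D - 1) ≤ 0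
  · -- main case
    have hbr : (n : ℝ) * A ≤ ((supp 𝒜).card : ℝ) * ((I : ℝ) - 2 - y0 * (ρ * c / D - 1)) +
        ρ * y0 ^ 2 * c / (a * M) := by
      have h1 : (n : ℝ) * ((I : ℝ) - 2 - y0 * (ρ * c / D - 1)) ≤
          ((supp 𝒜).card : ℝ) * ((I : ℝ) - 2 - y0 * (ρ * c / D - 1)) := by
        apply mul_le_mul_of_nonpos_right _ hKs
        exact_mod_cast hsuppn
      have h2 : ρ * y0 ^ 2 * c / (a * M) = ρ * y0 * c * (n / D) := by
        have h2 : y0 ^ 2 / (a * M) = y0 * (n / D) := by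
          rw [div_eq_iff (by positivity), sq]
          nth_rewrite 2 [hy0]; ring
        calc ρ * y0 ^ 2 * c / (a * M) = ρ * c * (y0 ^ 2 / (a * M)) := by ring
          _ = _ := by rw [h2]; ring
      rw [h2]
      have h3 : (n : ℝ) * A = (n : ℝ) * ((I : ℝ) - 2 - y0 * (ρ * c / D - 1)) +
          ρ * y0 * c * (n / D) := by
        rw [hA]; field_simp; ring
      linarith
    have hAge : (n / D) * N * (1 - 4 * η / ρ) ≤ A := by
      have h2 : (I : ℝ) * c / (n * N) ≤ η / ρ := by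
        rw [div_le_div_iff₀ (by positivity) (by linarith)]
        -- I c ρ ≤ η n N
        rw [le_div_iff₀ hη] at hI3
        have h3 : (I : ℝ) * η * (c * ρ) ≤ 2 * ρ * (c * ρ) :=
          mul_le_mul_of_nonneg_right hI3 (by positivity)
        have h4 : η * ((I : ℝ) * c * ρ) ≤ η * (η * (n * N)) := by nlinarith
        exact le_of_mul_le_mul_left h4 hη
      have h3 : A = (n / D) * N * (a - a * ((I : ℝ) - 1) / N +
          ((I : ℝ) - 2) / N * (D / n)) := by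
        rw [hA, hy0, hM]; field_simp; ring
      rw [h3]
      apply mul_le_mul_of_nonneg_left _ (by positivity)
      have h4 : a * ((I : ℝ) - 1) / N ≤ ((I : ℝ) - 1) / N := by
        apply div_le_div_of_nonneg_right _ hN0.le
        have : (0 : ℝ) ≤ (I : ℝ) - 1 := by linarith
        calc a * ((I : ℝ) - 1) ≤ 1 * ((I : ℝ) - 1) := mul_le_mul_of_nonneg_right ha2 this
          _ = _ := one_mul _
      have h5 : ((I : ℝ) - 1) / N - ((I : ℝ) - 2) / N * (D / n) =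
          1 / N + (I : ℝ) * c / (n * N) - 2 * c / (n * N) := by
        rw [hn]; field_simp; ring
      have h6 : 0 < 2 * c / (n * N) := by positivity
      rw [e4η]
      linarith
    have hpow : ((n / D) * N) ^ ρ * (1 - 4 * η) ≤ A ^ ρ := by
      have hs : 4 * η / (ρ : ℝ) ≤ 1 := by
        rw [div_le_one (by linarith)]; linarith
      calc ((n / D) * N) ^ ρ * (1 - 4 * η)
          ≤ ((n / D) * N) ^ ρ * (1 - 4 * η / ρ) ^ ρ := by
            apply mul_le_mul_of_nonneg_left _ (by positivity)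
            exact pow_one_sub_ge hρ hs
        _ = ((n / D) * N * (1 - 4 * η / ρ)) ^ ρ := by rw [← mul_pow]
        _ ≤ A ^ ρ := pow_le_pow_left₀ (mul_nonneg (by positivity) (by linarith)) hAge _
    refine le_trans ?_ hT
    have h7 : (N.choose ρ : ℝ) / (N : ℝ) ^ ρ * (A ^ (ρ - 1) * (n * A)) ≤
        (N.choose ρ : ℝ) / (N : ℝ) ^ ρ * (A ^ (ρ - 1) *
        (((supp 𝒜).card : ℝ) * ((I : ℝ) - 2 - y0 * (ρ * c / D - 1)) +
        ρ * y0 ^ 2 * c / (a * M))) := by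
      apply mul_le_mul_of_nonneg_left _ (by positivity)
      exact mul_le_mul_of_nonneg_left hbr (by positivity)
    refine le_trans ?_ h7
    have h8 : A ^ (ρ - 1) * (n * A) = n * A ^ ρ := by
      have : A ^ ρ = A ^ (ρ - 1) * A := by rw [← pow_succ]; congr 1; omega
      rw [this]; ring
    rw [h8]
    calc (1 - 9 * η) * ((N.choose ρ : ℝ) * ((n : ℝ) * ((n : ℝ) / D) ^ ρ))
        ≤ (1 - 4 * η) * ((N.choose ρ : ℝ) * ((n : ℝ) * ((n : ℝ) / D) ^ ρ)) := by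
          apply mul_le_mul_of_nonneg_right (by linarith) (by positivity)
      _ = (N.choose ρ : ℝ) / (N : ℝ) ^ ρ * (n * (((n / D) * N) ^ ρ * (1 - 4 * η))) := by
          rw [mul_pow]; field_simp
      _ ≤ _ := by
          apply mul_le_mul_of_nonneg_left _ (by positivity)
          exact mul_le_mul_of_nonneg_left hpow hn0.le
  · -- near the boundary
    push Not at hKs
    have hNM : (N : ℝ) / 2 ≤ a * M := by
      have h2 : N * (1 - η) ≤ M := by rw [hM]; linarith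
      have h3 : 1 - 2 * η ≤ a := by linarith
      calc (N : ℝ) / 2 ≤ (1 - 2 * η) * (N * (1 - η)) := by nlinarith [mul_pos hη hN0]
        _ ≤ a * M := mul_le_mul h3 h2 (by nlinarith) ha0.le
    have hy0N : (N : ℝ) / 2 ≤ y0 := by
      rw [hy0]
      have : 1 ≤ (n : ℝ) / D := by rw [le_div_iff₀ hD0]; linarith
      calc (N : ℝ) / 2 ≤ a * M := hNM
        _ = a * M * 1 := (mul_one _).symm
        _ ≤ _ := mul_le_mul_of_nonneg_left this (by positivity)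
    have hw : ρ * c / D - 1 ≤ 2 * η := by
      by_contra hlt
      push Not at hlt
      have h1 : y0 * (2 * η) < y0 * (ρ * c / D - 1) := mul_lt_mul_of_pos_left hlt hy0pos
      have h2 : (N : ℝ) / 2 * (2 * η) ≤ y0 * (2 * η) :=
        mul_le_mul_of_nonneg_right hy0N (by linarith)
      linarith
    have hR := ratio_exp (ρ := ρ) hρ hc0 hD0 hDρ
    rw [← hn] at hR
    have hexp : Real.exp (ρ * c / D - 1) * (1 - 2 * η) ≤ 1 := by
      have h1 : 1 - 2 * η ≤ Real.exp (-(2 * η)) := by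
        have := Real.add_one_le_exp (-(2 * η)); linarith
      have h2 : Real.exp (ρ * c / D - 1) ≤ Real.exp (2 * η) := Real.exp_le_exp.mpr hw
      calc _ ≤ Real.exp (2 * η) * Real.exp (-(2 * η)) := by
            apply mul_le_mul h2 h1 (by linarith) (Real.exp_pos _).le
        _ = 1 := by rw [← Real.exp_add]; simp
    refine le_trans ?_ hB
    set X := c * (((ρ : ℝ) + 1) ^ (ρ + 1) / (ρ : ℝ) ^ ρ) with hX
    have hX0 : 0 ≤ X := by positivity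
    have h3 : (1 - 9 * η) * ((n : ℝ) * ((n : ℝ) / D) ^ ρ) ≤ (1 - 7 * η) * X := by
      have h9 : 0 ≤ 1 - 9 * η := by linarith
      calc (1 - 9 * η) * ((n : ℝ) * ((n : ℝ) / D) ^ ρ) ≤
          (1 - 9 * η) * (Real.exp (ρ * c / D - 1) * X) := mul_le_mul_of_nonneg_left hR h9
        _ ≤ ((1 - 7 * η) * (1 - 2 * η)) * (Real.exp (ρ * c / D - 1) * X) := by
            apply mul_le_mul_of_nonneg_right _ (by positivity)
            nlinarith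
        _ = (1 - 7 * η) * X * (Real.exp (ρ * c / D - 1) * (1 - 2 * η)) := by ring
        _ ≤ (1 - 7 * η) * X * 1 := by
            apply mul_le_mul_of_nonneg_left hexp
            apply mul_nonneg (by linarith) hX0
        _ = _ := mul_one _
    calc (1 - 9 * η) * ((N.choose ρ : ℝ) * ((n : ℝ) * ((n : ℝ) / D) ^ ρ)) =
        (N.choose ρ : ℝ) * ((1 - 9 * η) * ((n : ℝ) * ((n : ℝ) / D) ^ ρ)) := by ring
      _ ≤ (N.choose ρ : ℝ) * ((1 - 7 * η) * X) := mul_le_mul_of_nonneg_left h3 hNc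
      _ = _ := by ring

/-- regime C -/
theorem lower_C (hρ : 1 ≤ ρ) (hη : 0 < η) (hη1 : η ≤ 1 / 20)
    (h : (ρ : ℝ) ≤ η ^ 2 / 2 * N) (htn : t < n) {𝒜 : Finset (Finset (Fin n))}
    (h𝒜 : IsCovering (N + 1) t 𝒜) (hreg : ρ * ((n : ℝ) - t + 1) ≤ N) :
    (1 - 4 * η) * ((N.choose ρ : ℝ) * ((((n : ℝ) - t + 1) + N) *
      ((((n : ℝ) - t + 1) + N) / N) ^ ρ)) ≤
      ((ρ : ℝ) + 1) * ((shad (ρ + 1) 𝒜).card : ℝ) := by
  obtain ⟨I, hρI, hI2, hIN, hI1, hI3, hIη⟩ := exists_I hρ hη hη1 h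
  have hsuppn : (supp 𝒜).card ≤ n := by
    have := card_le_univ (supp 𝒜)
    rwa [Fintype.card_fin] at this
  have hsupp := supp_card htn.le h𝒜
  have hNn : N ≤ n := by omega
  obtain ⟨a, ha⟩ : ∃ a : ℝ, a = ((I : ℝ) / (I + 1)) * (((n : ℝ) - 1) / n) := ⟨_, rfl⟩
  obtain ⟨M, hM⟩ : ∃ M : ℝ, M = (N : ℝ) - I + 1 := ⟨_, rfl⟩
  obtain ⟨ha1, ha2, h1N, hN0⟩ := a_est hρ hη hη1 hNn h hI1 hI2 ha
  have hρR : (1 : ℝ) ≤ ρ := by exact_mod_cast hρ
  have hηρ : η / ρ ≤ η := by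
    rw [div_le_iff₀ (by linarith)]; nlinarith
  have hηρ0 : 0 < η / ρ := by positivity
  have e2η : 2 * η / (ρ : ℝ) = 2 * (η / ρ) := by ring
  have e4η : 4 * η / (ρ : ℝ) = 4 * (η / ρ) := by ring
  rw [e2η] at ha1
  have ha0 : 0 < a := by linarith
  have hIR : (2 : ℝ) ≤ I := by exact_mod_cast hI2
  have hINR : (I : ℝ) ≤ N := by exact_mod_cast hIN
  have hM0 : 0 < M := by rw [hM]; linarith
  have htnR : (t : ℝ) < n := by exact_mod_cast htn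
  obtain ⟨c, hc⟩ : ∃ c : ℝ, c = (n : ℝ) - t + 1 := ⟨_, rfl⟩
  have hc0 : 0 < c := by rw [hc]; linarith
  rw [← hc] at hreg ⊢
  have hNc : (0 : ℝ) ≤ (N.choose ρ : ℝ) := by positivity
  obtain ⟨b, hb⟩ : ∃ b : ℝ, b = c + N := ⟨_, rfl⟩
  rw [← hb]
  have hb0 : 0 < b := by rw [hb]; linarith
  obtain ⟨y0, hy0⟩ : ∃ y0 : ℝ, y0 = a * M * (b / N) := ⟨_, rfl⟩
  have hy0pos : 0 < y0 := by rw [hy0]; positivity
  have hT := main_T hρ hρI hI2 hIN htn h𝒜 ha hM hy0pos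
  rw [← hc] at hT
  obtain ⟨A, hA⟩ : ∃ A : ℝ, A = (I : ℝ) - 2 + y0 := ⟨_, rfl⟩
  rw [← hA] at hT
  have hA0 : 0 < A := by rw [hA]; linarith
  have hsq : y0 ^ 2 / (a * M) = y0 * (b / N) := by
    rw [div_eq_iff (by positivity), sq]
    nth_rewrite 2 [hy0]; ring
  have hK : A + ρ * y0 - ρ * y0 ^ 2 / (a * M) = (I : ℝ) - 2 + y0 * (1 - ρ * c / N) := by
    have : ρ * y0 ^ 2 / (a * M) = ρ * y0 * (b / N) := by
      rw [mul_div_assoc, hsq]; ring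
    rw [this, hA, hb]; field_simp; ring
  rw [hK] at hT
  have hK0 : 0 ≤ (I : ℝ) - 2 + y0 * (1 - ρ * c / N) := by
    have : ρ * c / N ≤ 1 := by rw [div_le_one hN0]; exact hreg
    have := mul_nonneg hy0pos.le (by linarith : 0 ≤ 1 - ρ * c / N)
    linarith
  have hmge : b ≤ ((supp 𝒜).card : ℝ) := by
    have : ((n + 1 + N : ℕ) : ℝ) ≤ (((supp 𝒜).card + t : ℕ) : ℝ) := by exact_mod_cast hsupp
    push_cast at this
    rw [hb, hc]; linarith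
  have hbr : b * A ≤ ((supp 𝒜).card : ℝ) * ((I : ℝ) - 2 + y0 * (1 - ρ * c / N)) +
      ρ * y0 ^ 2 * c / (a * M) := by
    have h1 : b * ((I : ℝ) - 2 + y0 * (1 - ρ * c / N)) ≤
        ((supp 𝒜).card : ℝ) * ((I : ℝ) - 2 + y0 * (1 - ρ * c / N)) :=
      mul_le_mul_of_nonneg_right hmge hK0
    have h2 : ρ * y0 ^ 2 * c / (a * M) = ρ * y0 * c * (b / N) := by
      calc ρ * y0 ^ 2 * c / (a * M) = ρ * c * (y0 ^ 2 / (a * M)) := by ring
        _ = _ := by rw [hsq]; ring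
    rw [h2]
    have h3 : b * A = b * ((I : ℝ) - 2 + y0 * (1 - ρ * c / N)) + ρ * y0 * c * (b / N) := by
      rw [hA]; field_simp; ring
    linarith
  have hAge : (b / N) * N * (1 - 4 * η / ρ) ≤ A := by
    have hcb : c / b ≤ 1 / ((ρ : ℝ) + 1) := by
      rw [div_le_div_iff₀ hb0 (by linarith), hb]; linarith
    have h2 : (I : ℝ) * (c / b) / N ≤ η / ρ := by
      calc (I : ℝ) * (c / b) / N ≤ (η * N) * (1 / ((ρ : ℝ) + 1)) / N := by
            apply div_le_div_of_nonneg_right _ hN0.le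
            apply mul_le_mul hIη hcb (by positivity) (by positivity)
        _ = η / ((ρ : ℝ) + 1) := by field_simp
        _ ≤ η / ρ := div_le_div_of_nonneg_left hη.le (by linarith) (by linarith)
    have h3 : A = (b / N) * N * (a - a * ((I : ℝ) - 1) / N +
        ((I : ℝ) - 2) / b) := by
      rw [hA, hy0, hM]; field_simp; ring
    rw [h3]
    apply mul_le_mul_of_nonneg_left _ (by positivity)
    have h4 : a * ((I : ℝ) - 1) / N ≤ ((I : ℝ) - 1) / N := by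
      apply div_le_div_of_nonneg_right _ hN0.le
      have : (0 : ℝ) ≤ (I : ℝ) - 1 := by linarith
      calc a * ((I : ℝ) - 1) ≤ 1 * ((I : ℝ) - 1) := mul_le_mul_of_nonneg_right ha2 this
        _ = _ := one_mul _
    have h5 : ((I : ℝ) - 1) / N - ((I : ℝ) - 2) / b =
        1 / N + (I : ℝ) * (c / b) / N - 2 * (c / b) / N := by
      have : (N : ℝ) = b - c := by rw [hb]; ring
      field_simp
      rw [this]; ring
    have h6 : 0 < 2 * (c / b) / N := by positivity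
    rw [e4η]
    linarith
  have hpow : ((b / N) * N) ^ ρ * (1 - 4 * η) ≤ A ^ ρ := by
    have hs : 4 * η / (ρ : ℝ) ≤ 1 := by
      rw [div_le_one (by linarith)]; linarith
    calc ((b / N) * N) ^ ρ * (1 - 4 * η)
        ≤ ((b / N) * N) ^ ρ * (1 - 4 * η / ρ) ^ ρ := by
          apply mul_le_mul_of_nonneg_left _ (by positivity)
          exact pow_one_sub_ge hρ hs
      _ = ((b / N) * N * (1 - 4 * η / ρ)) ^ ρ := by rw [← mul_pow]
      _ ≤ A ^ ρ := pow_le_pow_left₀ (mul_nonneg (by positivity) (by linarith)) hAge _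
  refine le_trans ?_ hT
  have h7 : (N.choose ρ : ℝ) / (N : ℝ) ^ ρ * (A ^ (ρ - 1) * (b * A)) ≤
      (N.choose ρ : ℝ) / (N : ℝ) ^ ρ * (A ^ (ρ - 1) *
      (((supp 𝒜).card : ℝ) * ((I : ℝ) - 2 + y0 * (1 - ρ * c / N)) +
      ρ * y0 ^ 2 * c / (a * M))) := by
    apply mul_le_mul_of_nonneg_left _ (by positivity)
    exact mul_le_mul_of_nonneg_left hbr (by positivity)
  refine le_trans ?_ h7
  have h8 : A ^ (ρ - 1) * (b * A) = b * A ^ ρ := by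
    have : A ^ ρ = A ^ (ρ - 1) * A := by rw [← pow_succ]; congr 1; omega
    rw [this]; ring
  rw [h8]
  calc (1 - 4 * η) * ((N.choose ρ : ℝ) * (b * (b / N) ^ ρ))
      = (N.choose ρ : ℝ) / (N : ℝ) ^ ρ * (b * (((b / N) * N) ^ ρ * (1 - 4 * η))) := by
        rw [mul_pow]; field_simp
    _ ≤ _ := by
        apply mul_le_mul_of_nonneg_left _ (by positivity)
        exact mul_le_mul_of_nonneg_left hpow hb0.le

end

end Pool.Agent.Lib.MP_455133_co
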