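import Mathlib
import Pool.Agent.Lib.MP_455133_co.Balanced
import Pool.Agent.Lib.MP_455133_co.Regimes

/-!
Two-sided estimates in the regimes A, B, C.
-/

namespace Pool.Agent.Lib.MP_455133_co

open Finset

section

variable {n N ρ t : ℕ} {η : ℝ}

theorem exp_mul_le {E η : ℝ} (h : E ≤ η) (hη : η ≤ 1) : Real.exp E * (1 - η) ≤ 1 := by
  have h1 : 1 - η ≤ Real.exp (-η) := by
    have := Real.add_one_le_exp (-η); linarith
  calc Real.exp E * (1 - η) ≤ Real.exp η * Real.exp (-η) :=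
        mul_le_mul (Real.exp_le_exp.mpr h) h1 (by linarith) (Real.exp_pos _).le
    _ = 1 := by rw [← Real.exp_add]; simp

theorem N_facts (hρ : 1 ≤ ρ) (hη : 0 < η) (hη1 : η ≤ 1 / 20) (h : (ρ : ℝ) ≤ η ^ 2 / 2 * N) :
    (0 : ℝ) < N ∧ ρ ≤ N ∧ (N : ℝ) / 2 ≤ (N : ℝ) - ρ + 1 := by
  have hρR : (1 : ℝ) ≤ ρ := by exact_mod_cast hρ
  have hN0 : (0 : ℝ) < N := by
    by_contra hle
    push Not at hle
    have : η ^ 2 / 2 * (N : ℝ) ≤ 0 := mul_nonpos_of_nonneg_of_nonpos (by positivity) hle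
    linarith
  have hsq : η ^ 2 ≤ 1 / 20 := by nlinarith
  have h1 : (ρ : ℝ) ≤ N / 40 := by nlinarith
  refine ⟨hN0, ?_, by linarith⟩
  have : (ρ : ℝ) ≤ N := by linarith
  exact_mod_cast this

/-- Regime A. -/
theorem two_sided_A (hρ : 1 ≤ ρ) (hη : 0 < η) (hη1 : η ≤ 1 / 20)
    (h : (ρ : ℝ) ≤ η ^ 2 / 2 * N) (hNt : N + 1 < t) (htn : t < n)
    (hreg : (n : ℝ) ≤ (ρ + 1) * ((n : ℝ) - t + 1))
    (hcond : (ρ : ℝ) ^ 2 * ((n : ℝ) - t + 1) ≤ η ^ 2 / 2 * (n * N))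
    (hA : ((ρ : ℝ) + 1) * ((N : ℝ) + 1) ≤ η ^ 2 / 8 * t) :
    (1 - 9 * η) * ((N.choose ρ : ℝ) * ((n : ℝ) * ((n : ℝ) / ((t : ℝ) - 1)) ^ ρ)) ≤
      ((ρ : ℝ) + 1) * (f n (ρ + 1) (N + 1) t : ℝ) ∧
    ((ρ : ℝ) + 1) * (f n (ρ + 1) (N + 1) t : ℝ) ≤
      Real.exp (2 * η) * ((N.choose ρ : ℝ) * ((n : ℝ) * ((n : ℝ) / ((t : ℝ) - 1)) ^ ρ)) := by
  obtain ⟨hN0, hρN, hQ⟩ := N_facts hρ hη hη1 h
  have hρR : (1 : ℝ) ≤ ρ := by exact_mod_cast hρ
  constructor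
  · obtain ⟨𝒜, h𝒜, hf⟩ := f_spec (n := n) (r := ρ + 1) (s := N + 1) (t := t) hNt.le
    rw [hf]
    exact lower_A hρ hη hη1 h htn (by omega) h𝒜 hreg hcond
  · have hN1 : 1 ≤ N := by omega
    obtain ⟨l, hl⟩ : ∃ l, l = (t - 1) / N := ⟨_, rfl⟩
    have hl1 : l * N ≤ t - 1 := by rw [hl]; exact Nat.div_mul_le_self _ _
    have hl2 : t - 1 < (l + 1) * N := by
      rw [hl]; exact (Nat.div_lt_iff_lt_mul (by omega)).mp (Nat.lt_succ_self _)
    have hlpos : 1 ≤ l := by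
      rw [hl]; exact (Nat.le_div_iff_mul_le (by omega)).mpr (by omega)
    have hlR : (1 : ℝ) ≤ l := by exact_mod_cast hlpos
    have htR : (0 : ℝ) < (t : ℝ) - 1 := by
      have : (1 : ℝ) < t := by exact_mod_cast (by omega : 1 < t)
      linarith
    have htnR : (t : ℝ) < n := by exact_mod_cast htn
    obtain ⟨c, hc⟩ : ∃ c : ℝ, c = (n : ℝ) - t + 1 := ⟨_, rfl⟩
    obtain ⟨m, hm⟩ : ∃ m : ℝ, m = l * N + c := ⟨_, rfl⟩
    have hc0 : 0 < c := by rw [hc]; linarith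
    have hmain := f_le_balanced hρ hρN hlpos (by omega) htn hc hm
    have hl1R : (l : ℝ) * N ≤ (t : ℝ) - 1 := by
      have : ((l * N : ℕ) : ℝ) ≤ ((t - 1 : ℕ) : ℝ) := by exact_mod_cast hl1
      rw [Nat.cast_sub (by omega)] at this
      push_cast at this
      exact this
    have hl2R : (t : ℝ) ≤ ((l : ℝ) + 1) * N := by
      have : t ≤ (l + 1) * N := by omega
      exact_mod_cast this
    have hlN0 : (0 : ℝ) < (l : ℝ) * N := by positivity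
    have hmn : m ≤ n := by rw [hm, hc]; linarith
    have hm0 : 0 < m := by rw [hm]; positivity
    have hn0 : (0 : ℝ) < n := by linarith
    -- ρ ≤ η l
    have hρl : (ρ : ℝ) ≤ η * l := by
      have h1 : ((ρ : ℝ) + 1) * ((N : ℝ) + 1) ≤ η ^ 2 / 8 * (((l : ℝ) + 1) * N) := by
        refine hA.trans ?_
        exact mul_le_mul_of_nonneg_left hl2R (by positivity)
      have h2 : ((ρ : ℝ) + 1) * N ≤ (η ^ 2 / 8 * ((l : ℝ) + 1)) * N := by nlinarith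
      have h3 : (ρ : ℝ) + 1 ≤ η ^ 2 / 8 * ((l : ℝ) + 1) := le_of_mul_le_mul_right h2 hN0
      nlinarith [mul_pos hη (by linarith : (0:ℝ) < l), sq_nonneg η]
    -- exponents
    have hE : ρ * (ρ - 1) * c / (((N : ℝ) - ρ + 1) * m) ≤ η := by
      have hm2 : (n : ℝ) / 2 ≤ m := by
        have h1 : (N : ℝ) ≤ n / 2 := by
          have h3 : (N : ℝ) + 1 ≤ η ^ 2 / 8 * t := by nlinarith
          nlinarith
        rw [hm, hc]; linarith
      rw [div_le_iff₀ (mul_pos (by linarith) hm0)]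
      have h1 : (N : ℝ) / 2 * (n / 2) ≤ ((N : ℝ) - ρ + 1) * m :=
        mul_le_mul hQ hm2 (by positivity) (by linarith)
      have h2 : (ρ : ℝ) * (ρ - 1) * c ≤ ρ ^ 2 * c := by
        apply mul_le_mul_of_nonneg_right _ hc0.le
        nlinarith
      rw [← hc] at hcond
      have h3 : η * ((N : ℝ) / 2 * (n / 2)) ≤ η * (((N : ℝ) - ρ + 1) * m) :=
        mul_le_mul_of_nonneg_left h1 hη.le
      have h4 : η ^ 2 / 2 * ((n : ℝ) * N) ≤ η * ((N : ℝ) / 2 * (n / 2)) := by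
        have : (0 : ℝ) < n * N := by positivity
        nlinarith [mul_pos hη this]
      linarith
    have hpow : m * (m / (l * N)) ^ ρ ≤ Real.exp η * ((n : ℝ) * ((n : ℝ) / ((t : ℝ) - 1)) ^ ρ) := by
      have h1 : m / (l * N) ≤ (n : ℝ) / ((t : ℝ) - 1) * (1 + 1 / l) := by
        rw [div_mul_eq_mul_div, div_le_div_iff₀ hlN0 htR]
        have h2 : (t : ℝ) - 1 ≤ (1 + 1 / l) * (l * N) := by
          have : (1 + 1 / (l : ℝ)) * (l * N) = (l + 1) * N := by field_simp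
          rw [this]; linarith
        calc m * ((t : ℝ) - 1) ≤ n * ((1 + 1 / l) * (l * N)) :=
              mul_le_mul hmn h2 htR.le hn0.le
          _ = _ := by ring
      have h3 : (1 + 1 / (l : ℝ)) ^ ρ ≤ Real.exp η := by
        have h4 := Real.add_one_le_exp (1 / (l : ℝ))
        have h6 : (0 : ℝ) < 1 / l := by positivity
        calc (1 + 1 / (l : ℝ)) ^ ρ ≤ (Real.exp (1 / (l : ℝ))) ^ ρ :=
              pow_le_pow_left₀ (by linarith) (by linarith) _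
          _ = Real.exp (ρ / l) := by rw [← Real.exp_nat_mul]; congr 1; ring
          _ ≤ Real.exp η := by
              apply Real.exp_le_exp.mpr
              rw [div_le_iff₀ (by linarith)]
              exact hρl
      calc m * (m / (l * N)) ^ ρ ≤ n * ((n : ℝ) / ((t : ℝ) - 1) * (1 + 1 / l)) ^ ρ := by
            apply mul_le_mul hmn _ (by positivity) hn0.le
            exact pow_le_pow_left₀ (by positivity) h1 _
        _ = (n * ((n : ℝ) / ((t : ℝ) - 1)) ^ ρ) * (1 + 1 / (l : ℝ)) ^ ρ := by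
            rw [mul_pow]; ring
        _ ≤ (n * ((n : ℝ) / ((t : ℝ) - 1)) ^ ρ) * Real.exp η := by
            apply mul_le_mul_of_nonneg_left h3 (by positivity)
        _ = _ := by ring
    refine hmain.trans ?_
    have hNc : (0 : ℝ) ≤ (N.choose ρ : ℝ) := by positivity
    calc (N.choose ρ : ℝ) * (m * (m / (l * N)) ^ ρ) *
        Real.exp (ρ * (ρ - 1) * c / (((N : ℝ) - ρ + 1) * m))
        ≤ (N.choose ρ : ℝ) * (Real.exp η * ((n : ℝ) * ((n : ℝ) / ((t : ℝ) - 1)) ^ ρ)) *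
          Real.exp η := by
          apply mul_le_mul _ (Real.exp_le_exp.mpr hE) (Real.exp_pos _).le (by positivity)
          exact mul_le_mul_of_nonneg_left hpow hNc
      _ = _ := by
          have : Real.exp (2 * η) = Real.exp η * Real.exp η := by
            rw [← Real.exp_add]; congr 1; ring
          rw [this]; ring

/-- Regime A, the block construction with `k` blocks of size `q`. -/
theorem block_A (hρ : 1 ≤ ρ) (hη : 0 < η) (hη1 : η ≤ 1 / 20)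
    (h : (ρ : ℝ) ≤ η ^ 2 / 2 * N) (hNt : N + 1 < t) (htn : t < n)
    (hreg : (n : ℝ) ≤ (ρ + 1) * ((n : ℝ) - t + 1))
    (hcond : (ρ : ℝ) ^ 2 * ((n : ℝ) - t + 1) ≤ η ^ 2 / 2 * (n * N))
    (hA : ((ρ : ℝ) + 1) * ((N : ℝ) + 1) ≤ η ^ 2 / 8 * t) {k q : ℕ} (hk : t = k * (N + 1))
    (hq : n = k * q) :
    (1 - 10 * η) * (k * (q.choose (ρ + 1) : ℝ)) ≤ (f n (ρ + 1) (N + 1) t : ℝ) := by
  obtain ⟨hN0, hρN, hQ⟩ := N_facts hρ hη hη1 h
  have hρR : (1 : ℝ) ≤ ρ := by exact_mod_cast hρ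
  obtain ⟨h1, -⟩ := two_sided_A hρ hη hη1 h hNt htn hreg hcond hA
  have hk0 : 1 ≤ k := by
    rcases Nat.eq_zero_or_pos k with h0 | h0
    · subst h0; omega
    · exact h0
  have hqN : N + 1 ≤ q := by
    by_contra hlt
    push Not at hlt
    have : k * q ≤ k * (N + 1) := Nat.mul_le_mul_left _ hlt.le
    omega
  have hb := block_le (k := k) hρ hρN hqN
  have hkR : (1 : ℝ) ≤ k := by exact_mod_cast hk0
  have hqR : (N : ℝ) + 1 ≤ q := by exact_mod_cast hqN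
  have hnR : (n : ℝ) = k * q := by exact_mod_cast hq
  have htR : (t : ℝ) = k * (N + 1) := by exact_mod_cast hk
  have htnR : (t : ℝ) < n := by exact_mod_cast htn
  have ht1 : (0 : ℝ) < (t : ℝ) - 1 := by
    have : (1 : ℝ) < t := by exact_mod_cast (by omega : 1 < t)
    linarith
  have hn0 : (0 : ℝ) < n := by linarith
  have hq0 : (0 : ℝ) < q := by linarith
  have hE : ρ ^ 2 * ((q : ℝ) - (N + 1)) / (q * ((N : ℝ) + 1 - ρ)) ≤ η := by
    have e1 : (N : ℝ) + 1 - ρ = (N : ℝ) - ρ + 1 := by ring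
    rw [e1, div_le_iff₀ (mul_pos hq0 (by linarith))]
    have h2 : (k : ℝ) * (ρ ^ 2 * ((q : ℝ) - (N + 1))) ≤ k * (η * (q * ((N : ℝ) - ρ + 1))) := by
      have h3 : (k : ℝ) * (ρ ^ 2 * ((q : ℝ) - (N + 1))) = ρ ^ 2 * ((n : ℝ) - t) := by
        rw [hnR, htR]; ring
      have h4 : (k : ℝ) * (η * (q * ((N : ℝ) - ρ + 1))) = η * (n * ((N : ℝ) - ρ + 1)) := by
        rw [hnR]; ring
      rw [h3, h4]
      have h5 : (n : ℝ) * (N / 2) ≤ n * ((N : ℝ) - ρ + 1) :=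
        mul_le_mul_of_nonneg_left hQ hn0.le
      have h6 : η * ((n : ℝ) * (N / 2)) ≤ η * (n * ((N : ℝ) - ρ + 1)) :=
        mul_le_mul_of_nonneg_left h5 hη.le
      have h7 : (ρ : ℝ) ^ 2 * ((n : ℝ) - t) ≤ ρ ^ 2 * ((n : ℝ) - t + 1) := by
        apply mul_le_mul_of_nonneg_left (by linarith) (by positivity)
      have h8 : η ^ 2 / 2 * ((n : ℝ) * N) ≤ η * ((n : ℝ) * (N / 2)) := by
        have : (0 : ℝ) < n * N := by positivity
        nlinarith [mul_pos hη this]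
      linarith
    exact le_of_mul_le_mul_left h2 (by linarith)
  have hexp := exp_mul_le hE (by linarith)
  have hratio : (q : ℝ) / ((N : ℝ) + 1) ≤ (n : ℝ) / ((t : ℝ) - 1) := by
    rw [div_le_div_iff₀ (by linarith) ht1, hnR, htR]
    nlinarith
  have h2 : (k * q : ℝ) * ((q : ℝ) / ((N : ℝ) + 1)) ^ ρ ≤
      (n : ℝ) * ((n : ℝ) / ((t : ℝ) - 1)) ^ ρ := by
    rw [← hnR]
    apply mul_le_mul_of_nonneg_left _ hn0.le
    exact pow_le_pow_left₀ (by positivity) hratio _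
  obtain ⟨X, hX⟩ : ∃ X : ℝ, X = (N.choose ρ : ℝ) * ((n : ℝ) * ((n : ℝ) / ((t : ℝ) - 1)) ^ ρ) :=
    ⟨_, rfl⟩
  rw [← hX] at h1
  have hX0 : 0 ≤ X := by
    rw [hX]
    have : 0 ≤ (n : ℝ) / ((t : ℝ) - 1) := by positivity
    positivity
  obtain ⟨e, he⟩ : ∃ e : ℝ, e =
    Real.exp (ρ ^ 2 * ((q : ℝ) - (N + 1)) / (q * ((N : ℝ) + 1 - ρ))) := ⟨_, rfl⟩
  rw [← he] at hb hexp
  have he0 : 0 < e := by rw [he]; exact Real.exp_pos _
  have h3 : ((ρ : ℝ) + 1) * (k * (q.choose (ρ + 1) : ℝ)) ≤ X * e := by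
    refine hb.trans ?_
    rw [hX]
    apply mul_le_mul_of_nonneg_right _ he0.le
    exact mul_le_mul_of_nonneg_left h2 (by positivity)
  have h4 : (1 - 10 * η) * (((ρ : ℝ) + 1) * (k * (q.choose (ρ + 1) : ℝ))) ≤
      ((ρ : ℝ) + 1) * (f n (ρ + 1) (N + 1) t : ℝ) := by
    have hk2 : (0 : ℝ) ≤ ((ρ : ℝ) + 1) * (k * (q.choose (ρ + 1) : ℝ)) := by positivity
    calc (1 - 10 * η) * (((ρ : ℝ) + 1) * (k * (q.choose (ρ + 1) : ℝ))) ≤
        ((1 - 9 * η) * (1 - η)) * (((ρ : ℝ) + 1) * (k * (q.choose (ρ + 1) : ℝ))) := by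
          apply mul_le_mul_of_nonneg_right _ hk2; nlinarith
      _ ≤ ((1 - 9 * η) * (1 - η)) * (X * e) := by
          apply mul_le_mul_of_nonneg_left h3
          apply mul_nonneg <;> linarith
      _ = (1 - 9 * η) * X * (e * (1 - η)) := by ring
      _ ≤ (1 - 9 * η) * X * 1 := by
          apply mul_le_mul_of_nonneg_left hexp
          apply mul_nonneg (by linarith) hX0
      _ = (1 - 9 * η) * X := mul_one _
      _ ≤ _ := h1
  have h5 : ((ρ : ℝ) + 1) * ((1 - 10 * η) * (k * (q.choose (ρ + 1) : ℝ))) ≤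
      ((ρ : ℝ) + 1) * (f n (ρ + 1) (N + 1) t : ℝ) := by linarith
  exact le_of_mul_le_mul_left h5 (by linarith)

/-- Regime B. -/
theorem two_sided_B (hρ : 1 ≤ ρ) (hη : 0 < η) (hη1 : η ≤ 1 / 20)
    (h : (ρ : ℝ) ≤ η ^ 2 / 2 * N) (hNt : N + 1 < t) (htn : t < n)
    (hreg : ((ρ : ℝ) + 1) * ((n : ℝ) - t + 1) ≤ n)
    (hB : (N : ℝ) + 1 ≤ η ^ 2 / 8 * (ρ * ((n : ℝ) - t + 1))) :
    (1 - 7 * η) * ((N.choose ρ : ℝ) * (((n : ℝ) - t + 1) *
      (((ρ : ℝ) + 1) ^ (ρ + 1) / (ρ : ℝ) ^ ρ))) ≤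
      ((ρ : ℝ) + 1) * (f n (ρ + 1) (N + 1) t : ℝ) ∧
    ((ρ : ℝ) + 1) * (f n (ρ + 1) (N + 1) t : ℝ) ≤
      Real.exp (2 * η) * ((N.choose ρ : ℝ) * (((n : ℝ) - t + 1) *
      (((ρ : ℝ) + 1) ^ (ρ + 1) / (ρ : ℝ) ^ ρ))) := by
  obtain ⟨hN0, hρN, hQ⟩ := N_facts hρ hη hη1 h
  have hρR : (1 : ℝ) ≤ ρ := by exact_mod_cast hρ
  constructor
  · obtain ⟨𝒜, h𝒜, hf⟩ := f_spec (n := n) (r := ρ + 1) (s := N + 1) (t := t) hNt.le
    rw [hf]
    exact lower_B hρ hη hη1 h htn h𝒜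
  · have hN1 : 1 ≤ N := by omega
    have htnR : (t : ℝ) < n := by exact_mod_cast htn
    obtain ⟨cn, hcn⟩ : ∃ cn, cn = n - t + 1 := ⟨_, rfl⟩
    obtain ⟨c, hc⟩ : ∃ c : ℝ, c = (n : ℝ) - t + 1 := ⟨_, rfl⟩
    have hccn : (cn : ℝ) = c := by rw [hcn, hc, Nat.cast_add, Nat.cast_sub htn.le]; simp
    have hc0 : 0 < c := by rw [hc]; linarith
    rw [← hc] at hreg hB ⊢
    obtain ⟨l, hl⟩ : ∃ l, l = (ρ * cn) / N := ⟨_, rfl⟩
    have hl1 : l * N ≤ ρ * cn := by rw [hl]; exact Nat.div_mul_le_self _ _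
    have hl2 : ρ * cn < (l + 1) * N := by
      rw [hl]; exact (Nat.div_lt_iff_lt_mul (by omega)).mp (Nat.lt_succ_self _)
    have hl1R : (l : ℝ) * N ≤ ρ * c := by rw [← hccn]; exact_mod_cast hl1
    have hl2R : ρ * c ≤ ((l : ℝ) + 1) * N := by rw [← hccn]; exact_mod_cast hl2.le
    -- l large
    have hl3 : 8 ≤ η ^ 2 * ((l : ℝ) + 1) := by
      have h1 : (N : ℝ) + 1 ≤ η ^ 2 / 8 * (((l : ℝ) + 1) * N) :=
        hB.trans (mul_le_mul_of_nonneg_left hl2R (by positivity))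
      have h2 : 1 * (N : ℝ) ≤ (η ^ 2 / 8 * ((l : ℝ) + 1)) * N := by nlinarith
      have h3 := le_of_mul_le_mul_right h2 hN0
      linarith
    have hl4 : 1 ≤ η * (l : ℝ) := by nlinarith [sq_nonneg η]
    have hlpos : 1 ≤ l := by
      rcases Nat.eq_zero_or_pos l with h0 | h0
      · rw [h0] at hl4; simp at hl4; linarith
      · exact h0
    have hlR : (1 : ℝ) ≤ l := by exact_mod_cast hlpos
    have hlt : l * N < t := by
      have h1 : (ρ + 1) * cn ≤ n := by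
        have : (((ρ + 1) * cn : ℕ) : ℝ) ≤ n := by push_cast; rw [hccn]; exact hreg
        exact_mod_cast this
      have h2 : (ρ + 1) * cn = ρ * cn + cn := by ring
      omega
    obtain ⟨m, hm⟩ : ∃ m : ℝ, m = l * N + c := ⟨_, rfl⟩
    have hmain := f_le_balanced hρ hρN hlpos hlt htn hc hm
    have hlN0 : (0 : ℝ) < (l : ℝ) * N := by positivity
    have hm0 : 0 < m := by rw [hm]; positivity
    have hR := ratio_exp (ρ := ρ) hρ hc0 hlN0 hl1R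
    have hw : ρ * c / (l * N) - 1 ≤ η := by
      rw [sub_le_iff_le_add, div_le_iff₀ hlN0]
      calc ρ * c ≤ ((l : ℝ) + 1) * N := hl2R
        _ ≤ (η + 1) * (l * N) := by nlinarith [mul_nonneg hN0.le (by linarith : 0 ≤ η * l - 1)]
    have hE : ρ * (ρ - 1) * c / (((N : ℝ) - ρ + 1) * m) ≤ η := by
      rw [div_le_iff₀ (mul_pos (by linarith) hm0)]
      have hm2 : ρ * c / 2 ≤ m := by
        have h1 : ((l : ℝ) + 1) * N ≤ 2 * (l * N) := by nlinarith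
        rw [hm]; linarith
      have h1 : (N : ℝ) / 2 * (ρ * c / 2) ≤ ((N : ℝ) - ρ + 1) * m :=
        mul_le_mul hQ hm2 (by positivity) (by linarith)
      have h3 : η * ((N : ℝ) / 2 * (ρ * c / 2)) ≤ η * (((N : ℝ) - ρ + 1) * m) :=
        mul_le_mul_of_nonneg_left h1 hη.le
      have h4 : (ρ : ℝ) * (ρ - 1) * c ≤ η * ((N : ℝ) / 2 * (ρ * c / 2)) := by
        have h5 : (ρ : ℝ) - 1 ≤ η * N / 4 := by
          have : η ^ 2 / 2 * (N : ℝ) ≤ η * N / 4 := by nlinarith [mul_pos hη hN0]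
          linarith
        have h6 : (0 : ℝ) ≤ ρ * c := by positivity
        calc (ρ : ℝ) * (ρ - 1) * c = (ρ * c) * (ρ - 1) := by ring
          _ ≤ (ρ * c) * (η * N / 4) := mul_le_mul_of_nonneg_left h5 h6
          _ = _ := by ring
      linarith
    refine hmain.trans ?_
    have hNc : (0 : ℝ) ≤ (N.choose ρ : ℝ) := by positivity
    have e1 : m * (m / (l * N)) ^ ρ = (c + l * N) * ((c + l * N) / (l * N)) ^ ρ := by
      rw [hm, add_comm ((l : ℝ) * N) c]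
    rw [e1]
    obtain ⟨X, hX⟩ : ∃ X : ℝ, X = c * (((ρ : ℝ) + 1) ^ (ρ + 1) / (ρ : ℝ) ^ ρ) := ⟨_, rfl⟩
    rw [← hX] at hR ⊢
    have hX0 : 0 ≤ X := by rw [hX]; positivity
    calc (N.choose ρ : ℝ) * ((c + l * N) * ((c + l * N) / (l * N)) ^ ρ) *
        Real.exp (ρ * (ρ - 1) * c / (((N : ℝ) - ρ + 1) * m))
        ≤ (N.choose ρ : ℝ) * (Real.exp η * X) * Real.exp η := by
          apply mul_le_mul _ (Real.exp_le_exp.mpr hE) (Real.exp_pos _).le (by positivity)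
          apply mul_le_mul_of_nonneg_left _ hNc
          refine hR.trans ?_
          exact mul_le_mul_of_nonneg_right (Real.exp_le_exp.mpr hw) hX0
      _ = _ := by
          have : Real.exp (2 * η) = Real.exp η * Real.exp η := by
            rw [← Real.exp_add]; congr 1; ring
          rw [this]; ring

/-- Regime C. -/
theorem two_sided_C (hρ : 1 ≤ ρ) (hη : 0 < η) (hη1 : η ≤ 1 / 20)
    (h : (ρ : ℝ) ≤ η ^ 2 / 2 * N) (hNt : N + 1 < t) (htn : t < n)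
    (hreg : (ρ : ℝ) * ((n : ℝ) - t + 1) ≤ N) :
    (1 - 5 * η) * ((n - t + (N + 1)).choose (ρ + 1) : ℝ) ≤ (f n (ρ + 1) (N + 1) t : ℝ) ∧
    (f n (ρ + 1) (N + 1) t : ℝ) ≤ ((n - t + (N + 1)).choose (ρ + 1) : ℝ) := by
  obtain ⟨hN0, hρN, hQ⟩ := N_facts hρ hη hη1 h
  have hρR : (1 : ℝ) ≤ ρ := by exact_mod_cast hρ
  refine ⟨?_, by exact_mod_cast f_le_one (n := n) (ρ := ρ) (by omega : N < t) htn⟩
  obtain ⟨𝒜, h𝒜, hf⟩ := f_spec (n := n) (r := ρ + 1) (s := N + 1) (t := t) hNt.le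
  rw [hf]
  have h1 := lower_C hρ hη hη1 h htn h𝒜 hreg
  change (1 - 5 * η) * ((n - t + (N + 1)).choose (ρ + 1) : ℝ) ≤ ((shad (ρ + 1) 𝒜).card : ℝ)
  obtain ⟨c, hc⟩ : ∃ c : ℝ, c = (n : ℝ) - t + 1 := ⟨_, rfl⟩
  have htnR : (t : ℝ) < n := by exact_mod_cast htn
  have hc0 : 0 < c := by rw [hc]; linarith
  have h2 := choose_C_le hρ hρN htn hc
  rw [← hc] at h1 hreg
  have hE : ρ * (ρ - 1) * c / (((N : ℝ) - ρ + 1) * (c + N)) ≤ η := by
    rw [div_le_iff₀ (mul_pos (by linarith) (by linarith))]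
    have h3 : (N : ℝ) / 2 * N ≤ ((N : ℝ) - ρ + 1) * (c + N) :=
      mul_le_mul hQ (by linarith) hN0.le (by linarith)
    have h4 : η * ((N : ℝ) / 2 * N) ≤ η * (((N : ℝ) - ρ + 1) * (c + N)) :=
      mul_le_mul_of_nonneg_left h3 hη.le
    have h5 : (ρ : ℝ) * (ρ - 1) * c ≤ ρ * N := by
      calc (ρ : ℝ) * (ρ - 1) * c = (ρ * c) * (ρ - 1) := by ring
        _ ≤ N * (ρ - 1) := mul_le_mul_of_nonneg_right hreg (by linarith)
        _ ≤ _ := by nlinarith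
    have h6 : (ρ : ℝ) * N ≤ η * ((N : ℝ) / 2 * N) := by
      have h7 : (ρ : ℝ) ≤ η * (N / 2) := by
        have : η ^ 2 / 2 * (N : ℝ) ≤ η * (N / 2) := by nlinarith [mul_pos hη hN0]
        linarith
      calc (ρ : ℝ) * N ≤ (η * (N / 2)) * N := mul_le_mul_of_nonneg_right h7 hN0.le
        _ = _ := by ring
    linarith
  have hexp := exp_mul_le hE (by linarith)
  obtain ⟨X, hX⟩ : ∃ X : ℝ, X = (N.choose ρ : ℝ) * ((c + N) * ((c + N) / N) ^ ρ) := ⟨_, rfl⟩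
  rw [← hX] at h1 h2
  have hX0 : 0 ≤ X := by rw [hX]; positivity
  obtain ⟨e, he⟩ : ∃ e : ℝ, e =
    Real.exp (ρ * (ρ - 1) * c / (((N : ℝ) - ρ + 1) * (c + N))) := ⟨_, rfl⟩
  rw [← he] at h2 hexp
  have h4 : (1 - 5 * η) * (((ρ : ℝ) + 1) * ((n - t + (N + 1)).choose (ρ + 1) : ℝ)) ≤
      ((ρ : ℝ) + 1) * ((shad (ρ + 1) 𝒜).card : ℝ) := by
    have hk2 : (0 : ℝ) ≤ ((ρ : ℝ) + 1) * ((n - t + (N + 1)).choose (ρ + 1) : ℝ) := by positivity
    calc (1 - 5 * η) * (((ρ : ℝ) + 1) * ((n - t + (N + 1)).choose (ρ + 1) : ℝ)) ≤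
        ((1 - 4 * η) * (1 - η)) * (((ρ : ℝ) + 1) * ((n - t + (N + 1)).choose (ρ + 1) : ℝ)) := by
          apply mul_le_mul_of_nonneg_right _ hk2; nlinarith
      _ ≤ ((1 - 4 * η) * (1 - η)) * (X * e) := by
          apply mul_le_mul_of_nonneg_left h2
          apply mul_nonneg <;> linarith
      _ = (1 - 4 * η) * X * (e * (1 - η)) := by ring
      _ ≤ (1 - 4 * η) * X * 1 := by
          apply mul_le_mul_of_nonneg_left hexp
          apply mul_nonneg (by linarith) hX0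
      _ = (1 - 4 * η) * X := mul_one _
      _ ≤ _ := h1
  have h5 : ((ρ : ℝ) + 1) * ((1 - 5 * η) * ((n - t + (N + 1)).choose (ρ + 1) : ℝ)) ≤
      ((ρ : ℝ) + 1) * ((shad (ρ + 1) 𝒜).card : ℝ) := by linarith
  exact le_of_mul_le_mul_left h5 (by linarith)

end

end Pool.Agent.Lib.MP_455133_co
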