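import Mathlib
import Pool.Agent.Lib.MP_455133_co.Defs

/-!
Upper bounds for `f` by random blocks of size `x` (greedy covering).
-/

namespace Pool.Agent.Lib.MP_455133_co

open Finset

/-- Greedy covering: if every target is good for a proportion `q` of the blocks, then `k` blocks
leave at most a proportion `(1-q)^k` of the targets uncovered. -/
theorem greedy {α β : Type*} (𝒳 : Finset α) (𝒯 : Finset β)
    (Good : α → β → Prop) (q : ℝ) (hne : 𝒳.Nonempty)
    (hq1 : q ≤ 1)
    (hq : ∀ T ∈ 𝒯, ∃ G ⊆ 𝒳, (∀ x ∈ G, Good x T) ∧ q * (𝒳.card : ℝ) ≤ (G.card : ℝ)) (k : ℕ) :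
    ∃ Y : Finset α, Y ⊆ 𝒳 ∧ Y.card ≤ k ∧ ∃ U : Finset β, (∀ T ∈ 𝒯, (∀ x ∈ Y, ¬ Good x T) → T ∈ U) ∧
      U ⊆ 𝒯 ∧ (U.card : ℝ) ≤ (1 - q) ^ k * (𝒯.card : ℝ) := by
  classical
  induction k with
  | zero => exact ⟨∅, by simp, by simp, 𝒯, fun T hT _ => hT, Subset.rfl, by simp⟩
  | succ k ih =>
    obtain ⟨Y, hY, hYk, U, hU, hU𝒯, hYc⟩ := ih
    -- averaging
    have hsum : ∑ x ∈ 𝒳, ((U.filter (fun T => Good x T)).card : ℝ) =
        ∑ T ∈ U, ((𝒳.filter (fun x => Good x T)).card : ℝ) := by
      simp only [card_filter, Nat.cast_sum]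
      rw [sum_comm]
    have hge : ∑ x ∈ 𝒳, q * (U.card : ℝ) ≤ ∑ x ∈ 𝒳, ((U.filter (fun T => Good x T)).card : ℝ) := by
      rw [hsum]
      have : ∑ x ∈ 𝒳, q * (U.card : ℝ) = ∑ T ∈ U, q * (𝒳.card : ℝ) := by
        simp only [sum_const, nsmul_eq_mul]; ring
      rw [this]
      apply sum_le_sum
      intro T hT
      obtain ⟨G, hG, hG1, hG2⟩ := hq T (hU𝒯 hT)
      refine hG2.trans ?_
      have : G.card ≤ (𝒳.filter (fun x => Good x T)).card :=
        card_le_card fun x hx => mem_filter.mpr ⟨hG hx, hG1 x hx⟩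
      exact_mod_cast this
    obtain ⟨x, hx, hxc⟩ := exists_le_of_sum_le hne hge
    refine ⟨insert x Y, insert_subset hx hY, (card_insert_le _ _).trans (by omega),
      U.filter (fun T => ¬ Good x T), ?_, (filter_subset _ _).trans hU𝒯, ?_⟩
    · intro T hT h
      rw [mem_filter]
      exact ⟨hU T hT fun y hy => h y (mem_insert_of_mem hy), h x (mem_insert_self _ _)⟩
    have h2 : ((U.filter (fun T => Good x T)).card : ℝ) +
        ((U.filter (fun T => ¬ Good x T)).card : ℝ) = (U.card : ℝ) := by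
      exact_mod_cast card_filter_add_card_filter_not (s := U) (fun T => Good x T)
    calc ((U.filter (fun T => ¬ Good x T)).card : ℝ) ≤ (1 - q) * (U.card : ℝ) := by linarith
      _ ≤ (1 - q) * ((1 - q) ^ k * (𝒯.card : ℝ)) :=
          mul_le_mul_of_nonneg_left hYc (by linarith)
      _ = (1 - q) ^ (k + 1) * (𝒯.card : ℝ) := by ring

/-- The number of `x`-sets meeting `T` in at least `s` points. -/
theorem good_count {n s x : ℕ} (hsx : s ≤ x) (T : Finset (Fin n)) :
    T.card.choose s * (n - T.card).choose (x - s) ≤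
      ((powersetCard x (univ : Finset (Fin n))).filter (fun X => s ≤ (X ∩ T).card)).card := by
  have hinj : Set.InjOn (fun p : Finset (Fin n) × Finset (Fin n) => p.1 ∪ p.2)
      (powersetCard s T ×ˢ powersetCard (x - s) Tᶜ : Finset _) := by
    rintro ⟨A, B⟩ h ⟨A', B'⟩ h' heq
    simp only [mem_coe, mem_product, mem_powersetCard] at h h'
    simp only at heq
    have hd : ∀ {A B : Finset (Fin n)}, A ⊆ T → B ⊆ Tᶜ → (A ∪ B) ∩ T = A ∧ (A ∪ B) \ T = B := by
      intro A B hA hB
      constructor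
      · ext y
        simp only [mem_inter, mem_union]
        constructor
        · rintro ⟨h1 | h1, h2⟩
          · exact h1
          · exact absurd h2 (mem_compl.mp (hB h1))
        · intro h1; exact ⟨Or.inl h1, hA h1⟩
      · ext y
        simp only [mem_sdiff, mem_union]
        constructor
        · rintro ⟨h1 | h1, h2⟩
          · exact absurd (hA h1) h2
          · exact h1
        · intro h1; exact ⟨Or.inr h1, mem_compl.mp (hB h1)⟩
    have e1 := hd h.1.1 h.2.1
    have e2 := hd h'.1.1 h'.2.1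
    rw [Prod.mk.injEq]
    exact ⟨by rw [← e1.1, ← e2.1, heq], by rw [← e1.2, ← e2.2, heq]⟩
  have hsub : (powersetCard s T ×ˢ powersetCard (x - s) Tᶜ).image (fun p => p.1 ∪ p.2) ⊆
      (powersetCard x (univ : Finset (Fin n))).filter (fun X => s ≤ (X ∩ T).card) := by
    intro X hX
    rw [mem_image] at hX
    obtain ⟨⟨A, B⟩, h, rfl⟩ := hX
    simp only [mem_product, mem_powersetCard] at h
    simp only [mem_filter, mem_powersetCard, subset_univ, true_and]
    have hdis : Disjoint A B := by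
      rw [disjoint_left]
      intro y hy hy'
      exact (mem_compl.mp (h.2.1 hy')) (h.1.1 hy)
    refine ⟨?_, ?_⟩
    · rw [card_union_of_disjoint hdis, h.1.2, h.2.2]; omega
    · rw [← h.1.2]
      apply card_le_card
      intro y hy
      exact mem_inter.mpr ⟨mem_union_left _ hy, h.1.1 hy⟩
  refine le_trans (le_of_eq ?_) (card_le_card hsub)
  rw [card_image_of_injOn hinj, card_product, card_powersetCard, card_powersetCard, card_compl,
    Fintype.card_fin]

/-- Random blocks of size `x`. -/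
theorem f_le_random {n r s t x k : ℕ} (hsx : s ≤ x) (hxn : x ≤ n) {q : ℝ}
    (hq1 : q ≤ 1)
    (hq : q * (n.choose x : ℝ) ≤ (t.choose s : ℝ) * ((n - t).choose (x - s) : ℝ))
    (hk : (1 - q) ^ k * (n.choose t : ℝ) < 1) :
    f n r s t ≤ k * x.choose r := by
  have hne : (powersetCard x (univ : Finset (Fin n))).Nonempty := by
    rw [powersetCard_nonempty]; simpa using hxn
  obtain ⟨Y, hY, hYk, U, hU, -, hYc⟩ := greedy (powersetCard x (univ : Finset (Fin n)))
    (powersetCard t (univ : Finset (Fin n))) (fun X T => s ≤ (X ∩ T).card) q hne hq1 (by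
      intro T hT
      have hTc : T.card = t := (mem_powersetCard.mp hT).2
      refine ⟨(powersetCard x (univ : Finset (Fin n))).filter (fun X => s ≤ (X ∩ T).card),
        filter_subset _ _, fun X hX => (mem_filter.mp hX).2, ?_⟩
      rw [card_powersetCard, card_univ, Fintype.card_fin]
      refine hq.trans ?_
      have := good_count hsx T
      rw [hTc] at this
      exact_mod_cast this) k
  rw [card_powersetCard, card_univ, Fintype.card_fin] at hYc
  have h0 : U = ∅ := by
    have h1 : (U.card : ℝ) < 1 := lt_of_le_of_lt hYc hk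
    have h2 : U.card < 1 := by exact_mod_cast h1
    rw [← card_eq_zero]; omega
  let 𝒜 : Finset (Finset (Fin n)) := Y.biUnion fun X => powersetCard s X
  have h𝒜 : IsCovering s t 𝒜 := by
    refine ⟨?_, ?_⟩
    · intro A hA
      simp only [𝒜, mem_biUnion, mem_powersetCard] at hA
      obtain ⟨X, -, -, h⟩ := hA
      exact h
    · intro C hC
      have : ∃ X ∈ Y, s ≤ (X ∩ C).card := by
        by_contra hcon
        push Not at hcon
        have := hU C (mem_powersetCard.mpr ⟨subset_univ C, hC⟩)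
          (fun X hX => Nat.not_le.mpr (hcon X hX))
        rw [h0] at this
        exact absurd this (notMem_empty _)
      obtain ⟨X, hX, hc⟩ := this
      obtain ⟨A, hA, hAc⟩ := exists_subset_card_eq hc
      refine ⟨A, ?_, hA.trans inter_subset_right⟩
      simp only [𝒜, mem_biUnion, mem_powersetCard]
      exact ⟨X, hX, hA.trans inter_subset_left, hAc⟩
  refine (f_le h𝒜).trans ?_
  have hsub : lowerShadow r 𝒜 ⊆ Y.biUnion fun X => powersetCard r X := by
    intro R hR
    simp only [lowerShadow, 𝒜, mem_filter, mem_powersetCard, mem_biUnion] at hR ⊢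
    obtain ⟨⟨-, hc⟩, A, ⟨X, hX, hAX, -⟩, hRA⟩ := hR
    exact ⟨X, hX, hRA.trans hAX, hc⟩
  refine (card_le_card hsub).trans (card_biUnion_le.trans ?_)
  calc ∑ X ∈ Y, (powersetCard r X).card = ∑ X ∈ Y, x.choose r := by
        apply sum_congr rfl
        intro X hX
        rw [card_powersetCard, (mem_powersetCard.mp (hY hX)).2]
    _ = Y.card * x.choose r := by simp
    _ ≤ k * x.choose r := Nat.mul_le_mul_right _ hYk

/-- Form with the logarithm. -/
theorem f_le_log {n r s t x : ℕ} (hsx : s ≤ x) (hxn : x ≤ n) (htn : t ≤ n) {q : ℝ}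
    (hq0 : 0 < q) (hq1 : q ≤ 1)
    (hq : q * (n.choose x : ℝ) ≤ (t.choose s : ℝ) * ((n - t).choose (x - s) : ℝ)) :
    (f n r s t : ℝ) ≤ (1 + Real.log (n.choose t)) * ((x.choose r : ℝ) / q) := by
  have hC : (1 : ℝ) ≤ (n.choose t : ℝ) := by
    exact_mod_cast Nat.choose_pos htn
  set L := Real.log (n.choose t) with hL
  have hL0 : 0 ≤ L := Real.log_nonneg hC
  set k := ⌊L / q⌋₊ + 1 with hkdef
  have hk1 : L / q < k := by
    rw [hkdef]; push_cast; exact Nat.lt_floor_add_one _
  have hk2 : (k : ℝ) ≤ L / q + 1 := by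
    rw [hkdef]; push_cast
    have := Nat.floor_le (div_nonneg hL0 hq0.le)
    linarith
  have hk : (1 - q) ^ k * (n.choose t : ℝ) < 1 := by
    have h1 : (1 - q) ^ k ≤ Real.exp (-(q * k)) := by
      have h2 : 1 - q ≤ Real.exp (-q) := by
        have := Real.add_one_le_exp (-q); linarith
      calc (1 - q) ^ k ≤ (Real.exp (-q)) ^ k := pow_le_pow_left₀ (by linarith) h2 k
        _ = Real.exp (-(q * k)) := by rw [← Real.exp_nat_mul]; congr 1; ring
    have h3 : Real.exp (-(q * k)) < Real.exp (-L) := by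
      apply Real.exp_lt_exp.mpr
      rw [div_lt_iff₀ hq0] at hk1
      linarith
    have h4 : Real.exp (-L) = (n.choose t : ℝ)⁻¹ := by
      rw [Real.exp_neg, hL, Real.exp_log (by linarith)]
    have h5 : (1 - q) ^ k < (n.choose t : ℝ)⁻¹ := by
      rw [← h4]; exact lt_of_le_of_lt h1 h3
    have h6 := mul_lt_mul_of_pos_right h5 (by linarith : (0:ℝ) < (n.choose t : ℝ))
    rwa [inv_mul_cancel₀ (by linarith)] at h6
  have hmain := f_le_random (r := r) hsx hxn hq1 hq hk
  have h1 : (f n r s t : ℝ) ≤ (k : ℝ) * (x.choose r : ℝ) := by exact_mod_cast hmain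
  have h2 : (0 : ℝ) ≤ (x.choose r : ℝ) := by positivity
  calc (f n r s t : ℝ) ≤ (k : ℝ) * (x.choose r : ℝ) := h1
    _ ≤ (L / q + 1) * (x.choose r : ℝ) := mul_le_mul_of_nonneg_right hk2 h2
    _ ≤ (L / q + 1 / q) * (x.choose r : ℝ) := by
        apply mul_le_mul_of_nonneg_right _ h2
        have : 1 ≤ 1 / q := by rw [le_div_iff₀ hq0]; linarith
        linarith
    _ = (1 + L) * ((x.choose r : ℝ) / q) := by ring

end Pool.Agent.Lib.MP_455133_co
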