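import Mathlib

/-!
A lower bound for the largest hypergeometric probability, at a prescribed value.
-/

namespace Pool.Agent.Lib.MP_455133_co

open Finset

/-- hypergeometric weights -/
def hw (a b z i : ℕ) : ℕ := a.choose i * b.choose (z - i)

theorem sum_hw (a b z : ℕ) : ∑ i ∈ range (z + 1), hw a b z i = (a + b).choose z := by
  rw [Nat.add_choose_eq, Nat.sum_antidiagonal_eq_sum_range_succ_mk]
  rfl

theorem sum_hw1 (a b z : ℕ) (ha : 1 ≤ a) (hz : 1 ≤ z) :
    ∑ i ∈ range (z + 1), i * hw a b z i = a * (a + b - 1).choose (z - 1) := by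
  obtain ⟨a, rfl⟩ : ∃ a', a = a' + 1 := ⟨a - 1, by omega⟩
  obtain ⟨z, rfl⟩ : ∃ z', z = z' + 1 := ⟨z - 1, by omega⟩
  rw [sum_range_succ']
  simp only [zero_mul, add_zero]
  have h : ∀ i ∈ range (z + 1), (i + 1) * hw (a+1) b (z+1) (i+1) = (a+1) * hw a b z i := by
    intro i _
    simp only [hw]
    have h1 := Nat.add_one_mul_choose_eq a i
    have h2 : z + 1 - (i + 1) = z - i := by omega
    rw [h2, ← mul_assoc, ← mul_assoc, h1]
    ring
  rw [sum_congr rfl h, ← mul_sum, sum_hw]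
  congr 2
  omega

theorem sum_hw2 (a b z : ℕ) (ha : 2 ≤ a) (hz : 2 ≤ z) :
    ∑ i ∈ range (z + 1), i * (i - 1) * hw a b z i = a * (a - 1) * (a + b - 2).choose (z - 2) := by
  obtain ⟨a, rfl⟩ : ∃ a', a = a' + 1 := ⟨a - 1, by omega⟩
  obtain ⟨z, rfl⟩ : ∃ z', z = z' + 1 := ⟨z - 1, by omega⟩
  rw [sum_range_succ']
  simp only [zero_mul, add_zero]
  have h : ∀ i ∈ range (z + 1), (i + 1) * (i + 1 - 1) * hw (a+1) b (z+1) (i+1) =
      (a+1) * (i * hw a b z i) := by
    intro i _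
    simp only [hw]
    have h1 := Nat.add_one_mul_choose_eq a i
    have h2 : z + 1 - (i + 1) = z - i := by omega
    rw [h2, Nat.add_sub_cancel]
    calc (i + 1) * i * ((a + 1).choose (i + 1) * b.choose (z - i)) =
        i * (((a + 1).choose (i + 1) * (i + 1)) * b.choose (z - i)) := by ring
      _ = i * (((a + 1) * a.choose i) * b.choose (z - i)) := by rw [h1]
      _ = _ := by ring
  rw [sum_congr rfl h, ← mul_sum, sum_hw1 a b z (by omega) (by omega)]
  rw [Nat.add_sub_cancel, mul_assoc]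
  congr 3
  omega

/-- Ratio of consecutive weights. -/
theorem hw_ratio (a b z i : ℕ) (hi : i + 1 ≤ z) :
    hw a b z (i+1) * ((i + 1) * (b - (z - i - 1))) = hw a b z i * ((a - i) * (z - i)) := by
  obtain ⟨j, hj⟩ : ∃ j, z - i = j + 1 := ⟨z - i - 1, by omega⟩
  have h1 := Nat.choose_succ_right_eq a i
  have h2 := Nat.choose_succ_right_eq b j
  have h3 : z - (i + 1) = j := by omega
  have h4 : z - i - 1 = j := by omega
  simp only [hw]
  rw [h3, h4, hj]
  calc a.choose (i + 1) * b.choose j * ((i + 1) * (b - j)) =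
      (a.choose (i+1) * (i+1)) * (b.choose j * (b - j)) := by ring
    _ = (a.choose i * (a - i)) * (b.choose (j+1) * (j+1)) := by rw [h1, h2]
    _ = _ := by ring

theorem hw_up (a b z i : ℕ) (hi : i + 1 ≤ z) (h : (i + 1) * (a + b + 2) ≤ (z + 1) * (a + 1)) :
    hw a b z i ≤ hw a b z (i + 1) := by
  have hr := hw_ratio a b z i hi
  by_cases hb : b ≤ z - i - 1
  · have : b.choose (z - i) = 0 := Nat.choose_eq_zero_of_lt (by omega)
    simp [hw, this]
  push Not at hb
  by_cases hai : a ≤ i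
  · exfalso
    -- (i+1)(a+b+2) > (z+1)(a+1)
    obtain ⟨j, hj⟩ : ∃ j, z = i + 1 + j := ⟨z - i - 1, by omega⟩
    have hjb : j < b := by omega
    subst hj
    have : (i + 1) * (a + b + 2) = (i+1)*(a+1) + (i+1)*(b+1) := by ring
    have h2 : (i + 1 + j + 1) * (a + 1) = (i+1)*(a+1) + (j+1)*(a+1) := by ring
    have h3 : (j+1) * (a+1) < (b+1) * (i+1) := by
      apply Nat.mul_lt_mul_of_lt_of_le (by omega) (by omega) (by omega)
    have h4 : (b+1)*(i+1) = (i+1)*(b+1) := mul_comm _ _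
    omega
  push Not at hai
  have hpos : 0 < (i + 1) * (b - (z - i - 1)) := Nat.mul_pos (by omega) (by omega)
  have hle : (i + 1) * (b - (z - i - 1)) ≤ (a - i) * (z - i) := by
    obtain ⟨j, hj⟩ : ∃ j, z = i + 1 + j := ⟨z - i - 1, by omega⟩
    obtain ⟨k, hk⟩ : ∃ k, b = j + k := ⟨b - j, by omega⟩
    obtain ⟨l, hl⟩ : ∃ l, a = i + l := ⟨a - i, by omega⟩
    subst hj hk hl
    have e1 : j + k - (i + 1 + j - i - 1) = k := by omega
    have e2 : i + l - i = l := by omega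
    have e3 : i + 1 + j - i = j + 1 := by omega
    rw [e1, e2, e3]
    nlinarith
  have : hw a b z i * ((i + 1) * (b - (z - i - 1))) ≤
      hw a b z (i+1) * ((i + 1) * (b - (z - i - 1))) := by
    rw [hr]; exact Nat.mul_le_mul_left _ hle
  exact Nat.le_of_mul_le_mul_right this hpos

theorem hw_down (a b z i : ℕ) (hi : i + 1 ≤ z) (h : (z + 1) * (a + 1) ≤ (i + 1) * (a + b + 2)) :
    hw a b z (i + 1) ≤ hw a b z i := by
  have hr := hw_ratio a b z i hi
  by_cases hai : a ≤ i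
  · have : a.choose (i+1) = 0 := Nat.choose_eq_zero_of_lt (by omega)
    simp [hw, this]
  push Not at hai
  have hle : (a - i) * (z - i) ≤ (i + 1) * (b - (z - i - 1)) := by
    obtain ⟨j, hj⟩ : ∃ j, z = i + 1 + j := ⟨z - i - 1, by omega⟩
    obtain ⟨l, hl⟩ : ∃ l, a = i + l := ⟨a - i, by omega⟩
    subst hj hl
    have e2 : i + l - i = l := by omega
    have e3 : i + 1 + j - i = j + 1 := by omega
    have e4 : i + 1 + j - i - 1 = j := by omega
    rw [e2, e3]
    have hbj : j ≤ b := by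
      by_contra hlt
      push Not at hlt
      have hl : 1 ≤ l := by omega
      have h5 : (i + 1 + j + 1) * (i + l + 1) ≤ (i + 1) * (i + l + b + 2) := h
      have h6 : (i + 1) * (i + l + b + 2) = (i+1)*(i+l+1) + (i+1)*(b+1) := by ring
      have h7 : (i + 1 + j + 1) * (i + l + 1) = (i+1)*(i+l+1) + (j+1)*(i+l+1) := by ring
      have h8 : (b+1)*(i+1) < (j+1)*(i+l+1) := by
        apply Nat.mul_lt_mul_of_lt_of_le (by omega) (by omega) (by omega)
      have h9 : (b+1)*(i+1) = (i+1)*(b+1) := mul_comm _ _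
      omega
    obtain ⟨k, hk⟩ : ∃ k, b = j + k := ⟨b - j, by omega⟩
    subst hk
    have e1 : j + k - (j + 1 - 1) = k := by omega
    rw [e1]
    nlinarith
  have hpos : 0 < (i + 1) * (b - (z - i - 1)) := by
    refine lt_of_lt_of_le ?_ hle
    exact Nat.mul_pos (by omega) (by omega)
  have : hw a b z (i+1) * ((i + 1) * (b - (z - i - 1))) ≤
      hw a b z i * ((i + 1) * (b - (z - i - 1))) := by
    rw [hr]; exact Nat.mul_le_mul_left _ hle
  exact Nat.le_of_mul_le_mul_right this hpos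

theorem hw_mode {a b z σ : ℕ} (h1 : σ * (a + b + 2) ≤ (z + 1) * (a + 1))
    (h2 : (z + 1) * (a + 1) ≤ (σ + 1) * (a + b + 2)) (hσz : σ ≤ z) :
    ∀ i ≤ z, hw a b z i ≤ hw a b z σ := by
  intro i hi
  rcases Nat.le_total i σ with h | h
  · -- increasing
    obtain ⟨d, rfl⟩ := Nat.exists_eq_add_of_le h
    induction d generalizing i with
    | zero => exact le_rfl
    | succ d ih =>
      have e : i + (d + 1) = i + 1 + d := by ring
      rw [e] at h1 h2 hσz ⊢
      refine le_trans ?_ (ih (i+1) (by omega) h1 h2 hσz (by omega))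
      apply hw_up _ _ _ _ (by omega)
      refine le_trans ?_ h1
      apply Nat.mul_le_mul_right; omega
  · obtain ⟨d, rfl⟩ := Nat.exists_eq_add_of_le h
    induction d with
    | zero => exact le_rfl
    | succ d ih =>
      refine le_trans ?_ (ih (by omega) (by omega))
      have e : σ + (d + 1) = σ + d + 1 := by ring
      rw [e]
      apply hw_down _ _ _ _ (by omega)
      refine h2.trans ?_
      apply Nat.mul_le_mul_right; omega

/-- Choice of `z`. -/
theorem exists_z (a b σ : ℕ) (hσ : 1 ≤ σ) (hσa : σ ≤ a) :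
    ∃ z, σ ≤ z ∧ z ≤ σ + b ∧ σ * (a + b + 2) ≤ (z + 1) * (a + 1) ∧
      (z + 1) * (a + 1) ≤ σ * (a + b + 2) + a := by
  set M := σ * (a + b + 2) with hM
  have hd := Nat.div_add_mod (M + a) (a + 1)
  have hm := Nat.mod_lt (M + a) (by omega : 0 < a + 1)
  set k := (M + a) / (a + 1) with hk
  have h1 : (a + 1) * k ≤ M + a := by omega
  have h2 : M ≤ (a + 1) * k := by omega
  have hMe : M = σ * (a + 1) + σ * (b + 1) := by rw [hM]; ring
  have hk1 : σ < k := by
    by_contra hle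
    push Not at hle
    have : (a + 1) * k ≤ (a + 1) * σ := Nat.mul_le_mul_left _ hle
    have h3 : (a + 1) * σ = σ * (a + 1) := mul_comm _ _
    have h4 : 0 < σ * (b + 1) := Nat.mul_pos (by omega) (by omega)
    omega
  have hk2 : k < σ + b + 2 := by
    by_contra hle
    push Not at hle
    have h3 : (a + 1) * (σ + b + 2) ≤ (a + 1) * k := Nat.mul_le_mul_left _ hle
    have h4 : σ * (b + 1) ≤ a * (b + 1) := Nat.mul_le_mul_right _ hσa
    nlinarith
  refine ⟨k - 1, by omega, by omega, ?_, ?_⟩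
  · have : k - 1 + 1 = k := by omega
    rw [this, mul_comm]; exact h2
  · have : k - 1 + 1 = k := by omega
    rw [this, mul_comm]; exact h1

/-- number of integers in an interval -/
theorem card_near (z : ℕ) (μ l : ℝ) (hμ : 0 ≤ μ) (hl : 0 ≤ l) :
    (((range (z + 1)).filter (fun i : ℕ => |(i : ℝ) - μ| < l)).card : ℝ) ≤ 2 * l + 1 := by
  have hsub : (range (z + 1)).filter (fun i : ℕ => |(i : ℝ) - μ| < l) ⊆
      Icc ⌈μ - l⌉₊ ⌊μ + l⌋₊ := by
    intro i hi
    rw [mem_filter, abs_lt] at hi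
    rw [mem_Icc]
    constructor
    · rw [Nat.ceil_le]; linarith [hi.2.1]
    · apply Nat.le_floor; linarith [hi.2.2]
  have h1 := card_le_card hsub
  rw [Nat.card_Icc] at h1
  have h2 : (⌊μ + l⌋₊ : ℝ) ≤ μ + l := Nat.floor_le (by linarith)
  have h3 : μ - l ≤ (⌈μ - l⌉₊ : ℝ) := Nat.le_ceil _
  rcases Nat.le_total ⌈μ - l⌉₊ (⌊μ + l⌋₊ + 1) with h | h
  · have h4 : (((⌊μ + l⌋₊ + 1 - ⌈μ - l⌉₊ : ℕ)) : ℝ) = (⌊μ + l⌋₊ : ℝ) + 1 - (⌈μ - l⌉₊ : ℝ) := by
      rw [Nat.cast_sub h]; push_cast; ring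
    have h5 : (((range (z + 1)).filter (fun i : ℕ => |(i : ℝ) - μ| < l)).card : ℝ) ≤
        (((⌊μ + l⌋₊ + 1 - ⌈μ - l⌉₊ : ℕ)) : ℝ) := by exact_mod_cast h1
    rw [h4] at h5
    linarith
  · rw [Nat.sub_eq_zero_of_le h] at h1
    have h5 : (((range (z + 1)).filter (fun i : ℕ => |(i : ℝ) - μ| < l)).card : ℝ) ≤ 0 := by
      exact_mod_cast h1
    linarith

/-- variance bound -/
theorem variance_le (a b z : ℕ) (ha : 2 ≤ a) (hz : 1 ≤ z) (hzab : z ≤ a + b) :
    ∑ i ∈ range (z + 1), ((i : ℝ) - (z * a / (a + b) : ℝ)) ^ 2 * (hw a b z i : ℝ) ≤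
      (z * a / (a + b) : ℝ) * ((a + b).choose z : ℝ) := by
  set μ : ℝ := (z * a / (a + b) : ℝ) with hμ
  set W : ℝ := ((a + b).choose z : ℝ) with hW
  have hab : (0 : ℝ) < (a : ℝ) + b := by positivity
  have hab1 : (0 : ℝ) < (a : ℝ) + b - 1 := by
    have : (2 : ℝ) ≤ a := by exact_mod_cast ha
    have : (0 : ℝ) ≤ b := by positivity
    linarith
  have h0 : ∑ i ∈ range (z + 1), (hw a b z i : ℝ) = W := by
    rw [hW, ← sum_hw]; push_cast; rfl
  have hid1 : ((a : ℝ) + b) * ((a + b - 1).choose (z - 1) : ℝ) = z * W := by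
    obtain ⟨z, rfl⟩ : ∃ z', z = z' + 1 := ⟨z - 1, by omega⟩
    obtain ⟨m, hm⟩ : ∃ m, a + b = m + 1 := ⟨a + b - 1, by omega⟩
    have := Nat.add_one_mul_choose_eq m z
    rw [hW, hm]
    simp only [Nat.add_sub_cancel]
    have h3 : (a : ℝ) + b = (m : ℝ) + 1 := by exact_mod_cast hm
    rw [h3]
    push_cast
    have h4 : ((m : ℝ) + 1) * (m.choose z : ℝ) = ((m + 1).choose (z + 1) : ℝ) * ((z : ℝ) + 1) := by
      exact_mod_cast this
    linarith
  have h1 : ∑ i ∈ range (z + 1), (i : ℝ) * (hw a b z i : ℝ) = μ * W := by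
    have h2 : ∑ i ∈ range (z + 1), (i : ℝ) * (hw a b z i : ℝ) =
        (a : ℝ) * ((a + b - 1).choose (z - 1) : ℝ) := by
      have := sum_hw1 a b z (by omega) hz
      exact_mod_cast this
    rw [h2, hμ]
    field_simp
    linarith
  have h2 : ∑ i ∈ range (z + 1), (i : ℝ) * ((i : ℝ) - 1) * (hw a b z i : ℝ) ≤ μ ^ 2 * W := by
    have hcast : ∀ i : ℕ, (i : ℝ) * ((i : ℝ) - 1) = ((i * (i - 1) : ℕ) : ℝ) := by
      intro i
      rcases Nat.eq_zero_or_pos i with h | h
      · simp [h]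
      · rw [Nat.cast_mul, Nat.cast_sub h]; simp
    rcases Nat.lt_or_ge z 2 with hz2 | hz2
    · have hz1 : z = 1 := by omega
      have : ∑ i ∈ range (z + 1), (i : ℝ) * ((i : ℝ) - 1) * (hw a b z i : ℝ) = 0 := by
        apply sum_eq_zero
        intro i hi
        rw [mem_range] at hi
        have : i = 0 ∨ i = 1 := by omega
        rcases this with rfl | rfl <;> simp
      rw [this]; positivity
    have h3 : ∑ i ∈ range (z + 1), (i : ℝ) * ((i : ℝ) - 1) * (hw a b z i : ℝ) =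
        (a : ℝ) * ((a : ℝ) - 1) * ((a + b - 2).choose (z - 2) : ℝ) := by
      have h5 := sum_hw2 a b z ha hz2
      have h6 : ((a * (a - 1) : ℕ) : ℝ) = (a : ℝ) * ((a : ℝ) - 1) := (hcast a).symm
      rw [← h6]
      simp only [hcast]
      exact_mod_cast h5
    have hid2 : ((a : ℝ) + b - 1) * ((a + b - 2).choose (z - 2) : ℝ) =
        ((z : ℝ) - 1) * ((a + b - 1).choose (z - 1) : ℝ) := by
      obtain ⟨z, rfl⟩ : ∃ z', z = z' + 2 := ⟨z - 2, by omega⟩
      obtain ⟨m, hm⟩ : ∃ m, a + b = m + 2 := ⟨a + b - 2, by omega⟩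
      have := Nat.add_one_mul_choose_eq m z
      rw [hm]
      have e1 : m + 2 - 2 = m := by omega
      have e2 : z + 2 - 2 = z := by omega
      have e3 : m + 2 - 1 = m + 1 := by omega
      have e4 : z + 2 - 1 = z + 1 := by omega
      rw [e1, e2, e3, e4]
      have h3 : (a : ℝ) + b = (m : ℝ) + 2 := by exact_mod_cast hm
      rw [h3]
      push_cast
      have h4 : ((m : ℝ) + 1) * (m.choose z : ℝ) =
          ((m + 1).choose (z + 1) : ℝ) * ((z : ℝ) + 1) := by
        exact_mod_cast this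
      linarith
    rw [h3]
    have hWpos : 0 ≤ W := by positivity
    have e1 : ((a + b - 1).choose (z - 1) : ℝ) = z * W / (a + b) := by
      field_simp; linarith
    have e2 : ((a + b - 2).choose (z - 2) : ℝ) =
        (z - 1) * z * W / ((a + b) * (a + b - 1)) := by
      have : ((a + b - 2).choose (z - 2) : ℝ) =
          ((z : ℝ) - 1) * ((a + b - 1).choose (z - 1) : ℝ) / ((a : ℝ) + b - 1) := by
        field_simp; linarith
      rw [this, e1]
      field_simp
    rw [e2, hμ]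
    have haR : (2 : ℝ) ≤ a := by exact_mod_cast ha
    have hzR : (2 : ℝ) ≤ z := by exact_mod_cast hz2
    have hbR : (0 : ℝ) ≤ b := by positivity
    have hzabR : (z : ℝ) ≤ a + b := by exact_mod_cast hzab
    rw [show (a : ℝ) * (a - 1) * ((z - 1) * z * W / ((a + b) * (a + b - 1))) =
      (a * z * W / (a + b)) * ((a - 1) * (z - 1) / (a + b - 1)) by field_simp]
    rw [show ((z : ℝ) * a / (a + b)) ^ 2 * W = (a * z * W / (a + b)) * (a * z / (a + b)) by
      field_simp]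
    apply mul_le_mul_of_nonneg_left _ (by positivity)
    rw [div_le_div_iff₀ hab1 hab]
    nlinarith [mul_nonneg (by linarith : (0:ℝ) ≤ a + z - 1) (by linarith : (0:ℝ) ≤ a + b - z),
      mul_nonneg (by linarith : (0:ℝ) ≤ z - 1) (by linarith : (0:ℝ) ≤ (z:ℝ))]
  have hexp : ∑ i ∈ range (z + 1), ((i : ℝ) - μ) ^ 2 * (hw a b z i : ℝ) =
      (∑ i ∈ range (z + 1), (i : ℝ) * ((i : ℝ) - 1) * (hw a b z i : ℝ)) +
      (1 - 2 * μ) * (∑ i ∈ range (z + 1), (i : ℝ) * (hw a b z i : ℝ)) +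
      μ ^ 2 * ∑ i ∈ range (z + 1), (hw a b z i : ℝ) := by
    rw [mul_sum, mul_sum, ← sum_add_distrib, ← sum_add_distrib]
    apply sum_congr rfl
    intro i _
    ring
  rw [hexp, h1, h0]
  nlinarith

/-- The mode bound. -/
theorem mode_bound (a b σ : ℕ) (hσ : 1 ≤ σ) (hσa : σ ≤ a) (ha : 2 ≤ a) :
    ∃ z, σ ≤ z ∧ z ≤ σ + b ∧
      ((a + b).choose z : ℝ) ≤ 7 * Real.sqrt (σ + 1) *
        ((a.choose σ : ℝ) * (b.choose (z - σ) : ℝ)) := by
  obtain ⟨z, hz1, hz2, hz3, hz4⟩ := exists_z a b σ hσ hσa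
  refine ⟨z, hz1, hz2, ?_⟩
  have hmode := hw_mode (a := a) (b := b) hz3 (by
    refine hz4.trans ?_
    have : (σ + 1) * (a + b + 2) = σ * (a + b + 2) + (a + b + 2) := by ring
    omega) hz1
  set μ : ℝ := (z * a / (a + b) : ℝ) with hμ
  set W : ℝ := ((a + b).choose z : ℝ) with hW
  have haR : (2 : ℝ) ≤ a := by exact_mod_cast ha
  have hbR : (0 : ℝ) ≤ b := by positivity
  have hσR : (1 : ℝ) ≤ σ := by exact_mod_cast hσ
  have hσaR : (σ : ℝ) ≤ a := by exact_mod_cast hσa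
  have hμ0 : 0 ≤ μ := by positivity
  have hμ1 : μ ≤ σ + 1 := by
    rw [hμ, div_le_iff₀ (by linarith)]
    have h5 : ((z : ℝ) + 1) * (a + 1) ≤ σ * (a + b + 2) + a := by exact_mod_cast hz4
    have h6 : (z : ℝ) * (a + 1) ≤ σ * (a + b + 2) := by nlinarith
    -- z a ≤ (σ+1)(a+b)
    have h7 : (z : ℝ) * a * (a + 1) ≤ σ * (a + b + 2) * a := by nlinarith
    have h8 : (σ : ℝ) * (a + b + 2) * a ≤ (σ + 1) * (a + b) * (a + 1) := by
      nlinarith [mul_nonneg hbR (by linarith : (0:ℝ) ≤ a), mul_nonneg hbR (by linarith : (0:ℝ) ≤ (σ:ℝ)),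
        mul_le_mul_of_nonneg_right hσaR (by linarith : (0:ℝ) ≤ (a:ℝ))]
    have h9 : ((z : ℝ) * a) * (a + 1) ≤ ((σ + 1) * (a + b)) * (a + 1) := by linarith
    exact le_of_mul_le_mul_right h9 (by linarith)
  set S := Real.sqrt (σ + 1) with hS
  have hS2 : S ^ 2 = σ + 1 := Real.sq_sqrt (by linarith)
  have hS1 : 1 ≤ S := by
    rw [hS]; apply Real.one_le_sqrt.mpr; linarith
  -- Chebyshev
  have hvar := variance_le a b z ha (by omega) (by omega)
  rw [← hμ, ← hW] at hvar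
  have hW0 : ∑ i ∈ range (z + 1), (hw a b z i : ℝ) = W := by
    rw [hW, ← sum_hw]; push_cast; rfl
  have hWpos : 0 ≤ W := by positivity
  have hfar : ∑ i ∈ (range (z + 1)).filter (fun i : ℕ => ¬ |(i : ℝ) - μ| < 2 * S),
      (hw a b z i : ℝ) ≤ W / 4 := by
    have h1 : (2 * S) ^ 2 * ∑ i ∈ (range (z + 1)).filter (fun i : ℕ => ¬ |(i : ℝ) - μ| < 2 * S),
        (hw a b z i : ℝ) ≤ μ * W := by
      rw [mul_sum]
      refine le_trans (sum_le_sum (g := fun i : ℕ => ((i : ℝ) - μ) ^ 2 * (hw a b z i : ℝ)) ?_) ?_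
      · intro i hi
        rw [mem_filter, not_lt] at hi
        apply mul_le_mul_of_nonneg_right _ (by positivity)
        rw [← sq_abs ((i : ℝ) - μ)]
        exact pow_le_pow_left₀ (by linarith) hi.2 2
      · refine le_trans (sum_le_sum_of_subset_of_nonneg (filter_subset _ _) ?_) hvar
        intro i _ _; positivity
    have h2 : (2 * S) ^ 2 = 4 * (σ + 1) := by rw [mul_pow, hS2]; norm_num
    rw [h2] at h1
    have h3 : μ * W ≤ (σ + 1) * W := mul_le_mul_of_nonneg_right hμ1 hWpos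
    have h4 : (4 * ((σ : ℝ) + 1)) * ∑ i ∈ (range (z + 1)).filter
        (fun i : ℕ => ¬ |(i : ℝ) - μ| < 2 * S), (hw a b z i : ℝ) ≤ (4 * ((σ : ℝ) + 1)) * (W / 4) := by
      linarith
    exact le_of_mul_le_mul_left h4 (by linarith)
  have hnear : 3 / 4 * W ≤ ∑ i ∈ (range (z + 1)).filter (fun i : ℕ => |(i : ℝ) - μ| < 2 * S),
      (hw a b z i : ℝ) := by
    have := Finset.sum_filter_add_sum_filter_not (range (z + 1))
      (fun i : ℕ => |(i : ℝ) - μ| < 2 * S) (fun i => (hw a b z i : ℝ))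
    rw [hW0] at this
    linarith
  have hcard := card_near z μ (2 * S) hμ0 (by linarith)
  have hsum : ∑ i ∈ (range (z + 1)).filter (fun i : ℕ => |(i : ℝ) - μ| < 2 * S),
      (hw a b z i : ℝ) ≤ (2 * (2 * S) + 1) * (hw a b z σ : ℝ) := by
    calc _ ≤ ∑ i ∈ (range (z + 1)).filter (fun i : ℕ => |(i : ℝ) - μ| < 2 * S),
          (hw a b z σ : ℝ) := by
          apply sum_le_sum
          intro i hi
          rw [mem_filter, mem_range] at hi
          exact_mod_cast hmode i (by omega)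
      _ = (((range (z + 1)).filter (fun i : ℕ => |(i : ℝ) - μ| < 2 * S)).card : ℝ) *
          (hw a b z σ : ℝ) := by rw [sum_const, nsmul_eq_mul]
      _ ≤ _ := mul_le_mul_of_nonneg_right hcard (by positivity)
  have hfin : (hw a b z σ : ℝ) = (a.choose σ : ℝ) * (b.choose (z - σ) : ℝ) := by
    rw [hw]; push_cast; ring
  rw [← hfin]
  have hwn : (0 : ℝ) ≤ (hw a b z σ : ℝ) := by positivity
  have h9 : 3 / 4 * W ≤ (5 * S) * (hw a b z σ : ℝ) := by
    refine (hnear.trans hsum).trans ?_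
    apply mul_le_mul_of_nonneg_right _ hwn
    linarith
  nlinarith [mul_nonneg (by linarith : (0:ℝ) ≤ S) hwn]

end Pool.Agent.Lib.MP_455133_co
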