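import Mathlib
import Pool.Agent.Lib.MP_455133_co.Greedy
import Pool.Agent.Lib.MP_455133_co.Mode

/-!
The upper bound by random blocks of the right size.
-/

namespace Pool.Agent.Lib.MP_455133_co

open Finset

theorem f_upper {n r s t : ℕ} (hrs : r < s) (hst : s < t) (htn : t < n) :
    (f n r s t : ℝ) ≤ (1 + Real.log (n.choose t)) * (7 * Real.sqrt ((s : ℝ) - r + 1) *
      ((s.choose r : ℝ) * (n.choose r : ℝ) / (t.choose r : ℝ))) := by
  obtain ⟨z, hz1, hz2, hz3⟩ := mode_bound (t - r) (n - t) (s - r) (by omega) (by omega) (by omega)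
  have hcast : (((s - r : ℕ) : ℝ) + 1) = (s : ℝ) - r + 1 := by
    rw [Nat.cast_sub hrs.le]
  rw [hcast] at hz3
  set S := Real.sqrt ((s : ℝ) - r + 1) with hS
  have hab : t - r + (n - t) = n - r := by omega
  rw [hab] at hz3
  have hx1 : s ≤ z + r := by omega
  have hx2 : z + r ≤ n := by omega
  have hxs : z + r - s = z - (s - r) := by omega
  have p1 : (0 : ℝ) < (t.choose s : ℝ) := by exact_mod_cast Nat.choose_pos hst.le
  have p2 : (0 : ℝ) < ((n - t).choose (z - (s - r)) : ℝ) := by
    exact_mod_cast Nat.choose_pos (by omega)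
  have p3 : (0 : ℝ) < (n.choose (z + r) : ℝ) := by exact_mod_cast Nat.choose_pos hx2
  have p4 : (0 : ℝ) < (t.choose r : ℝ) := by exact_mod_cast Nat.choose_pos (by omega)
  have p5 : (0 : ℝ) < (s.choose r : ℝ) := by exact_mod_cast Nat.choose_pos (by omega)
  have p6 : (0 : ℝ) < ((t - r).choose (s - r) : ℝ) := by exact_mod_cast Nat.choose_pos (by omega)
  have p7 : (0 : ℝ) < ((z + r).choose r : ℝ) := by exact_mod_cast Nat.choose_pos (by omega)
  set q : ℝ := (t.choose s : ℝ) * ((n - t).choose (z - (s - r)) : ℝ) / (n.choose (z + r) : ℝ)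
    with hq
  have hq0 : 0 < q := by positivity
  have hq1 : q ≤ 1 := by
    rw [hq, div_le_one p3]
    have h1 : hw t (n - t) (z + r) s ≤ ∑ i ∈ range (z + r + 1), hw t (n - t) (z + r) i :=
      single_le_sum (f := fun i => hw t (n - t) (z + r) i) (fun _ _ => Nat.zero_le _)
        (mem_range.mpr (by omega))
    rw [sum_hw, hw, hxs] at h1
    have h2 : t + (n - t) = n := by omega
    rw [h2] at h1
    exact_mod_cast h1
  have hmain := f_le_log (n := n) (r := r) (s := s) (t := t) (x := z + r) hx1 hx2 htn.le hq0 hq1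
    (by rw [hxs, hq]; apply le_of_eq; field_simp)
  refine hmain.trans ?_
  have hL0 : 0 ≤ 1 + Real.log (n.choose t) := by
    have : (1 : ℝ) ≤ (n.choose t : ℝ) := by exact_mod_cast Nat.choose_pos htn.le
    have := Real.log_nonneg this
    linarith
  apply mul_le_mul_of_nonneg_left _ hL0
  -- identities
  have i1 : (n.choose (z + r) : ℝ) * ((z + r).choose r : ℝ) =
      (n.choose r : ℝ) * ((n - r).choose z : ℝ) := by
    have := Nat.choose_mul (n := n) (k := z + r) (s := r) (by omega)
    rw [Nat.add_sub_cancel] at this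
    exact_mod_cast this
  have i2 : (t.choose s : ℝ) * (s.choose r : ℝ) =
      (t.choose r : ℝ) * ((t - r).choose (s - r) : ℝ) := by
    have := Nat.choose_mul (n := t) (k := s) (s := r) hrs.le
    exact_mod_cast this
  have e1 : ((z + r).choose r : ℝ) / q = (n.choose r : ℝ) * ((n - r).choose z : ℝ) /
      ((t.choose s : ℝ) * ((n - t).choose (z - (s - r)) : ℝ)) := by
    rw [hq, ← i1]; field_simp
  have e2 : (t.choose s : ℝ) =
      (t.choose r : ℝ) * ((t - r).choose (s - r) : ℝ) / (s.choose r : ℝ) := by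
    rw [← i2]; field_simp
  rw [e1, e2]
  rw [div_le_iff₀ (by positivity)]
  have hC0 : (0 : ℝ) ≤ (n.choose r : ℝ) := by positivity
  calc (n.choose r : ℝ) * ((n - r).choose z : ℝ) ≤ (n.choose r : ℝ) * (7 * S *
        (((t - r).choose (s - r) : ℝ) * ((n - t).choose (z - (s - r)) : ℝ))) :=
        mul_le_mul_of_nonneg_left hz3 hC0
    _ = _ := by field_simp

theorem log_choose_le {n m : ℕ} (hm : 1 ≤ m) (hmn : m ≤ n) :
    Real.log (n.choose m) ≤ m * (1 + Real.log ((n : ℝ) / m)) := by
  have hmR : (0 : ℝ) < m := by exact_mod_cast hm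
  have hnR : (0 : ℝ) < n := by exact_mod_cast (by omega : 0 < n)
  have h1 : (n.choose m : ℝ) ≤ (n : ℝ) ^ m / (m.factorial : ℝ) := Nat.choose_le_pow_div m n
  have h2 : (m : ℝ) ^ m / (m.factorial : ℝ) ≤ Real.exp m :=
    Real.pow_div_factorial_le_exp (m : ℝ) hmR.le m
  have h3 : (n.choose m : ℝ) ≤ ((n : ℝ) / m) ^ m * Real.exp m := by
    calc (n.choose m : ℝ) ≤ (n : ℝ) ^ m / (m.factorial : ℝ) := h1
      _ = ((n : ℝ) / m) ^ m * ((m : ℝ) ^ m / (m.factorial : ℝ)) := by
          rw [div_pow]; field_simp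
      _ ≤ _ := mul_le_mul_of_nonneg_left h2 (by positivity)
  have hpos : (0 : ℝ) < (n.choose m : ℝ) := by exact_mod_cast Nat.choose_pos hmn
  calc Real.log (n.choose m) ≤ Real.log (((n : ℝ) / m) ^ m * Real.exp m) :=
        Real.log_le_log hpos h3
    _ = m * (1 + Real.log ((n : ℝ) / m)) := by
        rw [Real.log_mul (by positivity) (by positivity), Real.log_pow, Real.log_exp]; ring

theorem log_choose_min {n t : ℕ} (ht : 1 ≤ t) (htn : t < n) :
    (1 + Real.log (n.choose t)) * (n : ℝ) ≤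
      2 * (2 + Real.log ((n : ℝ) / (min t (n - t) : ℕ))) * (t * ((n : ℝ) - t + 1)) := by
  set m := min t (n - t) with hm
  have hm1 : 1 ≤ m := by omega
  have hmn : m ≤ n := by omega
  have hC : n.choose t = n.choose m := by
    rcases Nat.le_total t (n - t) with h | h
    · rw [hm, min_eq_left h]
    · rw [hm, min_eq_right h, Nat.choose_symm htn.le]
  have h1 := log_choose_le hm1 hmn
  rw [hC]
  have hmR : (1 : ℝ) ≤ m := by exact_mod_cast hm1
  have hmnR : (m : ℝ) ≤ n := by exact_mod_cast hmn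
  have hlog : 0 ≤ Real.log ((n : ℝ) / m) := by
    apply Real.log_nonneg
    rw [le_div_iff₀ (by linarith)]; linarith
  have h2 : 1 + Real.log (n.choose m) ≤ m * (2 + Real.log ((n : ℝ) / m)) := by nlinarith
  have h3 : (m : ℝ) * n ≤ 2 * (t * ((n : ℝ) - t + 1)) := by
    have htR : (1 : ℝ) ≤ t := by exact_mod_cast ht
    rcases Nat.le_total t (n - t) with h | h
    · have : m = t := by omega
      rw [this]
      have h4 : (t : ℝ) + t ≤ n := by exact_mod_cast (by omega : t + t ≤ n)
      nlinarith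
    · have h5 : m = n - t := by omega
      have h6 : (m : ℝ) = (n : ℝ) - t := by rw [h5, Nat.cast_sub htn.le]
      have h4 : (n : ℝ) ≤ t + t := by exact_mod_cast (by omega : n ≤ t + t)
      rw [h6]
      have h7 : (0 : ℝ) ≤ (n : ℝ) - t := by rw [← h6]; linarith
      nlinarith
  have hn0 : (0 : ℝ) ≤ n := by positivity
  calc (1 + Real.log (n.choose m)) * (n : ℝ) ≤ (m * (2 + Real.log ((n : ℝ) / m))) * n :=
        mul_le_mul_of_nonneg_right h2 hn0
    _ = (2 + Real.log ((n : ℝ) / m)) * (m * n) := by ring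
    _ ≤ (2 + Real.log ((n : ℝ) / m)) * (2 * (t * ((n : ℝ) - t + 1))) :=
        mul_le_mul_of_nonneg_left h3 (by linarith)
    _ = _ := by ring

end Pool.Agent.Lib.MP_455133_co
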