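import Mathlib
import Pool.Agent.Lib.MP_455133_co.Chain

/-!
The lower bound for the number of `r`-faces of a simplicial complex in which every
`t`-set contains a face of size `s`.
-/

namespace Pool.Agent.Lib.MP_455133_co

open Finset

noncomputable section

variable {V : Type*} [Fintype V] [DecidableEq V]

theorem ZZ_nonneg {ρ N : ℕ} (hρ : 1 ≤ ρ) (hN : ρ ≤ N) {K : Finset (Finset V)} (j : ℕ) :
    0 ≤ ZZ ρ N K j := Finset.sum_nonneg fun P _ => wt_nonneg hρ hN P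

theorem ZZ_eq_zero_of_cover {ρ N t : ℕ} {K : Finset (Finset V)}
    (hcov : ∀ T : Finset V, T.card = t → ∃ S ∈ K, S ⊆ T ∧ S.card = N + 1) :
    ZZ ρ N K t = 0 := by
  apply Finset.sum_eq_zero
  intro T hT
  rw [mem_powersetCard] at hT
  obtain ⟨S, hS, hST, hcard⟩ := hcov T hT.2
  apply Finset.prod_eq_zero (mem_powerset.mpr hST)
  have hne : S ≠ ∅ := by
    intro h; rw [h] at hcard; simp at hcard
  rw [fac, if_pos ⟨hS, hne⟩, hcard, Nat.add_sub_cancel, pw, if_neg (lt_irrefl _)]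

omit [Fintype V] in
theorem fac_small {ρ N : ℕ} (hN : ρ ≤ N) {K : Finset (Finset V)} {C : Finset V}
    (hC : C.card ≤ ρ) : fac ρ N K C = 1 := by
  rw [fac]
  split_ifs with h
  · have hpos : 0 < C.card := card_pos.mpr (nonempty_iff_ne_empty.mpr h.2)
    rw [pw, if_pos (by omega), gam_of_lt (by omega), inv_one]
  · rfl

omit [Fintype V] in
theorem wt_small {ρ N : ℕ} (hN : ρ ≤ N) {K : Finset (Finset V)} {P : Finset V}
    (hP : P.card ≤ ρ) : wt ρ N K P = 1 := by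
  apply Finset.prod_eq_one
  intro C hC
  exact fac_small hN ((card_le_card (mem_powerset.mp hC)).trans hP)

theorem ZZ_small {ρ N : ℕ} (hN : ρ ≤ N) {K : Finset (Finset V)} {j : ℕ} (hj : j ≤ ρ) :
    ZZ ρ N K j = ((Fintype.card V).choose j : ℝ) := by
  rw [ZZ, Finset.sum_congr rfl (fun P hP => wt_small hN
    (by rw [(mem_powersetCard.mp hP).2]; exact hj))]
  simp

theorem pw_rho [Nonempty V] {ρ N : ℕ} (hρ : 1 ≤ ρ) (hN : ρ ≤ N) (hV : ρ ≤ Fintype.card V) :
    1 - pw ρ N ρ = 1 / (N.choose ρ : ℝ) := by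
  rcases Nat.lt_or_ge ρ N with h | h
  · obtain ⟨T, -, hT⟩ := Finset.exists_subset_card_eq (s := (univ : Finset V)) (n := ρ)
      (by simpa using hV)
    have hsm : (T.card.choose ρ : ℝ) * (1 / (N.choose ρ : ℝ)) < 1 := by
      rw [hT]; exact small_of_lt hρ hN h
    have h1 := gam_powerset (z := 1 / (N.choose ρ : ℝ)) (by positivity) T hsm
    rw [← Finset.mul_prod_erase _ _ (mem_powerset_self T)] at h1
    have h2 : ∏ S ∈ T.powerset.erase T, gam ρ (1 / (N.choose ρ : ℝ)) S.card = 1 := by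
      apply Finset.prod_eq_one
      intro S hS
      rw [mem_erase, mem_powerset] at hS
      apply gam_of_lt
      rw [← hT]
      exact card_lt_card (ssubset_of_subset_of_ne hS.2 hS.1)
    rw [h2, mul_one, hT, Nat.choose_self] at h1
    rw [pw, if_pos h, h1, inv_inv]
    push_cast
    ring
  · have : N = ρ := le_antisymm h hN
    subst this
    rw [pw, if_neg (lt_irrefl _), Nat.choose_self]
    simp

theorem ZZ_succ_rho [Nonempty V] {ρ N : ℕ} (hρ : 1 ≤ ρ) (hN : ρ ≤ N)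
    (hV : ρ ≤ Fintype.card V) {K : Finset (Finset V)} :
    ZZ ρ N K (ρ+1) = ((Fintype.card V).choose (ρ+1) : ℝ) -
      ((K.filter fun P => P.card = ρ + 1).card : ℝ) / (N.choose ρ : ℝ) := by
  have h1 : ∀ P ∈ powersetCard (ρ+1) (univ : Finset V), wt ρ N K P =
      1 - (if P ∈ K then 1 / (N.choose ρ : ℝ) else 0) := by
    intro P hP
    rw [mem_powersetCard] at hP
    rw [wt, ← Finset.mul_prod_erase _ _ (mem_powerset_self P)]
    have h2 : ∏ C ∈ P.powerset.erase P, fac ρ N K C = 1 := by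
      apply Finset.prod_eq_one
      intro C hC
      rw [mem_erase, mem_powerset] at hC
      apply fac_small hN
      have := card_lt_card (ssubset_of_subset_of_ne hC.2 hC.1)
      omega
    rw [h2, mul_one, fac]
    have hne : P ≠ ∅ := by intro h; rw [h] at hP; simp at hP
    by_cases hK : P ∈ K
    · rw [if_pos ⟨hK, hne⟩, if_pos hK, hP.2, Nat.add_sub_cancel, ← pw_rho (V := V) hρ hN hV]
      ring
    · rw [if_neg (fun h => hK h.1), if_neg hK, sub_zero]
  rw [ZZ, Finset.sum_congr rfl h1, Finset.sum_sub_distrib, ← Finset.sum_filter]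
  have h3 : (powersetCard (ρ+1) (univ : Finset V)).filter (fun P => P ∈ K) =
      K.filter fun P => P.card = ρ + 1 := by
    ext P
    simp only [mem_filter, mem_powersetCard, subset_univ, true_and]
    tauto
  rw [h3]
  simp
  ring

/-- the quantity `b_j` -/
def bb (ρ N : ℕ) (K : Finset (Finset V)) (j : ℕ) : ℝ :=
  ((Fintype.card V : ℝ) - j) - ((j : ℝ) + 1) * ZZ ρ N K (j+1) / ZZ ρ N K j

theorem bb_step {ρ N : ℕ} (hρ : 1 ≤ ρ) (hN : ρ ≤ N) {K : Finset (Finset V)} (hK : Lower K)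
    (j : ℕ) (h0 : 0 < ZZ ρ N K j) (h1 : 0 < ZZ ρ N K (j+1)) :
    (((j : ℝ) + 1) - ρ) * bb ρ N K (j+1) ≤ ((j : ℝ) + 1) * bb ρ N K j := by
  have h := chain_ineq hρ hN hK j h0
  have e1 : (((j : ℝ) + 1) - ρ) * (((Fintype.card V : ℝ) - (j+1)) * ZZ ρ N K (j+1) -
        ((j : ℝ) + 2) * ZZ ρ N K (j+2)) =
      ((((j : ℝ) + 1) - ρ) * bb ρ N K (j+1)) * ZZ ρ N K (j+1) := by
    rw [bb]
    push_cast
    field_simp
    ring
  have e2 : ((Fintype.card V : ℝ) - j) * (((j : ℝ) + 1) * ZZ ρ N K (j+1)) -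
        (((j : ℝ) + 1) * ZZ ρ N K (j+1)) ^ 2 / ZZ ρ N K j =
      (((j : ℝ) + 1) * bb ρ N K j) * ZZ ρ N K (j+1) := by
    rw [bb]
    field_simp
  rw [e1, e2] at h
  exact le_of_mul_le_mul_right h h1

theorem bb_bound {ρ N : ℕ} (hρ : 1 ≤ ρ) (hN : ρ ≤ N) {K : Finset (Finset V)} (hK : Lower K)
    (d : ℕ) (h : ∀ i ≤ ρ + d, 0 < ZZ ρ N K i) :
    bb ρ N K (ρ + d) ≤ ((ρ + d).choose ρ : ℝ) * bb ρ N K ρ := by
  induction d with
  | zero => simp
  | succ d ih =>
    have h1 := ih (fun i hi => h i (by omega))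
    have h2 := bb_step hρ hN hK (ρ + d) (h _ (by omega)) (h _ (by omega))
    have hid : ((d : ℝ) + 1) * ((ρ + d + 1).choose ρ : ℝ) =
        ((ρ : ℝ) + d + 1) * ((ρ + d).choose ρ : ℝ) := by
      have h7 := Nat.choose_mul_succ_eq (ρ + d) ρ
      have h8 : ρ + d + 1 - ρ = d + 1 := by omega
      rw [h8] at h7
      have h9 : ((ρ + d).choose ρ : ℝ) * ((ρ : ℝ) + d + 1) =
          ((ρ + d + 1).choose ρ : ℝ) * ((d : ℝ) + 1) := by exact_mod_cast h7
      linarith
    have hd : (0 : ℝ) < (d : ℝ) + 1 := by positivity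
    have h3 : ((ρ : ℝ) + d + 1) * bb ρ N K (ρ + d) ≤
        ((ρ : ℝ) + d + 1) * (((ρ + d).choose ρ : ℝ) * bb ρ N K ρ) :=
      mul_le_mul_of_nonneg_left h1 (by positivity)
    rw [show ρ + (d + 1) = ρ + d + 1 by ring]
    apply le_of_mul_le_mul_left _ hd
    push_cast at h2
    calc ((d : ℝ) + 1) * bb ρ N K (ρ + d + 1)
        = (((ρ : ℝ) + d + 1) - ρ) * bb ρ N K (ρ + d + 1) := by ring
      _ ≤ ((ρ : ℝ) + d + 1) * bb ρ N K (ρ + d) := h2
      _ ≤ ((ρ : ℝ) + d + 1) * (((ρ + d).choose ρ : ℝ) * bb ρ N K ρ) := h3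
      _ = ((d : ℝ) + 1) * (((ρ + d + 1).choose ρ : ℝ) * bb ρ N K ρ) := by
          rw [← mul_assoc, ← hid, mul_assoc]

/-- Main inequality, in terms of `ρ = r - 1` and `N = s - 1`. -/
theorem faces_bound {ρ N t : ℕ} (hρ : 1 ≤ ρ) (hN : ρ ≤ N) {K : Finset (Finset V)} (hK : Lower K)
    (ht : t ≤ Fintype.card V)
    (hcov : ∀ T : Finset V, T.card = t → ∃ S ∈ K, S ⊆ T ∧ S.card = N + 1) :
    ((Fintype.card V : ℝ) - t + 1) * (N.choose ρ : ℝ) * ((Fintype.card V).choose ρ : ℝ) ≤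
      ((ρ : ℝ) + 1) * ((t - 1).choose ρ : ℝ) *
        ((K.filter fun P => P.card = ρ + 1).card : ℝ) := by
  classical
  -- t ≥ N + 1
  have htN : N + 1 ≤ t := by
    obtain ⟨T, -, hT⟩ := Finset.exists_subset_card_eq (s := (univ : Finset V)) (n := t)
      (by simpa using ht)
    obtain ⟨S, _, hST, hS⟩ := hcov T hT
    rw [← hS, ← hT]; exact card_le_card hST
  have hVpos : 0 < Fintype.card V := by omega
  have : Nonempty V := Fintype.card_pos_iff.mp hVpos
  have hρV : ρ + 1 ≤ Fintype.card V := by omega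
  have hex : ∃ j, ZZ ρ N K j = 0 := ⟨t, ZZ_eq_zero_of_cover hcov⟩
  obtain ⟨m, hm0, hmin⟩ : ∃ m, ZZ ρ N K m = 0 ∧ ∀ i < m, ZZ ρ N K i ≠ 0 := by
    refine ⟨Nat.find hex, Nat.find_spec hex, fun i hi => Nat.find_min hex hi⟩
  have hmt : m ≤ t := by
    by_contra hlt
    push Not at hlt
    exact hmin t hlt (ZZ_eq_zero_of_cover hcov)
  have hpos : ∀ i < m, 0 < ZZ ρ N K i := fun i hi =>
    lt_of_le_of_ne (ZZ_nonneg hρ hN i) (Ne.symm (hmin i hi))
  have hmρ : ρ < m := by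
    by_contra hle
    push Not at hle
    rw [ZZ_small hN hle] at hm0
    have : 0 < (Fintype.card V).choose m := Nat.choose_pos (by omega)
    have h' : ((Fintype.card V).choose m : ℝ) ≠ 0 := by exact_mod_cast this.ne'
    exact h' hm0
  obtain ⟨d, hd⟩ : ∃ d, m = ρ + d + 1 := ⟨m - ρ - 1, by omega⟩
  have hb := bb_bound hρ hN hK d (fun i hi => hpos i (by omega))
  have hbtop : bb ρ N K (ρ + d) = (Fintype.card V : ℝ) - (ρ + d) := by
    rw [bb, ← hd, hm0]
    push_cast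
    ring
  -- value of b_ρ
  set n : ℝ := (Fintype.card V : ℝ) with hn
  set B : ℝ := ((K.filter fun P => P.card = ρ + 1).card : ℝ) with hB
  have hCn : (0 : ℝ) < ((Fintype.card V).choose ρ : ℝ) := by
    exact_mod_cast Nat.choose_pos (by omega)
  have hCN : (0 : ℝ) < (N.choose ρ : ℝ) := by exact_mod_cast Nat.choose_pos hN
  have hbρ : bb ρ N K ρ = ((ρ : ℝ) + 1) * B / ((N.choose ρ : ℝ) * ((Fintype.card V).choose ρ : ℝ)) := by
    rw [bb, ZZ_small hN le_rfl, ZZ_succ_rho hρ hN (by omega)]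
    have hid : ((ρ : ℝ) + 1) * ((Fintype.card V).choose (ρ+1) : ℝ) =
        (n - ρ) * ((Fintype.card V).choose ρ : ℝ) := by
      have h7 := Nat.choose_succ_right_eq (Fintype.card V) ρ
      have h8 : ((Fintype.card V).choose (ρ+1) : ℝ) * ((ρ : ℝ) + 1) =
          ((Fintype.card V).choose ρ : ℝ) * ((Fintype.card V - ρ : ℕ) : ℝ) := by
        exact_mod_cast h7
      rw [Nat.cast_sub (by omega)] at h8
      linarith
    rw [← hB]
    field_simp
    linear_combination (-(N.choose ρ : ℝ)) * hid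
  rw [hbtop, hbρ] at hb
  have hmt' : ((ρ + d : ℕ) : ℝ) + 1 ≤ t := by
    have : ρ + d + 1 ≤ t := by omega
    exact_mod_cast this
  have hch : ((ρ + d).choose ρ : ℝ) ≤ ((t-1).choose ρ : ℝ) := by
    exact_mod_cast Nat.choose_le_choose _ (by omega)
  have hB0 : 0 ≤ B := by positivity
  have h10 : (n - t + 1) ≤ ((t-1).choose ρ : ℝ) *
      (((ρ : ℝ) + 1) * B / ((N.choose ρ : ℝ) * ((Fintype.card V).choose ρ : ℝ))) := by
    have h11 : 0 ≤ ((ρ : ℝ) + 1) * B / ((N.choose ρ : ℝ) * ((Fintype.card V).choose ρ : ℝ)) := by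
      positivity
    have h12 := mul_le_mul_of_nonneg_right hch h11
    push_cast at hmt'
    linarith
  have h13 : 0 < (N.choose ρ : ℝ) * ((Fintype.card V).choose ρ : ℝ) := by positivity
  have h14 := mul_le_mul_of_nonneg_right h10 h13.le
  have h15 : ((t-1).choose ρ : ℝ) *
      (((ρ : ℝ) + 1) * B / ((N.choose ρ : ℝ) * ((Fintype.card V).choose ρ : ℝ))) *
      ((N.choose ρ : ℝ) * ((Fintype.card V).choose ρ : ℝ)) =
      ((ρ : ℝ) + 1) * ((t - 1).choose ρ : ℝ) * B := by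
    field_simp
  rw [h15] at h14
  linarith

end

end Pool.Agent.Lib.MP_455133_co
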