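import Mathlib
import Pool.Agent.Lib.MP_455133_co.Defs
import Pool.Agent.Lib.MP_455133_co.Main

/-!
A lower bound for the lower shadow of a covering family, for all values of the parameters.
-/

namespace Pool.Agent.Lib.MP_455133_co

open Finset

/-- The down-closure of the family. -/
theorem down_lower {n : ℕ} (𝒜 : Finset (Finset (Fin n))) :
    Lower ((univ : Finset (Finset (Fin n))).filter fun B => ∃ A ∈ 𝒜, B ⊆ A) := by
  intro S hS S' hS'
  simp only [mem_filter, mem_univ, true_and] at hS ⊢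
  obtain ⟨A, hA, hSA⟩ := hS
  exact ⟨A, hA, hS'.trans hSA⟩

theorem bound_family {n r s t : ℕ} (hr : 1 ≤ r) (hrs : r < s) (hst : s < t) (htn : t < n)
    {𝒜 : Finset (Finset (Fin n))} (h : IsCovering s t 𝒜) :
    ((n : ℝ) - t + 1) * ((s - 1).choose (r - 1) : ℝ) * (n.choose (r - 1) : ℝ) ≤
      (r : ℝ) * ((t - 1).choose (r - 1) : ℝ) * ((lowerShadow r 𝒜).card : ℝ) := by
  rcases Nat.lt_or_ge r 2 with h2 | h2
  · -- r = 1
    have hr1 : r = 1 := by omega
    subst hr1
    simp only [Nat.sub_self, Nat.choose_zero_right, Nat.cast_one, mul_one, one_mul]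
    -- the covered points
    set U : Finset (Fin n) := univ.filter fun x => ∃ A ∈ 𝒜, x ∈ A with hU
    have hcard : (lowerShadow 1 𝒜).card = U.card := by
      have : lowerShadow 1 𝒜 = U.image fun x => ({x} : Finset (Fin n)) := by
        ext B
        simp only [lowerShadow, hU, mem_filter, mem_powersetCard, subset_univ, true_and,
          mem_image, mem_univ]
        constructor
        · rintro ⟨hB, A, hA, hBA⟩
          obtain ⟨x, rfl⟩ := card_eq_one.mp hB
          exact ⟨x, ⟨A, hA, by simpa using hBA⟩, rfl⟩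
        · rintro ⟨x, ⟨A, hA, hx⟩, rfl⟩
          exact ⟨by simp, A, hA, by simpa using hx⟩
      rw [this, card_image_of_injective _ singleton_injective]
    have hle : (Uᶜ).card < t := by
      by_contra hge
      push Not at hge
      obtain ⟨C, hC, hCt⟩ := Finset.exists_subset_card_eq hge
      obtain ⟨A, hA, hAC⟩ := h.2 C hCt
      have hAs := h.1 A hA
      have hne : A.Nonempty := by rw [← card_pos]; omega
      obtain ⟨x, hx⟩ := hne
      have h1 := hC (hAC hx)
      rw [mem_compl] at h1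
      exact h1 (by simp only [hU, mem_filter, mem_univ, true_and]; exact ⟨A, hA, hx⟩)
    rw [card_compl, Fintype.card_fin] at hle
    have hUn : U.card ≤ n := by simpa using card_le_univ U
    rw [hcard]
    have : n + 1 ≤ U.card + t := by omega
    have h3 : (n : ℝ) + 1 ≤ (U.card : ℝ) + t := by exact_mod_cast this
    linarith
  · have hmain := faces_bound (V := Fin n) (ρ := r - 1) (N := s - 1) (t := t) (by omega)
      (by omega) (down_lower 𝒜) (by simpa using htn.le) (by
        intro T hT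
        obtain ⟨A, hA, hAT⟩ := h.2 T hT
        refine ⟨A, ?_, hAT, ?_⟩
        · simp only [mem_filter, mem_univ, true_and]; exact ⟨A, hA, Subset.rfl⟩
        · rw [h.1 A hA]; omega)
    have hr' : r - 1 + 1 = r := by omega
    have hrr : ((r - 1 : ℕ) : ℝ) + 1 = r := by
      have : ((r - 1 + 1 : ℕ) : ℝ) = r := by rw [hr']
      push_cast at this
      exact this
    rw [hr', hrr, Fintype.card_fin] at hmain
    have hset : ((univ : Finset (Finset (Fin n))).filter fun B => ∃ A ∈ 𝒜, B ⊆ A).filter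
        (fun P => P.card = r) = lowerShadow r 𝒜 := by
      ext B
      simp only [lowerShadow, mem_filter, mem_univ, true_and, mem_powersetCard, subset_univ]
      tauto
    rw [hset] at hmain
    exact hmain

/-- For all `1 ≤ r < s < t < n` the lower `r`-shadow of a `t`-covering family of `s`-subsets of an
`n`-set has at least `(n-t+1)/(n-r+1) * C(s-1,r-1)/C(t-1,r-1) * C(n,r)` members. -/
theorem f_lower (n r s t : ℕ) (hr : 1 ≤ r) (hrs : r < s) (hst : s < t) (htn : t < n) :
    ((n : ℝ) - t + 1) / ((n : ℝ) - r + 1) *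
      (((s - 1).choose (r - 1) : ℝ) / ((t - 1).choose (r - 1) : ℝ)) * (n.choose r : ℝ) ≤
      (f n r s t : ℝ) := by
  obtain ⟨𝒜, h𝒜, hf⟩ := f_spec (n := n) (r := r) hst.le
  rw [hf]
  have h := bound_family hr hrs hst htn h𝒜
  obtain ⟨ρ, rfl⟩ : ∃ ρ, r = ρ + 1 := ⟨r - 1, by omega⟩
  simp only [Nat.add_sub_cancel] at h ⊢
  have hid : ((ρ : ℝ) + 1) * (n.choose (ρ+1) : ℝ) = ((n : ℝ) - ρ) * (n.choose ρ : ℝ) := by
    have h7 := Nat.choose_succ_right_eq n ρ
    have h8 : (n.choose (ρ+1) : ℝ) * ((ρ : ℝ) + 1) =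
        (n.choose ρ : ℝ) * ((n - ρ : ℕ) : ℝ) := by exact_mod_cast h7
    rw [Nat.cast_sub (by omega)] at h8
    linarith
  have h1 : (0 : ℝ) < (n : ℝ) - ρ := by
    have : (ρ : ℝ) < n := by exact_mod_cast (by omega : ρ < n)
    linarith
  have h2 : (0 : ℝ) < ((t - 1).choose ρ : ℝ) := by
    exact_mod_cast Nat.choose_pos (by omega)
  have h3 : (n : ℝ) - (ρ + 1 : ℕ) + 1 = (n : ℝ) - ρ := by push_cast; ring
  rw [h3]
  have h4 : (0 : ℝ) < (ρ : ℝ) + 1 := by positivity
  have h5 : (n.choose (ρ+1) : ℝ) = ((n : ℝ) - ρ) * (n.choose ρ : ℝ) / ((ρ : ℝ) + 1) := by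
    field_simp
    linarith
  rw [h5]
  have h6 : ((n : ℝ) - t + 1) / ((n : ℝ) - ρ) * (((s - 1).choose ρ : ℝ) / ((t - 1).choose ρ : ℝ)) *
      (((n : ℝ) - ρ) * (n.choose ρ : ℝ) / ((ρ : ℝ) + 1)) =
      (((n : ℝ) - t + 1) * ((s - 1).choose ρ : ℝ) * (n.choose ρ : ℝ)) /
        (((ρ : ℝ) + 1) * ((t - 1).choose ρ : ℝ)) := by
    field_simp
  rw [h6, div_le_iff₀ (by positivity)]
  push_cast at h
  linarith

end Pool.Agent.Lib.MP_455133_co
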